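import Pool.Agent.Work.MP_727c87_cx.C1.Comp

set_option autoImplicit false

/-! # MP_727c87, part C1: block EXIT (helper69, fallback) -/

namespace Pool.CX.EXITB

variable {Mo : Model}

theorem step_a {C : Cov Mo} (y : C.Y) : C.Dle 1 y (C.a y) :=
  Cov.Dle.one (Or.inr (Or.inr (Or.inr (C.sameArc_a y))))
theorem step_r {C : Cov Mo} (y : C.Y) : C.Dle 1 y (C.r y) := Cov.Dle.one (Or.inr (Or.inl rfl))
theorem step_rs {C : Cov Mo} (y : C.Y) : C.Dle 1 y (C.r.symm y) :=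
  Cov.Dle.one (Or.inr (Or.inr (Or.inl (C.r.apply_symm_apply y).symm)))
theorem step_b {C : Cov Mo} (y : C.Y) : C.Dle 3 y (C.b y) :=
  ((step_r y).trans (step_a _)).trans (step_rs _)
theorem step_c {C : Cov Mo} (y : C.Y) : C.Dle 3 y (C.c y) :=
  ((step_rs y).trans (step_a _)).trans (step_r _)
theorem step_t {C : Cov Mo} (y : C.Y) : C.Dle 6 y (C.t y) := (step_b y).trans (step_c _)

theorem step_tn {C : Cov Mo} (y : C.Y) (n : ℕ) : C.Dle (6 * n) y ((C.t ^ n) y) := by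
  induction n with
  | zero => exact (rfl : y = y)
  | succ n ih =>
    rw [pow_succ', Equiv.Perm.mul_apply]
    exact ih.trans (step_t _)

end Pool.CX.EXITB

namespace Pool.CX

open EXITB

theorem EXITB.gen {Mo : Model} (P : Cov Mo)
    (hinj0 : ∀ y : P.Y, Function.Injective (fun n : ℤ => (P.t ^ n) y))
    (hle : ∀ {K : ℕ} {m n : ℤ} {y : P.Y}, P.Dle K ((P.t ^ m) y) ((P.t ^ n) y) →
      2 * |n - m| ≤ 3 * K + 1) (K : ℕ) (S V : Set P.Y) (hS : S.Finite)
    (ha : ∀ y, P.a y ∈ S ↔ y ∈ S) (hb : ∀ y, P.b y ∈ S ↔ y ∈ S)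
    (hV : ∀ y, ¬ (P.r y ∈ S ↔ y ∈ S) → P.r y ∈ V)
    (hK : ∀ v ∈ V, ∀ v' ∈ V, P.Dle K v v') (y : P.Y) (hy : y ∈ S) :
    ∃ v ∈ V, P.Dle (9 * K + 150) y v := by
  have hinj := hinj0 y
  -- first exit in the positive direction
  have hex1 : ∃ m : ℕ, (P.t ^ m) y ∉ S := by
    by_contra hcon
    push Not at hcon
    have h1 : (Set.range (fun m : ℕ => (P.t ^ m) y)).Infinite := by
      refine Set.infinite_range_of_injective ?_
      intro m n hmn
      have h2 : (fun n : ℤ => (P.t ^ n) y) (m : ℤ) = (fun n : ℤ => (P.t ^ n) y) (n : ℤ) := by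
        simp only [zpow_natCast]
        exact hmn
      exact_mod_cast hinj h2
    exact h1 (hS.subset (by rintro _ ⟨m, rfl⟩; exact hcon m))
  have hex2 : ∃ m : ℕ, (P.t.symm ^ m) y ∉ S := by
    by_contra hcon
    push Not at hcon
    have h1 : (Set.range (fun m : ℕ => (P.t.symm ^ m) y)).Infinite := by
      refine Set.infinite_range_of_injective ?_
      intro m n hmn
      have h3 : ∀ k : ℕ, (P.t.symm ^ k) y = (P.t ^ (-(k : ℤ))) y := by
        intro k
        rw [zpow_neg, zpow_natCast, ← inv_pow]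
        rfl
      have h2 : (fun n : ℤ => (P.t ^ n) y) (-(m : ℤ)) = (fun n : ℤ => (P.t ^ n) y) (-(n : ℤ)) := by
        simp only
        rw [← h3, ← h3]
        exact hmn
      have h4 := hinj h2
      omega
    exact h1 (hS.subset (by rintro _ ⟨m, rfl⟩; exact hcon m))
  classical
  obtain ⟨m, hm, hm'⟩ : ∃ m : ℕ, (P.t ^ m) y ∈ S ∧ (P.t ^ (m + 1)) y ∉ S := by
    have h1 := Nat.find_spec hex1
    have h2 : Nat.find hex1 ≠ 0 := by
      intro h0
      rw [h0, pow_zero, Equiv.Perm.one_apply] at h1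
      exact h1 hy
    refine ⟨Nat.find hex1 - 1, ?_, ?_⟩
    · have := Nat.find_min hex1 (m := Nat.find hex1 - 1) (by omega)
      rwa [not_not] at this
    · have h3 : Nat.find hex1 - 1 + 1 = Nat.find hex1 := by omega
      rw [h3]; exact h1
  obtain ⟨n, hn, hn'⟩ : ∃ n : ℕ, (P.t.symm ^ n) y ∈ S ∧ (P.t.symm ^ (n + 1)) y ∉ S := by
    have h1 := Nat.find_spec hex2
    have h2 : Nat.find hex2 ≠ 0 := by
      intro h0
      rw [h0, pow_zero, Equiv.Perm.one_apply] at h1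
      exact h1 hy
    refine ⟨Nat.find hex2 - 1, ?_, ?_⟩
    · have := Nat.find_min hex2 (m := Nat.find hex2 - 1) (by omega)
      rwa [not_not] at this
    · have h3 : Nat.find hex2 - 1 + 1 = Nat.find hex2 := by omega
      rw [h3]; exact h1
  set u := (P.t ^ m) y with hu
  set w := (P.t.symm ^ n) y with hw
  have htu : (P.t ^ (m + 1)) y = P.c (P.b u) := by
    rw [pow_succ', Equiv.Perm.mul_apply, ← hu, Cov.t_apply]
  have htw : (P.t.symm ^ (n + 1)) y = P.b (P.c w) := by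
    rw [pow_succ', Equiv.Perm.mul_apply, ← hw, Cov.t_symm_apply]
  rw [htu] at hm'
  rw [htw] at hn'
  have hV' : ∀ z, P.r.symm z ∈ S ∨ z ∈ S → ¬ (P.r.symm z ∈ S ∧ z ∈ S) → z ∈ V := by
    intro z h1 h2
    have h3 := hV (P.r.symm z)
    rw [Equiv.apply_symm_apply] at h3
    exact h3 (fun h4 => h2 (by
      rcases h1 with h1 | h1
      · exact ⟨h1, h4.2 h1⟩
      · exact ⟨h4.1 h1, h1⟩))
  -- visited flags near the two ends
  have hv : ∃ v ∈ V, P.Dle 3 (P.b u) v := by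
    have hbu : P.b u ∈ S := (hb u).2 hm
    by_cases h1 : P.r.symm (P.b u) ∈ S
    · refine ⟨P.c (P.b u), ?_, step_c _⟩
      refine hV' _ ?_ (fun h2 => hm' h2.2)
      left
      unfold Cov.c
      rw [Equiv.symm_apply_apply]
      exact (ha _).2 h1
    · exact ⟨P.b u, hV' _ (Or.inr hbu) (fun h2 => h1 h2.1), Cov.Dle.refl 3 _⟩
  have hv' : ∃ v ∈ V, P.Dle 3 w v := by
    have hcw : P.c w ∉ S := fun h1 => hn' ((hb _).2 h1)
    by_cases h1 : P.r.symm w ∈ S
    · refine ⟨P.c w, ?_, step_c _⟩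
      refine hV' _ ?_ (fun h2 => hcw h2.2)
      left
      unfold Cov.c
      rw [Equiv.symm_apply_apply]
      exact (ha _).2 h1
    · exact ⟨w, hV' _ (Or.inr hn) (fun h2 => h1 h2.1), Cov.Dle.refl 3 _⟩
  obtain ⟨v, hvV, hv1⟩ := hv
  obtain ⟨v', hvV', hv1'⟩ := hv'
  have h1 : P.Dle (K + 9) w u := by
    have h2 := ((hv1'.trans (hK v' hvV' v hvV)).trans hv1.symm).trans (step_b u).symm
    exact h2.mono (by omega)
  have h2 : 2 * |(m : ℤ) - (-(n : ℤ))| ≤ 3 * ((K + 9 : ℕ) : ℤ) + 1 := by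
    refine hle (K := K + 9) (m := -(n : ℤ)) (n := (m : ℤ)) (y := y) ?_
    have e1 : (P.t ^ (-(n : ℤ))) y = w := by
      rw [zpow_neg, zpow_natCast, ← inv_pow]
      rfl
    have e2 : (P.t ^ (m : ℤ)) y = u := by rw [zpow_natCast]
    rw [e1, e2]
    exact h1
  have h3 : (m : ℤ) - (-(n : ℤ)) = ((m + n : ℕ) : ℤ) := by push_cast; ring
  rw [h3, Nat.abs_cast] at h2
  have h4 : 2 * (m + n) ≤ 3 * (K + 9) + 1 := by exact_mod_cast h2
  refine ⟨v, hvV, ?_⟩
  have h5 := ((step_tn y m).trans (step_b u)).trans hv1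
  exact h5.mono (by omega)

theorem blk_EXIT' : Stmt_EXIT := fun Mo q0 K S V hS ha hb hV hK y hy =>
  EXITB.gen (Mo.plane q0) (plane_t_inj Mo q0) (fun h => plane_t_le Mo q0 h) K S V hS ha hb hV hK y hy

end Pool.CX
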