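import Pool.Agent.Work.MP_727c87_cx.C1.Comp

set_option autoImplicit false

/-! # MP_727c87, part C1: blocks LFIN, LARC, LLIFT, LIFT (helper69) -/

namespace Pool.CX

open Pool.CS

variable {Mo : Model}

theorem blk_LFIN : Stmt_LFIN := by
  intro Mo C n y
  induction n with
  | zero => exact (Set.finite_singleton y).subset fun y' (hy' : y = y') => hy'.symm
  | succ n ih =>
    refine (((ih.union (ih.image C.a)).union (ih.image C.r)).union (ih.image C.r.symm)).subset ?_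
    rintro y' ⟨z, h1, h2 | h2 | h2 | h2⟩
    · rw [← h2]
      exact Or.inl (Or.inl (Or.inl h1))
    · rw [h2]
      exact Or.inl (Or.inl (Or.inr ⟨z, h1, rfl⟩))
    · rw [h2]
      exact Or.inl (Or.inr ⟨z, h1, rfl⟩)
    · rw [h2]
      exact Or.inr ⟨z, h1, rfl⟩

namespace Cov

variable (C : Cov Mo)

/-- follow the arc -/
def fol (y : C.Y) : C.Y := C.a (C.m y)

theorem p_fol (y : C.Y) : C.p (C.fol y) = lstep Mo.L Mo.mu (C.p y) := by
  rw [fol, C.p_a, C.p_m]
  rfl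

theorem p_fol_iter (k : ℕ) (y : C.Y) : C.p (C.fol^[k] y) = (lstep Mo.L Mo.mu)^[k] (C.p y) := by
  induction k with
  | zero => rfl
  | succ k ih => rw [Function.iterate_succ_apply', Function.iterate_succ_apply', p_fol, ih]

theorem near_rpow (k : ℕ) (y : C.Y) : C.Near k y ((C.r ^ k) y) := by
  induction k with
  | zero => exact (rfl : y = y)
  | succ k ih =>
    rw [pow_succ', Equiv.Perm.mul_apply]
    exact ih.trans (Near.r _)

theorem near_m (y : C.Y) : C.Near 11 y (C.m y) := by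
  unfold m
  refine (C.near_rpow _ y).mono ?_
  have := ZMod.val_lt (Mo.mu (C.p y).1 (C.p y).2 - (C.p y).2)
  omega

theorem near_fol (y : C.Y) : C.Near 12 y (C.fol y) := (C.near_m y).trans (Near.a _)

theorem near_fol_iter (k : ℕ) (y : C.Y) : C.Near (12 * k) y (C.fol^[k] y) := by
  induction k with
  | zero => exact (rfl : y = y)
  | succ k ih =>
    rw [Function.iterate_succ_apply']
    exact ih.trans (C.near_fol _)

/-- the flags of the arc in one direction -/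
def br (y : C.Y) (n : ℕ) : Set C.Y :=
  {y' | (∃ k ≤ n, y' = C.fol^[k] y) ∨ (∃ k < n, y' = C.m (C.fol^[k] y))}

theorem br_m {y : C.Y} {n : ℕ} (h1 : ∀ k < n, (C.p (C.fol^[k] y)).1 ∉ Mo.D)
    (h2 : (C.p (C.fol^[n] y)).1 ∈ Mo.D) {y' : C.Y} (hy : y' ∈ C.br y n)
    (hD : (C.p y').1 ∉ Mo.D) : C.m y' ∈ C.br y n := by
  rcases hy with ⟨k, hk, rfl⟩ | ⟨k, hk, rfl⟩
  · have : k ≠ n := by
      rintro rfl
      exact hD h2
    exact Or.inr ⟨k, by omega, rfl⟩
  · exact Or.inl ⟨k, hk.le, C.m_m _ (h1 k hk)⟩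

theorem br_a {y : C.Y} {n : ℕ} {y' : C.Y} (hy : y' ∈ C.br y n) :
    C.a y' ∈ C.br y n ∨ y' = y := by
  rcases hy with ⟨k, hk, rfl⟩ | ⟨k, hk, rfl⟩
  · cases k with
    | zero => exact Or.inr rfl
    | succ k =>
      refine Or.inl (Or.inr ⟨k, by omega, ?_⟩)
      rw [Function.iterate_succ_apply', fol, C.a_a]
  · refine Or.inl (Or.inl ⟨k + 1, by omega, ?_⟩)
    rw [Function.iterate_succ_apply']
    rfl

theorem br_self (y : C.Y) (n : ℕ) : y ∈ C.br y n := Or.inl ⟨0, Nat.zero_le _, rfl⟩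

theorem near_br {y y' : C.Y} {n : ℕ} (h : y' ∈ C.br y n) : C.Near (12 * n + 11) y y' := by
  rcases h with ⟨k, hk, rfl⟩ | ⟨k, hk, rfl⟩
  · exact (C.near_fol_iter k y).mono (by omega)
  · exact ((C.near_fol_iter k y).trans (C.near_m _)).mono (by omega)

end Cov

open Classical in
/-- the whole arc is in the two branches -/
theorem arc_branches (C : Cov Mo) (y : C.Y) (s : ℕ)
    (hcut : ∀ y : Mo.F, ∃ n, n < 2 * s ∧ ((lstep Mo.L Mo.mu)^[n] y).1 ∈ Mo.D) :
    ∃ n n' : ℕ, n < 2 * s ∧ n' < 2 * s ∧ ∀ y', C.SameArc y y' →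
      y' ∈ C.br y n ∨ y' ∈ C.br (C.a y) n' := by
  have hex : ∀ z : C.Y, ∃ n, n < 2 * s ∧ (C.p (C.fol^[n] z)).1 ∈ Mo.D ∧
      ∀ k < n, (C.p (C.fol^[k] z)).1 ∉ Mo.D := by
    intro z
    have h1 : ∃ n, (C.p (C.fol^[n] z)).1 ∈ Mo.D := by
      obtain ⟨n, -, h2⟩ := hcut (C.p z)
      exact ⟨n, by rw [C.p_fol_iter]; exact h2⟩
    refine ⟨Nat.find h1, ?_, Nat.find_spec h1, fun k hk => Nat.find_min h1 hk⟩
    obtain ⟨n, h2, h3⟩ := hcut (C.p z)
    exact lt_of_le_of_lt (Nat.find_min' h1 (by rw [C.p_fol_iter]; exact h3)) h2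
  obtain ⟨n, hn, hn1, hn2⟩ := hex y
  obtain ⟨n', hn', hn1', hn2'⟩ := hex (C.a y)
  refine ⟨n, n', hn, hn', ?_⟩
  let E : Set C.Y := C.br y n ∪ C.br (C.a y) n'
  have hEm : ∀ z ∈ E, (C.p z).1 ∉ Mo.D → C.m z ∈ E := by
    rintro z (hz | hz) hD
    · exact Or.inl (C.br_m hn2 hn1 hz hD)
    · exact Or.inr (C.br_m hn2' hn1' hz hD)
  have hEa : ∀ z ∈ E, C.a z ∈ E := by
    rintro z (hz | hz)
    · rcases C.br_a hz with h1 | rfl
      · exact Or.inl h1
      · exact Or.inr (C.br_self _ _)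
    · rcases C.br_a hz with h1 | rfl
      · exact Or.inr h1
      · rw [C.a_a]
        exact Or.inl (C.br_self _ _)
  have key : ∀ u v : C.Y, C.SameArc u v → (u ∈ E ↔ v ∈ E) := by
    intro u v huv
    have huv' : Relation.EqvGen (fun y y' => y' = C.a y ∨ ((C.p y).1 ∉ Mo.D ∧ y' = C.m y)) u v :=
      huv
    clear huv
    induction huv' with
    | rel u v h =>
      rcases h with rfl | ⟨hD, rfl⟩
      · refine ⟨hEa u, fun h => ?_⟩
        have := hEa _ h
        rwa [C.a_a] at this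
      · refine ⟨fun h => hEm u h hD, fun h => ?_⟩
        have := hEm _ h (by rw [C.m_fst]; exact hD)
        rwa [C.m_m u hD] at this
    | refl _ => exact Iff.rfl
    | symm _ _ _ ih => exact ih.symm
    | trans _ _ _ _ _ ih1 ih2 => exact ih1.trans ih2
  intro y' hy'
  exact (key y y' hy').1 (Or.inl (C.br_self _ _))

theorem blk_LARC : Stmt_LARC := by
  intro Mo s N hMo C y y' h
  obtain ⟨n, n', hn, hn', h1⟩ := arc_branches C y s hMo.cut
  unfold M0
  rcases h1 y' h with h2 | h2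
  · exact (C.near_br h2).mono (by omega)
  · exact ((Cov.Near.a y).trans (C.near_br h2)).mono (by omega)

theorem sameArc_lift {C : Cov Mo} {u v : Mo.F} (h : Mo.base.SameArc u v) :
    (∀ z : C.Y, C.p z = u → ∃ z', C.p z' = v ∧ C.SameArc z z') ∧
      ∀ z' : C.Y, C.p z' = v → ∃ z, C.p z = u ∧ C.SameArc z z' := by
  have h' : Relation.EqvGen (fun y y' => y' = Mo.base.a y ∨
    ((Mo.base.p y).1 ∉ Mo.D ∧ y' = Mo.base.m y)) u v := h
  clear h
  have hbm : ∀ u : Mo.F, Mo.base.m u = (u.1, Mo.mu u.1 u.2) := fun u => Mo.base.p_m u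
  induction h' with
  | rel u v h =>
    rcases h with rfl | ⟨hD, rfl⟩
    · constructor
      · rintro z rfl
        exact ⟨C.a z, C.p_a z, C.sameArc_a z⟩
      · intro z' hz'
        refine ⟨C.a z', ?_, (C.sameArc_a z').symm⟩
        rw [C.p_a, hz']
        exact Mo.base.a_a u
    · have hD' : u.1 ∉ Mo.D := hD
      constructor
      · rintro z rfl
        refine ⟨C.m z, ?_, C.sameArc_m z hD'⟩
        rw [C.p_m, hbm]
      · intro z' hz'
        have h1 : (C.p z').1 ∉ Mo.D := by rw [hz', hbm]; exact hD'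
        refine ⟨C.m z', ?_, (C.sameArc_m z' h1).symm⟩
        rw [C.p_m, hz', hbm]
        exact Prod.ext rfl ((Mo.good u.1).inv u.2)
  | refl u => exact ⟨fun z hz => ⟨z, hz, Cov.SameArc.refl C z⟩,
      fun z hz => ⟨z, hz, Cov.SameArc.refl C z⟩⟩
  | symm u v _ ih =>
    constructor
    · intro z hz
      obtain ⟨z', h1, h2⟩ := ih.2 z hz
      exact ⟨z', h1, h2.symm⟩
    · intro z hz
      obtain ⟨z', h1, h2⟩ := ih.1 z hz
      exact ⟨z', h1, h2.symm⟩
  | trans u v w _ _ ih1 ih2 =>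
    constructor
    · intro z hz
      obtain ⟨z', h1, h2⟩ := ih1.1 z hz
      obtain ⟨z'', h3, h4⟩ := ih2.1 z' h1
      exact ⟨z'', h3, h2.trans h4⟩
    · intro z hz
      obtain ⟨z', h1, h2⟩ := ih2.2 z hz
      obtain ⟨z'', h3, h4⟩ := ih1.2 z' h1
      exact ⟨z'', h3, h4.trans h2⟩

theorem step_lift {C : Cov Mo} (z : C.Y) {v : Mo.F} (h : Mo.base.Step (C.p z) v) :
    ∃ z', C.p z' = v ∧ C.Step z z' := by
  rcases h with h | h | h | h
  · exact ⟨z, h, Or.inl rfl⟩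
  · exact ⟨C.r z, (C.p_r z).trans h.symm, Or.inr (Or.inl rfl)⟩
  · refine ⟨C.r.symm z, ?_, Or.inr (Or.inr (Or.inl (C.r.apply_symm_apply z).symm))⟩
    rw [C.p_rsymm, h]
    exact Mo.fr.symm_apply_apply v
  · obtain ⟨z', h1, h2⟩ := (sameArc_lift h).1 z rfl
    exact ⟨z', h1, Or.inr (Or.inr (Or.inr h2))⟩

theorem blk_LLIFT : Stmt_LLIFT := by
  intro Mo C K z y' h
  induction K generalizing y' with
  | zero => exact ⟨z, h, (rfl : z = z)⟩
  | succ K ih =>
    obtain ⟨u, h1, h2⟩ := h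
    obtain ⟨z1, h3, h4⟩ := ih u h1
    rw [← h3] at h2
    obtain ⟨z2, h5, h6⟩ := step_lift z1 h2
    exact ⟨z2, h5, z1, h4, h6⟩

theorem one_le_M0 (s : ℕ) : 1 ≤ M0 s := by
  unfold M0
  omega

/-- coarse steps in elementary moves -/
theorem dle_near {s N : ℕ} (hMo : Mo.Fine s N) {C : Cov Mo} {K : ℕ} {y y' : C.Y}
    (h : C.Dle K y y') : C.Near (K * M0 s) y y' := by
  have hM := one_le_M0 s
  induction K generalizing y' with
  | zero =>
    have h1 : y = y' := h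
    rw [h1]
    exact Cov.Near.refl _ _
  | succ K ih =>
    obtain ⟨z, h1, h2⟩ := h
    rw [Nat.succ_mul]
    refine (ih h1).trans ?_
    rcases h2 with h2 | h2 | h2 | h2
    · rw [← h2]
      exact Cov.Near.refl _ _
    · rw [h2]
      exact (Cov.Near.r z).mono hM
    · rw [h2]
      exact (Cov.Near.r y').symm.mono hM
    · exact blk_LARC Mo s N hMo C z y' h2

/-- elementary moves in the plane are words -/
theorem near_word {q0 : Mo.Q} {n : ℕ} {z z' : (Mo.plane q0).Y} (h : (Mo.plane q0).Near n z z') :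
    ∃ l : List (ZMod 12), l.length ≤ n ∧ z'.1 = z.1 * wp G12 l := by
  induction n generalizing z' with
  | zero =>
    have h1 : z = z' := h
    exact ⟨[], le_refl _, by rw [wp_nil, mul_one, h1]⟩
  | succ n ih =>
    obtain ⟨u, h1, h2⟩ := h
    obtain ⟨l, h3, h4⟩ := ih h1
    rcases h2 with h2 | h2 | h2 | h2
    · exact ⟨l, by omega, by rw [← h2, h4]⟩
    · refine ⟨l ++ [u.2], ?_, ?_⟩
      · rw [List.length_append, List.length_singleton]
        omega
      · rw [h2, wp_append, ← mul_assoc, ← h4, wp_cons, wp_nil, mul_one]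
        rfl
    · refine ⟨l, by omega, ?_⟩
      rw [h2, ← h4]
      rfl
    · refine ⟨l, by omega, ?_⟩
      rw [h2, ← h4]
      rfl

theorem near_inj {s N n : ℕ} (hMo : Mo.Fine s N) (hn : n ≤ N) {q0 : Mo.Q}
    {z z' : (Mo.plane q0).Y} (h : (Mo.plane q0).Near n z z')
    (hp : (Mo.plane q0).p z = (Mo.plane q0).p z') : z = z' := by
  obtain ⟨l, h1, h2⟩ := near_word h
  have h3 : Mo.L.r q0 z.1 = Mo.L.r q0 z'.1 := congrArg (fun x : Mo.F => x.1) hp
  have h4 : z.2 = z'.2 := congrArg (fun x : Mo.F => x.2) hp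
  have h5 : act Mo.L (Mo.L.r q0 z.1) l = Mo.L.r q0 z.1 := by
    rw [act_eq_r, ← LS.r_mul, ← h2, ← h3]
  have h6 := hMo.inj _ l (by omega) h5
  rw [h6, mul_one] at h2
  exact Prod.ext h2.symm h4

theorem blk_LIFT : Stmt_LIFT := by
  intro Mo s N K hMo hN q0 z z' h1 h2
  obtain ⟨z'', h3, h4⟩ := blk_LLIFT Mo (Mo.plane q0) K z _ h2
  have h5 := dle_near hMo h4
  have h6 := h1.symm.trans h5
  have h7 : z' = z'' := near_inj hMo (by rw [mul_assoc] at hN; omega) h6 h3.symm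
  rw [h7]
  exact ⟨h4, h5⟩

end Pool.CX
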