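import Pool.Agent.Work.MP_727c87_cx.C1.Main
import Pool.Agent.Work.MP_727c87_cx.C1.Lift
import Pool.Agent.Work.MP_727c87_cx.C1.ExitB

set_option autoImplicit false

/-! # MP_727c87, part C1 complete -/

namespace Pool.CX

theorem stmt_TRK : Stmt_TRK := c1_of blk_LFIN blk_LIFT blk_EXIT'

end Pool.CX
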