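import Pool.Agent.Work.MP_727c87_cx.LemmaPFlags
import Pool.Agent.Work.MP_727c87_cx.PlaneEnds
import Pool.Agent.Work.MP_727c87_cx.Build

set_option autoImplicit false

/-! # MP_727c87, part C1: output (tracks of a labelling with small classes) and the pure covering blocks -/

namespace Pool.CX

open Pool.CS

variable {Mo : Model}

/-- the deck group -/
def Cov.deck (C : Cov Mo) : Subgroup (Equiv.Perm C.Y) where
  carrier := {e | (∀ z, e (C.a z) = C.a (e z)) ∧ (∀ z, e (C.r z) = C.r (e z)) ∧ ∀ z, C.p (e z) = C.p z}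
  mul_mem' {e e'} he he' := by
    refine ⟨fun z => ?_, fun z => ?_, fun z => ?_⟩
    · rw [Equiv.Perm.mul_apply, Equiv.Perm.mul_apply, he'.1, he.1]
    · rw [Equiv.Perm.mul_apply, Equiv.Perm.mul_apply, he'.2.1, he.2.1]
    · rw [Equiv.Perm.mul_apply, he.2.2, he'.2.2]
  one_mem' := ⟨fun _ => rfl, fun _ => rfl, fun _ => rfl⟩
  inv_mem' {e} he := by
    refine ⟨fun z => ?_, fun z => ?_, fun z => ?_⟩
    · apply e.injective
      have h1 : ∀ z, e (e⁻¹ z) = z := e.apply_symm_apply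
      rw [h1, he.1, h1]
    · apply e.injective
      have h1 : ∀ z, e (e⁻¹ z) = z := e.apply_symm_apply
      rw [h1, he.2.1, h1]
    · have h1 := he.2.2 (e⁻¹ z)
      have h2 : e (e⁻¹ z) = z := e.apply_symm_apply z
      rw [h2] at h1
      exact h1.symm

/-- injectivity radius at least `N`, every line meets a defect after less than `2 s` steps -/
structure Model.Fine (Mo : Model) (s N : ℕ) : Prop where
  inj : ∀ (q : Mo.Q) (l : List (ZMod 12)), l.length ≤ N → act Mo.L q l = q → wp G12 l = 1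
  cut : ∀ y : Mo.F, ∃ n, n < 2 * s ∧ ((lstep Mo.L Mo.mu)^[n] y).1 ∈ Mo.D

/-- all classes of the labelling are `K`-small -/
def Lab.Small {h : ℕ} {Λ : Type} (l : Lab Mo h Λ) (K : ℕ) : Prop :=
  ∀ (y y' : Mo.F) (i j i' j' : ℕ), Mo.PV h y i j → Mo.PV h y' i' j' → l.l y i j = l.l y' i' j' →
    Mo.base.Dle K y y'

/-- `B` is one side of the arc of `y0` (for the corners) -/
structure Cov.ArcPot (C : Cov Mo) (y0 : C.Y) (B : Set C.Y) : Prop where
  a : ∀ y, C.a y ∈ B ↔ y ∈ B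
  b : ∀ y, C.b y ∈ B ↔ y ∈ B
  r : ∀ y, (C.r y ∈ B ↔ y ∈ B) ↔ ¬ C.SameArc y0 (C.r y)

/-- **Output of C1**: the (oriented, arc) tracks of a labelling with small classes. `H c` = corners on the head side of
`c`, `vis c` = flags visited by `c`, `le` = inclusion of the sides. -/
structure Tracks {M : W → ZMod 12 → ZMod 12} (C : Cov Mo) (dv : Dev C M) (K1 K2 : ℕ) where
  Tr : Type
  act : MulAction C.deck Tr
  rev : Tr → Tr
  le : Tr → Tr → Prop
  H : Tr → Set C.Y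
  vis : Tr → Set C.Y
  rev_rev : ∀ c, rev (rev c) = c
  le_refl : ∀ c, le c c
  le_trans : ∀ c d e, le c d → le d e → le c e
  le_antisymm : ∀ c d, le c d → le d c → c = d
  le_rev : ∀ c d, le c d → le (rev d) (rev c)
  nested : ∀ c d, le c d ∨ le c (rev d) ∨ le (rev c) d ∨ le (rev c) (rev d)
  H_a : ∀ c y, C.a y ∈ H c ↔ y ∈ H c
  H_b : ∀ c y, C.b y ∈ H c ↔ y ∈ H c
  H_rev : ∀ c, H (rev c) = (H c)ᶜ
  H_mono : ∀ c d, le c d → H c ⊆ H d
  vis_fin : ∀ c, (vis c).Finite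
  vis_rev : ∀ c, vis (rev c) = vis c
  bd : ∀ c y, ¬ (C.r y ∈ H c ↔ y ∈ H c) → C.r y ∈ vis c
  small : ∀ c, ∀ y ∈ vis c, ∀ y' ∈ vis c, PF.Dle M K1 (dv.f y) (dv.f y')
  miss : ∀ c y0 B, C.ArcPot y0 B → (H c ∩ B).Nonempty → (H c ∩ Bᶜ).Nonempty →
    ((H c)ᶜ ∩ B).Nonempty → ((H c)ᶜ ∩ Bᶜ).Nonempty → ∃ y ∈ vis c, C.SameArc y0 y
  complete : ∀ y y' B B', ¬ PF.Dle M K2 (dv.f y) (dv.f y') → C.ArcPot y B → C.ArcPot y' B' →
    ∃ c : Tr, (B ⊆ H c ∨ Bᶜ ⊆ H c) ∧ (B' ⊆ (H c)ᶜ ∨ B'ᶜ ⊆ (H c)ᶜ)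
  g_rev : ∀ (g : C.deck) (c : Tr), g • rev c = rev (g • c)
  g_le : ∀ (g : C.deck) (c d : Tr), le c d → le (g • c) (g • d)
  g_H : ∀ (g : C.deck) (c : Tr) (y : C.Y), g.1 y ∈ H (g • c) ↔ y ∈ H c
  g_vis : ∀ (g : C.deck) (c : Tr) (y : C.Y), g.1 y ∈ vis (g • c) ↔ y ∈ vis c
  free : ∀ (g : C.deck) (c : Tr), g • c = c → g = 1
  noinv : ∀ (g : C.deck) (c : Tr), g • c ≠ rev c
  orb : ∃ T : Finset Tr, ∀ c : Tr, ∃ g : C.deck, g • c ∈ T

/-- **C1.** `K1`, `K2` depend only on `K`, `N` on `K` and `s`. -/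
def Stmt_TRK : Prop := ∀ K : ℕ, ∃ K1 K2 : ℕ, ∀ s : ℕ, ∃ N : ℕ, ∀ Mo : Model, Mo.Fine s N →
  ∀ (h : ℕ) (Λ : Type) (l : Lab Mo h Λ), 0 < h → l.Small K → ∀ C : Cov Mo, C.Univ →
    ∀ (q0 : Mo.Q) (dv : Dev C (Mo.pmu q0)), (∀ y, C.p y = (Mo.L.r q0 (dv.f y).1, (dv.f y).2)) →
      Nonempty (Tracks C dv K1 K2)

/-! ## blocks about coverings only -/

/-- joined by at most `n` elementary moves -/
def Cov.Near (C : Cov Mo) : ℕ → C.Y → C.Y → Prop
  | 0, y, y' => y = y'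
  | n + 1, y, y' => ∃ z, C.Near n y z ∧ (z = y' ∨ C.Elem z y')

/-- bound for the number of elementary moves along an arc: `SameArc y y' → Near (M0 s) y y'` -/
def M0 (s : ℕ) : ℕ := 12 * (2 * s + 2)

/-- **LFIN** (30 lines). Balls for the elementary moves are finite. -/
def Stmt_LFIN : Prop := ∀ (Mo : Model) (C : Cov Mo) (n : ℕ) (y : C.Y), {y' | C.Near n y y'}.Finite

/-- **LARC** (120 lines). Every flag of the arc of `y` is reached by at most `M0 s` elementary moves. Proof: `F y := a (m y)`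
(`p (F^[k] y) = lstep^[k] (p y)`); let `n`, `n'` be the least numbers with `F^[n] y`, `F^[n'] (a y)` over `D` (`< 2 s`).  The
set `{F^[k] y, k ≤ n} ∪ {m F^[k] y, k < n} ∪ {F^[k] (a y), k ≤ n'} ∪ {m F^[k] (a y), k < n'}` contains `y` and is closed under
`a` and (over the complement of `D`) under `m`, which are involutions; one `F` costs at most 12 moves. -/
def Stmt_LARC : Prop := ∀ (Mo : Model) (s N : ℕ), Mo.Fine s N → ∀ (C : Cov Mo) (y y' : C.Y),
  C.SameArc y y' → C.Near (M0 s) y y'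

/-- **LLIFT** (60 lines). Coarse paths of the base lift to every covering. (`SameArc`: prove by `EqvGen` induction both
directions at once: every flag over `y` is `SameArc` to one over `y'` and conversely.) -/
def Stmt_LLIFT : Prop := ∀ (Mo : Model) (C : Cov Mo) (K : ℕ) (z : C.Y) (y' : Mo.F),
  Mo.base.Dle K (C.p z) y' → ∃ z', C.p z' = y' ∧ C.Dle K z z'

/-- **LIFT** (60 lines, deps LARC, LLIFT, plane_inj). Two flags of the plane which are not too far from each other and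
over `K`-close flags of the base are `K`-close. Proof: lift the chain from `z` (LLIFT), its end `z''` is over `p z'` and
`Near (K * M0 s) z z''` (LARC, `1 ≤ M0 s`), so `Near (2 * K * M0 s + 3) z' z''`, so `z' = z''` (`plane_inj`). -/
def Stmt_LIFT : Prop := ∀ (Mo : Model) (s N K : ℕ), Mo.Fine s N → 2 * K * M0 s + 3 ≤ N →
  ∀ (q0 : Mo.Q) (z z' : (Mo.plane q0).Y), (Mo.plane q0).Near (K * M0 s + 3) z z' →
    Mo.base.Dle K ((Mo.plane q0).p z) ((Mo.plane q0).p z') →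
      (Mo.plane q0).Dle K z z' ∧ (Mo.plane q0).Near (K * M0 s) z z'

/-- **EXIT** (150 lines). `S` a finite set of corners of the plane, `V` a set containing all `r y` with exactly one of
`y`, `r y` in `S`, and `V` has diameter at most `K`: then every `y ∈ S` is close to `V`. Proof: let `m ≥ 1` be least with
`t^m y ∉ S`, `n ≥ 1` least with `t^(-n) y ∉ S` (`plane_t_inj`, `S` finite). `t = c . b` with `c = r a r⁻¹`; `S` is closed under `a`, `b`,
so one of `b t^(m-1) y`, `t^m y` is in `V` and one of `t^(-(n-1)) y`, `c t^(-(n-1)) y` is in `V`; `b`, `c` cost 3 steps, so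
`Dle (K + 12) (t^(-n) y) (t^m y)`, so `2 (m + n) ≤ 3 K + 37` by `plane_t_le`, and `y` is joined to `t^m y` by `6 m` steps. -/
def Stmt_EXIT : Prop := ∀ (Mo : Model) (q0 : Mo.Q) (K : ℕ) (S V : Set (Mo.plane q0).Y), S.Finite →
  (∀ y, (Mo.plane q0).a y ∈ S ↔ y ∈ S) → (∀ y, (Mo.plane q0).b y ∈ S ↔ y ∈ S) →
  (∀ y, ¬ ((Mo.plane q0).r y ∈ S ↔ y ∈ S) → (Mo.plane q0).r y ∈ V) →
  (∀ v ∈ V, ∀ v' ∈ V, (Mo.plane q0).Dle K v v') →
  ∀ y ∈ S, ∃ v ∈ V, (Mo.plane q0).Dle (9 * K + 150) y v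

end Pool.CX
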