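import Pool.Agent.Work.MP_727c87_cx.C1.FineCx
import Pool.Agent.Work.MP_727c87_cx.C1.Out

set_option autoImplicit false

/-! # MP_727c87, part C1: arcs as sets of vertices of the fine complex; the miss property -/

namespace Pool.CX

open Relation

variable {Mo : Model} {C : Cov Mo} {h : ℕ} {Λ : Type} {l : Lab Mo h Λ}

/-- the vertices on the arc of `y0` (which runs through the centres of the chambers) -/
def ArcV (C : Cov Mo) (h : ℕ) (y0 : C.Y) : Set (Vx C h) :=
  {x | ∃ z : Vx C h, C.SameArc y0 z.y ∧ z.j = 0 ∧ Same C h z x}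

theorem ArcV.same {y0 : C.Y} {x x' : Vx C h} (hx : x ∈ ArcV C h y0) (H : Same C h x x') :
    x' ∈ ArcV C h y0 := by
  obtain ⟨z, h1, h2, h3⟩ := hx
  exact ⟨z, h1, h2, h3.trans H⟩

theorem ArcV.of {y0 : C.Y} {z : Vx C h} (h1 : C.SameArc y0 z.y) (h2 : z.j = 0) : z ∈ ArcV C h y0 :=
  ⟨z, h1, h2, Same.refl z⟩

theorem mid_mem {y0 y : C.Y} (h1 : C.SameArc y0 y) : fmid y ∈ ArcV C h y0 := ArcV.of h1 rfl

/-- glued or joined by a germ of a kite of a flag of the arc, both ends on the arc -/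
def ArcR (C : Cov Mo) (h : ℕ) (y0 : C.Y) (u v : Vx C h) : Prop :=
  (Same C h u v ∨ ∃ g : Gm C h, C.SameArc y0 g.y ∧ g.s = u ∧ g.t = v) ∧
    u ∈ ArcV C h y0 ∧ v ∈ ArcV C h y0

theorem ArcR.symm {y0 : C.Y} {u v : Vx C h} (H : ArcR C h y0 u v) : ArcR C h y0 v u := by
  obtain ⟨h1, h2, h3⟩ := H
  refine ⟨?_, h3, h2⟩
  rcases h1 with h1 | ⟨g, k1, k2, k3⟩
  · exact Or.inl h1.symm
  · exact Or.inr ⟨g.rev, k1, by rw [Gm.s_rev, k3], by rw [Gm.t_rev, k2]⟩

theorem arcR_symm {y0 : C.Y} {u v : Vx C h} (H : ReflTransGen (ArcR C h y0) u v) :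
    ReflTransGen (ArcR C h y0) v u := by
  induction H with
  | refl => exact ReflTransGen.refl
  | tail _ h2 ih => exact ReflTransGen.head h2.symm ih

/-- along the ray to the middle of the side -/
theorem ray_conn {y0 z : C.Y} (hz : C.SameArc y0 z) (hD : (C.p z).1 ∉ Mo.D) (hh : 0 < h) (n : ℕ) :
    ∀ (i : ℕ) (_ : i + n = h) (v : C.Val h z i 0),
      ReflTransGen (ArcR C h y0) ⟨z, i, 0, v⟩ (fmid z) := by
  induction n with
  | zero =>
    intro i hi v
    have : i = h := by omega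
    subst this
    exact ReflTransGen.refl
  | succ n ih =>
    intro i hi v
    have v' : C.Val h z (i + 1) 0 := ⟨by omega, by omega, Or.inl hD⟩
    have hg : ArcR C h y0 ⟨z, i, 0, v⟩ ⟨z, i + 1, 0, v'⟩ := by
      refine ⟨Or.inr ⟨⟨z, false, i, 0, 0, false, by omega, hh, Or.inl hD⟩, hz, ?_, ?_⟩,
        ArcV.of hz rfl, ArcV.of hz rfl⟩
      · refine Vx.ext rfl ?_ ?_ <;> simp [Gm.s, Gm.tl, ptc, Gm.en0]
      · refine Vx.ext rfl ?_ ?_ <;> simp [Gm.t, Gm.hd, ptc, Gm.en1]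
    exact ReflTransGen.head hg (ih (i + 1) (by omega) v')

/-- the centre -/
def cen (z : C.Y) (hD : (C.p z).1 ∉ Mo.D) : Vx C h :=
  ⟨z, 0, 0, Nat.zero_le _, Nat.zero_le _, Or.inl hD⟩

theorem cen_pow (z : C.Y) (hD : (C.p z).1 ∉ Mo.D) (k : ℕ) :
    Same C h (cen z hD) (cen ((C.r ^ k) z) (by rw [C.p_pow_fst]; exact hD)) := by
  induction k with
  | zero => exact Same.of_eq rfl rfl rfl
  | succ k ih =>
    refine ih.trans (Same.ray rfl rfl rfl ?_)
    change (C.r ^ (k + 1)) z = C.r ((C.r ^ k) z)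
    rw [pow_succ', Equiv.Perm.mul_apply]

theorem cen_m (z : C.Y) (hD : (C.p z).1 ∉ Mo.D) :
    Same C h (cen z hD) (cen (C.m z) (by rw [C.m_fst]; exact hD)) := cen_pow z hD _

/-- the middles of the sides of an arc are joined along the arc -/
theorem mid_conn {y0 z z' : C.Y} (hh : 0 < h) (H : C.SameArc z z') (hz : C.SameArc y0 z) :
    ReflTransGen (ArcR C h y0) (fmid z) (fmid z') := by
  have H' : Relation.EqvGen (fun y y' => y' = C.a y ∨ ((C.p y).1 ∉ Mo.D ∧ y' = C.m y)) z z' := H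
  clear H
  induction H' with
  | rel u v huv =>
    rcases huv with rfl | ⟨hD, rfl⟩
    · exact ReflTransGen.single ⟨Or.inl (Same.side rfl rfl rfl rfl), mid_mem hz,
        mid_mem (hz.trans (C.sameArc_a u))⟩
    · have hD' : (C.p (C.m u)).1 ∉ Mo.D := by rw [C.m_fst]; exact hD
      have hz' : C.SameArc y0 (C.m u) := hz.trans (C.sameArc_m u hD)
      refine (arcR_symm (ray_conn hz hD hh h 0 (by omega)
        ⟨Nat.zero_le _, Nat.zero_le _, Or.inl hD⟩)).trans ?_
      refine ReflTransGen.head (b := cen (C.m u) hD') ⟨Or.inl (cen_m u hD), ArcV.of hz rfl,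
        ArcV.of hz' rfl⟩ ?_
      exact ray_conn hz' hD' hh h 0 (by omega) ⟨Nat.zero_le _, Nat.zero_le _, Or.inl hD'⟩
  | refl _ => exact ReflTransGen.refl
  | symm u v huv ih =>
    have h1 : C.SameArc u v := huv
    exact arcR_symm (ih (hz.trans h1.symm))
  | trans u v w huv hvw ih1 ih2 =>
    have h1 : C.SameArc u v := huv
    exact (ih1 hz).trans (ih2 (hz.trans h1))

/-- arcs are connected -/
theorem arc_conn {y0 : C.Y} (hh : 0 < h) {x x' : Vx C h} (hx : x ∈ ArcV C h y0)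
    (hx' : x' ∈ ArcV C h y0) : ReflTransGen (ArcR C h y0) x x' := by
  have key : ∀ x : Vx C h, x ∈ ArcV C h y0 → ReflTransGen (ArcR C h y0) x (fmid y0) := by
    rintro x ⟨z, h1, h2, h3⟩
    have hz : z ∈ ArcV C h y0 := ArcV.of h1 h2
    refine ReflTransGen.head (b := z) ⟨Or.inl h3.symm, ArcV.same hz h3, hz⟩ ?_
    have h4 : ReflTransGen (ArcR C h y0) z (fmid z.y) := by
      obtain ⟨y, i, j, v⟩ := z
      simp only at h1 h2
      subst h2
      by_cases hD : (C.p y).1 ∉ Mo.D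
      · have hi : i ≤ h := v.1
        exact ray_conn h1 hD hh (h - i) i (by omega) v
      · have hi : i = h := by
          rcases v.2.2 with hv | hv | hv
          · exact absurd hv hD
          · exact hv
          · omega
        subst hi
        exact ReflTransGen.refl
    exact h4.trans (mid_conn hh h1.symm h1)
  exact (key x hx).trans (arcR_symm (key x' hx'))

/-- the side of an arc is constant on the glueings off the arc -/
theorem arc_side {y0 : C.Y} {B : Set C.Y} (hB : C.ArcPot y0 B) {x x' : Vx C h}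
    (H : Same C h x x') (hx : x ∉ ArcV C h y0) : x.y ∈ B ↔ x'.y ∈ B := by
  have H' : Relation.EqvGen (Gl C h) x x' := H
  clear H
  induction H' with
  | rel u v huv =>
    cases huv with
    | ray y i v w =>
      have hna : ¬ C.SameArc y0 (C.r y) := by
        intro hs
        apply hx
        have h1 : (⟨C.r y, i, 0, w⟩ : Vx C h) ∈ ArcV C h y0 := ArcV.of hs rfl
        exact ArcV.same h1 (Same.symm (Same.ray rfl rfl rfl rfl))
      exact ((hB.r y).2 hna).symm
    | side y j v w => exact (hB.a y).symm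
    | side' y i v w => exact (hB.b y).symm
  | refl _ => exact Iff.rfl
  | symm u v huv ih =>
    have h1 : Same C h u v := huv
    exact (ih (fun hu => hx (ArcV.same hu h1))).symm
  | trans u v w huv hvw ih1 ih2 =>
    have h1 : Same C h u v := huv
    exact (ih1 hx).trans (ih2 (fun hv => hx (ArcV.same hv h1.symm)))

/-- **half plane lemma**: a side of a track which avoids the arc is on one side of the arc -/
theorem half_plane {y0 : C.Y} {B : Set C.Y} (hB : C.ArcPot y0 B) (c : (fineCx C h l).Tr)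
    (hav : ∀ x ∈ GCx.H c, x ∉ ArcV C h y0) : Hc c ⊆ B ∨ Hc c ⊆ Bᶜ := by
  obtain ⟨b0, hb0⟩ := GCx.exists_rep c
  have key : ∀ x : Vx C h, ReflTransGen (GCx.Av c) ((fineCx C h l).t b0.1) x →
      x ∈ GCx.H c ∧ (((fineCx C h l).t b0.1).y ∈ B ↔ x.y ∈ B) := by
    intro x hx
    induction hx with
    | refl => exact ⟨GCx.head_mem hb0, Iff.rfl⟩
    | @tail u v _ h2 ih =>
      refine ⟨GCx.mem_of_av h2 ih.1, ih.2.trans ?_⟩
      rcases h2 with h2 | ⟨g, h3, h4, -⟩
      · exact arc_side hB h2 (hav u ih.1)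
      · have h5 : u.y = g.y := by rw [← h3]; rfl
        have h6 : v.y = g.y := by rw [← h4]; rfl
        rw [h5, h6]
  have h1 : ∀ y ∈ Hc c, (((fineCx C h l).t b0.1).y ∈ B ↔ y ∈ B) := fun y hy =>
    (key (cor y) (GCx.H_conn (GCx.head_mem hb0) hy)).2
  by_cases hB0 : ((fineCx C h l).t b0.1).y ∈ B
  · exact Or.inl fun y hy => (h1 y hy).1 hB0
  · exact Or.inr fun y hy => fun hyB => hB0 ((h1 y hy).2 hyB)

theorem Hc_rev (hC : C.Conn) {c : (fineCx C h l).Tr} (hc : GCx.HasSide c) : Hc c.rev = (Hc c)ᶜ := by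
  ext y
  change cor y ∈ GCx.H c.rev ↔ _
  rw [GCx.H_rev (fine_conn hC) hc]
  rfl

/-- **the miss property** -/
theorem miss_aux (hh : 0 < h) (hC : C.Conn) (c : (fineCx C h l).Tr) (hc : GCx.HasSide c)
    {y0 : C.Y} {B : Set C.Y} (hB : C.ArcPot y0 B) (h1 : (Hc c ∩ B).Nonempty)
    (h2 : (Hc c ∩ Bᶜ).Nonempty) (h3 : ((Hc c)ᶜ ∩ B).Nonempty) (h4 : ((Hc c)ᶜ ∩ Bᶜ).Nonempty) :
    ∃ y ∈ vis c, C.SameArc y0 y := by
  by_contra hcon
  have hno : ∀ g : Gm C h, C.SameArc y0 g.y → ¬ GCx.On c g := fun g hg hon =>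
    hcon ⟨g.y, ⟨g, hon, Or.inl rfl⟩, hg⟩
  have hconst : ∀ x x' : Vx C h, x ∈ ArcV C h y0 → x' ∈ ArcV C h y0 →
      (x ∈ GCx.H c ↔ x' ∈ GCx.H c) := by
    intro x x' hx hx'
    have h5 := arc_conn hh hx hx'
    clear hx hx'
    induction h5 with
    | refl => exact Iff.rfl
    | tail _ h6 ih =>
      refine ih.trans (GCx.mem_iff_of_av ?_)
      rcases h6.1 with h7 | ⟨g, h7, h8, h9⟩
      · exact Or.inl h7
      · exact Or.inr ⟨g, h8, h9, hno g h7⟩
  have hR := Hc_rev hC hc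
  by_cases hm : fmid y0 ∈ GCx.H c
  · have hav : ∀ x ∈ GCx.H c.rev, x ∉ ArcV C h y0 := by
      intro x hx hxA
      rw [GCx.H_rev (fine_conn hC) hc] at hx
      exact hx ((hconst _ _ (mid_mem (Cov.SameArc.refl C y0)) hxA).1 hm)
    rcases half_plane hB c.rev hav with h5 | h5
    · rw [hR] at h5
      obtain ⟨y, hy1, hy2⟩ := h4
      exact hy2 (h5 hy1)
    · rw [hR] at h5
      obtain ⟨y, hy1, hy2⟩ := h3
      exact h5 hy1 hy2
  · have hav : ∀ x ∈ GCx.H c, x ∉ ArcV C h y0 := by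
      intro x hx hxA
      exact hm ((hconst _ _ (mid_mem (Cov.SameArc.refl C y0)) hxA).2 hx)
    rcases half_plane hB c hav with h5 | h5
    · obtain ⟨y, hy1, hy2⟩ := h2
      exact hy2 (h5 hy1)
    · obtain ⟨y, hy1, hy2⟩ := h1
      exact h5 hy1 hy2

/-- a track separating two arcs (as vertex sets) separates half planes -/
theorem complete_aux (hC : C.Conn) (c : (fineCx C h l).Tr) (hc : GCx.HasSide c)
    {y y' : C.Y} {B B' : Set C.Y} (hB : C.ArcPot y B) (hB' : C.ArcPot y' B')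
    (h1 : ArcV C h y ⊆ (GCx.H c)ᶜ) (h2 : ArcV C h y' ⊆ GCx.H c) :
    (B ⊆ Hc c.rev ∨ Bᶜ ⊆ Hc c.rev) ∧ (B' ⊆ (Hc c.rev)ᶜ ∨ B'ᶜ ⊆ (Hc c.rev)ᶜ) := by
  have hR := Hc_rev hC hc
  constructor
  · rw [hR]
    rcases half_plane hB c (fun x hx hxA => h1 hxA hx) with h3 | h3
    · right
      exact Set.compl_subset_compl.2 h3
    · left
      intro z hz hz'
      exact h3 hz' hz
  · rw [hR, compl_compl]
    have hav : ∀ x ∈ GCx.H c.rev, x ∉ ArcV C h y' := by
      intro x hx hxA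
      rw [GCx.H_rev (fine_conn hC) hc] at hx
      exact hx (h2 hxA)
    rcases half_plane hB' c.rev hav with h3 | h3
    · right
      rw [hR] at h3
      intro z hz
      by_contra hz'
      exact hz (h3 hz')
    · left
      rw [hR] at h3
      intro z hz
      by_contra hz'
      exact h3 hz' hz

end Pool.CX
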