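import Pool.Agent.Work.MP_727c87_cx.C1.Inst
import Pool.Agent.Work.MP_727c87_cx.LemmaPFlags

set_option autoImplicit false

/-!
# Reduction of paths, maps of labelled complexes (MP_727c87_gt, part C1, abstract)
-/

namespace Pool.CX

namespace GCx

variable {V V' L : Type} {X : GCx V L} {X' : GCx V' L}

/-- a path can be replaced by one which crosses every track at most once -/
theorem Pth.reduce {K : List X.Tr} {a b : V} (h : Pth K a b) :
    ∃ K' : List X.Tr, Pth K' a b ∧ (∀ c ∈ K', c ∈ K) ∧ K'.Pairwise Ne2 := by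
  classical
  have hex : ∃ n : ℕ, ∃ K' : List X.Tr, Pth K' a b ∧ (∀ c ∈ K', c ∈ K) ∧ K'.length = n :=
    ⟨_, K, h, fun _ hc => hc, rfl⟩
  obtain ⟨K', h1, h2, h3⟩ := Nat.find_spec hex
  have hmin := fun m => Nat.find_min hex (m := m)
  refine ⟨K', h1, h2, ?_⟩
  by_contra hnp
  obtain ⟨K1, c, K2, c', K3, h4, h5⟩ := not_pairwise Ne2 K' hnp
  obtain ⟨e, he, hp1, hp2⟩ := h1.split K1 (K2 ++ c' :: K3) c h4
  obtain ⟨f, hf, _, hp4⟩ := hp2.split K2 K3 c' rfl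
  have hlen : K'.length = K1.length + 1 + K2.length + 1 + K3.length := by
    rw [h4]
    simp
    omega
  have hcc : c' = c ∨ c' = c.rev := by
    by_contra hcon
    push Not at hcon
    exact h5 ⟨hcon.1, hcon.2⟩
  rcases hcc with hcc | hcc
  · have hreg : X.Reg (X.s e.1) (X.s f.1) := (reg_of_cls_eq (he.trans (by rw [hf, hcc]))).1
    have hpath : Pth ((K1 ++ [cls f]) ++ K3) a b :=
      (Pth.cross f (hp1.trans_reg hreg)).trans hp4
    refine hmin (K1.length + 1 + K3.length) ?_ ⟨_, hpath, ?_, by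
      rw [List.length_append, List.length_append, List.length_singleton]⟩
    · rw [← h3, hlen]
      omega
    · intro d hd
      apply h2 d
      rw [h4]
      rw [hf] at hd
      simp only [List.mem_append, List.mem_cons, List.not_mem_nil, or_false] at hd ⊢
      tauto
  · have hf' : cls f.rev = c := by rw [← rev_cls, hf, hcc, Tr.rev_rev]
    have hreg : X.Reg (X.s e.1) (X.t f.1) := by
      have := (reg_of_cls_eq (he.trans hf'.symm)).1
      have h6 : X.s f.rev.1 = X.t f.1 := X.s_rev _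
      rwa [h6] at this
    have hpath : Pth (K1 ++ K3) a b := (hp1.trans_reg hreg).trans hp4
    refine hmin (K1.length + K3.length) ?_ ⟨_, hpath, ?_, by simp⟩
    · rw [← h3, hlen]
      omega
    · intro d hd
      apply h2 d
      rw [h4]
      simp only [List.mem_append, List.mem_cons] at hd ⊢
      tauto

/-- map of labelled complexes -/
structure GMap (X : GCx V L) (X' : GCx V' L) where
  fv : V → V'
  fg : X.Gm → X'.Gm
  s_fg : ∀ g, X'.s (fg g) = fv (X.s g)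
  rev_fg : ∀ g, fg (X.rev g) = X'.rev (fg g)
  op_fg : ∀ g, fg (X.op g) = X'.op (fg g)
  hole_fg : ∀ g, X'.hole (fg g) ↔ X.hole g
  nx_fg : ∀ g, ¬ X.hole g → fg (X.nx g) = X'.nx (fg g)
  l_fv : ∀ x, X'.l (fv x) = X.l x
  same_fv : ∀ x y, X.same x y → X'.same (fv x) (fv y)

namespace GMap

variable (φ : GMap X X')

theorem t_fg (g : X.Gm) : X'.t (φ.fg g) = φ.fv (X.t g) := by
  rw [← X'.s_rev, ← φ.rev_fg, φ.s_fg, X.s_rev]

theorem turn_fg (g : X.Gm) : φ.fg (X.turn g) = X'.turn (φ.fg g) := by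
  by_cases h : X.hole g
  · rw [turn_hole h, turn_hole ((φ.hole_fg g).2 h)]
  have h0 : ¬ X'.hole (φ.fg g) := fun h' => h ((φ.hole_fg g).1 h')
  have h1 : X'.l (X'.t (X'.nx (φ.fg g))) = X.l (X.t (X.nx g)) := by
    rw [← φ.nx_fg g h, φ.t_fg, φ.l_fv]
  by_cases hA : X.l (X.t (X.nx g)) = X.l (X.s g)
  · rw [turn_A h hA, turn_A h0 (by rw [h1, φ.s_fg, φ.l_fv, hA]), φ.rev_fg, φ.nx_fg g h]
  · rw [turn_B h hA, turn_B h0 (by rw [h1, φ.s_fg, φ.l_fv]; exact hA), φ.rev_fg,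
      φ.nx_fg _ (nh_nx h), φ.nx_fg g h]

theorem bi_fg {g : X.Gm} : X'.Bi (φ.fg g) ↔ X.Bi g := by
  unfold Bi
  rw [φ.s_fg, φ.t_fg, φ.l_fv, φ.l_fv]

/-- on two-coloured germs -/
def bg (b : X.BG) : X'.BG := ⟨φ.fg b.1, φ.bi_fg.2 b.2⟩

theorem bg_rev (b : X.BG) : φ.bg b.rev = (φ.bg b).rev := BG.ext (φ.rev_fg _)
theorem bg_op (b : X.BG) : φ.bg b.op = (φ.bg b).op := BG.ext (φ.op_fg _)
theorem bg_turn (b : X.BG) : φ.bg b.turn = (φ.bg b).turn := BG.ext (φ.turn_fg _)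

theorem bg_step {b b' : X.BG} (h : X.TS b b') : X'.TS (φ.bg b) (φ.bg b') := by
  rcases h with rfl | rfl
  · exact Or.inl (φ.bg_op _)
  · exact Or.inr (φ.bg_turn _)

/-- image of a track -/
def tr (c : X.Tr) : X'.Tr := Quot.map φ.bg (fun _ _ h => φ.bg_step h) c

theorem tr_cls (b : X.BG) : φ.tr (cls b) = cls (φ.bg b) := rfl

theorem tr_rev (c : X.Tr) : φ.tr c.rev = (φ.tr c).rev := by
  obtain ⟨b, rfl⟩ := exists_rep c
  rw [rev_cls, tr_cls, tr_cls, rev_cls, bg_rev]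

theorem tr_tl (c : X.Tr) : (φ.tr c).tl = c.tl := by
  obtain ⟨b, rfl⟩ := exists_rep c
  rw [tr_cls, tl_cls, tl_cls]
  exact (congrArg X'.l (φ.s_fg _)).trans (φ.l_fv _)

theorem tr_hl (c : X.Tr) : (φ.tr c).hl = c.hl := by
  rw [← Tr.rev_tl, ← φ.tr_rev, φ.tr_tl, Tr.rev_tl]

theorem Ne2_tr {c c' : X.Tr} (h : Ne2 (φ.tr c) (φ.tr c')) : Ne2 c c' := by
  refine ⟨fun h1 => h.1 (by rw [h1]), fun h1 => h.2 (by rw [h1, φ.tr_rev])⟩

/-- germs of the image track lift into the track -/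
theorem exists_lift {c : X.Tr} {b0 : X'.BG} (h : cls b0 = φ.tr c) :
    ∃ b' : X.BG, cls b' = c ∧ φ.bg b' = b0 := by
  obtain ⟨b, rfl⟩ := exists_rep c
  have key : ∀ b1 b2 : X'.BG, Relation.EqvGen X'.TS b1 b2 →
      ((∃ b' : X.BG, cls b' = cls b ∧ φ.bg b' = b1) ↔
        ∃ b' : X.BG, cls b' = cls b ∧ φ.bg b' = b2) := by
    intro b1 b2 h
    induction h with
    | rel b1 b2 h =>
      rcases h with rfl | rfl
      · constructor
        · rintro ⟨b', h1, rfl⟩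
          exact ⟨b'.op, by rw [cls_op, h1], φ.bg_op _⟩
        · rintro ⟨b', h1, h2⟩
          refine ⟨b'.op, by rw [cls_op, h1], ?_⟩
          rw [← b1.op_op, ← h2]
          exact φ.bg_op _
      · constructor
        · rintro ⟨b', h1, rfl⟩
          exact ⟨b'.turn, by rw [cls_turn, h1], φ.bg_turn _⟩
        · rintro ⟨b', h1, h2⟩
          refine ⟨b'.turn, by rw [cls_turn, h1], ?_⟩
          rw [← b1.turn_turn, ← h2]
          exact φ.bg_turn _
    | refl _ => exact Iff.rfl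
    | symm _ _ _ ih => exact ih.symm
    | trans _ _ _ _ _ ih1 ih2 => exact ih1.trans ih2
  exact (key _ _ (Quot.eqvGen_exact h)).2 ⟨b, rfl, rfl⟩

theorem on_tr {c : X.Tr} {g : X.Gm} (h : On c g) : On (φ.tr c) (φ.fg g) := by
  obtain ⟨b, rfl, h2⟩ := h
  refine ⟨φ.bg b, rfl, ?_⟩
  rw [← tr_cls, ← tr_rev]
  rcases h2 with h2 | h2
  · exact Or.inl (by rw [h2])
  · exact Or.inr (by rw [h2])

theorem on_lift {c : X.Tr} {g0 : X'.Gm} (h : On (φ.tr c) g0) : ∃ g, φ.fg g = g0 ∧ On c g := by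
  obtain ⟨b0, rfl, h2⟩ := h
  rcases h2 with h2 | h2
  · obtain ⟨b', h3, h4⟩ := φ.exists_lift h2
    exact ⟨b'.1, congrArg Subtype.val h4, b', rfl, Or.inl h3⟩
  · rw [← tr_rev] at h2
    obtain ⟨b', h3, h4⟩ := φ.exists_lift h2
    exact ⟨b'.1, congrArg Subtype.val h4, b', rfl, Or.inr h3⟩

/-- arc tracks correspond -/
theorem isArc_tr {c : X.Tr} : IsArc (φ.tr c) ↔ IsArc c := by
  constructor
  · rintro ⟨b0, h1, h2⟩
    obtain ⟨b', h3, rfl⟩ := φ.exists_lift h1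
    exact ⟨b', h3, (φ.hole_fg _).1 h2⟩
  · rintro ⟨b, rfl, h2⟩
    exact ⟨φ.bg b, rfl, (φ.hole_fg _).2 h2⟩

theorem mono_fv {x y : V} (h : X.Mono x y) : X'.Mono (φ.fv x) (φ.fv y) := by
  rcases h with h | ⟨g, rfl, rfl, h3⟩
  · exact Or.inl (φ.same_fv _ _ h)
  · exact Or.inr ⟨φ.fg g, φ.s_fg g, φ.t_fg g, by rw [φ.l_fv, φ.l_fv, h3]⟩

theorem reg_fv {x y : V} (h : X.Reg x y) : X'.Reg (φ.fv x) (φ.fv y) := by
  induction h with
  | refl => exact Relation.ReflTransGen.refl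
  | tail _ h2 ih => exact ih.tail (φ.mono_fv h2)

theorem adj_fv {x y : V} (h : X.Adj x y) : X'.Adj (φ.fv x) (φ.fv y) := by
  rcases h with h | ⟨g, rfl, rfl⟩
  · exact Or.inl (φ.same_fv _ _ h)
  · exact Or.inr ⟨φ.fg g, φ.s_fg g, φ.t_fg g⟩

/-- image of a path -/
theorem pth_fv {K : List X.Tr} {x y : V} (h : Pth K x y) :
    Pth (K.map φ.tr) (φ.fv x) (φ.fv y) := by
  induction h with
  | nil x => exact Pth.nil _
  | mono _ h2 ih => exact Pth.mono ih (φ.mono_fv h2)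
  | cross e _ ih =>
    rw [List.map_append, List.map_singleton, φ.tr_cls]
    have h1 : X'.s (φ.bg e).1 = φ.fv (X.s e.1) := φ.s_fg _
    have h2 : X'.t (φ.bg e).1 = φ.fv (X.t e.1) := φ.t_fg _
    rw [← h1] at ih
    rw [← h2]
    exact Pth.cross (φ.bg e) ih

theorem reg_of_cls {b b' : X.BG} (h : cls b = cls b') :
    X'.Reg (φ.fv (X.s b.1)) (φ.fv (X.s b'.1)) := φ.reg_fv (reg_of_cls_eq h).1

end GMap

end GCx

variable {Mo : Model} {Λ : Type}

/-- a morphism of coverings as a map of labelled complexes -/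
noncomputable def CMor.gmap {C C' : Cov Mo} (φ : CMor C C') {h : ℕ} (l : Lab Mo h Λ) :
    GCx.GMap (fineCx C h l) (fineCx C' h l) where
  fv := φ.vx
  fg := φ.gm
  s_fg _ := rfl
  rev_fg _ := rfl
  op_fg := φ.op_gm
  hole_fg := φ.hole_gm
  nx_fg := φ.nx'_gm
  l_fv x := φ.lab_vx l x
  same_fv _ _ := φ.same_vx

@[simp] theorem CMor.gmap_fv {C C' : Cov Mo} (φ : CMor C C') {h : ℕ} (l : Lab Mo h Λ)
    (x : Vx C h) : (φ.gmap l).fv x = φ.vx x := rfl

@[simp] theorem CMor.gmap_fg {C C' : Cov Mo} (φ : CMor C C') {h : ℕ} (l : Lab Mo h Λ)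
    (g : Gm C h) : (φ.gmap l).fg g = φ.gm g := rfl

/-- composition with the projection -/
theorem CMor.toBase_gm {C C' : Cov Mo} (φ : CMor C C') {h : ℕ} (g : Gm C h) :
    C'.toBase.gm (φ.gm g) = C.toBase.gm g := Gm.ext' (φ.p _) rfl rfl rfl rfl rfl

theorem CMor.toBase_vx {C C' : Cov Mo} (φ : CMor C C') {h : ℕ} (x : Vx C h) :
    C'.toBase.vx (φ.vx x) = C.toBase.vx x := Vx.ext (φ.p _) rfl rfl

theorem CMor.toBase_tr {C C' : Cov Mo} (φ : CMor C C') {h : ℕ} (l : Lab Mo h Λ)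
    (c : (fineCx C h l).Tr) : (C'.toBase.gmap l).tr ((φ.gmap l).tr c) = (C.toBase.gmap l).tr c := by
  obtain ⟨b, rfl⟩ := GCx.exists_rep c
  exact congrArg GCx.cls (GCx.BG.ext (φ.toBase_gm _))

/-- the development as a morphism -/
def Dev.mor {C : Cov Mo} {M : W → ZMod 12 → ZMod 12} (dv : Dev C M) (q0 : Mo.Q)
    (hp : ∀ y, C.p y = (Mo.L.r q0 (dv.f y).1, (dv.f y).2)) : CMor C (Mo.plane q0) where
  f := dv.f
  a := dv.f_a
  r := dv.f_r
  p y := (hp y).symm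

end Pool.CX
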