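import Pool.Agent.Work.MP_727c87_cx.C1.ArcSet
import Pool.Agent.Work.MP_727c87_cx.C1.GMap

set_option autoImplicit false

/-! # MP_727c87, part C1: the plane (small tracks, exit, completeness) -/

namespace Pool.CX

open Relation

variable {Mo : Model}

/-! ### coarse distance: bookkeeping -/

namespace Cov

variable {C : Cov Mo}

theorem Dle.refl (K : ℕ) (y : C.Y) : C.Dle K y y := by
  induction K with
  | zero => exact (rfl : y = y)
  | succ K ih => exact ⟨y, ih, Or.inl rfl⟩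

theorem Dle.trans {K K' : ℕ} {x y z : C.Y} (h1 : C.Dle K x y) (h2 : C.Dle K' y z) :
    C.Dle (K + K') x z := by
  induction K' generalizing z with
  | zero =>
    have h3 : y = z := h2
    rw [← h3]
    exact h1
  | succ K' ih =>
    obtain ⟨u, h3, h4⟩ := h2
    exact ⟨u, ih h3, h4⟩

theorem Dle.mono {K K' : ℕ} (hK : K ≤ K') {x y : C.Y} (h1 : C.Dle K x y) : C.Dle K' x y := by
  obtain ⟨d, rfl⟩ := Nat.exists_eq_add_of_le hK
  exact h1.trans (Dle.refl d y)

theorem Step.symm {x y : C.Y} (h : C.Step x y) : C.Step y x := by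
  rcases h with h | h | h | h
  · exact Or.inl h.symm
  · exact Or.inr (Or.inr (Or.inl h))
  · exact Or.inr (Or.inl h)
  · exact Or.inr (Or.inr (Or.inr h.symm))

theorem Dle.one {x y : C.Y} (h : C.Step x y) : C.Dle 1 x y := ⟨x, (rfl : x = x), h⟩

theorem Dle.symm {K : ℕ} {x y : C.Y} (h : C.Dle K x y) : C.Dle K y x := by
  induction K generalizing y with
  | zero => exact (Eq.symm (h : x = y) : y = x)
  | succ K ih =>
    obtain ⟨u, h3, h4⟩ := h
    have h5 := (Dle.one h4.symm).trans (ih h3)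
    rwa [Nat.add_comm] at h5

theorem Near.refl (n : ℕ) (y : C.Y) : C.Near n y y := by
  induction n with
  | zero => exact (rfl : y = y)
  | succ n ih => exact ⟨y, ih, Or.inl rfl⟩

theorem Near.trans {n n' : ℕ} {x y z : C.Y} (h1 : C.Near n x y) (h2 : C.Near n' y z) :
    C.Near (n + n') x z := by
  induction n' generalizing z with
  | zero =>
    have h3 : y = z := h2
    rw [← h3]
    exact h1
  | succ n' ih =>
    obtain ⟨u, h3, h4⟩ := h2
    exact ⟨u, ih h3, h4⟩

theorem Near.mono {n n' : ℕ} (hn : n ≤ n') {x y : C.Y} (h1 : C.Near n x y) : C.Near n' x y := by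
  obtain ⟨d, rfl⟩ := Nat.exists_eq_add_of_le hn
  exact h1.trans (Near.refl d y)

theorem Near.one {x y : C.Y} (h : C.Elem x y) : C.Near 1 x y := ⟨x, (rfl : x = x), Or.inr h⟩

theorem Near.symm {n : ℕ} {x y : C.Y} (h : C.Near n x y) : C.Near n y x := by
  induction n generalizing y with
  | zero => exact (Eq.symm (h : x = y) : y = x)
  | succ n ih =>
    obtain ⟨u, h3, h4⟩ := h
    have h6 : C.Near 1 y u := by
      rcases h4 with h4 | h4
      · exact ⟨y, (rfl : y = y), Or.inl h4.symm⟩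
      · exact Near.one h4.symm
    have h5 := h6.trans (ih h3)
    rwa [Nat.add_comm] at h5

theorem Near.a (y : C.Y) : C.Near 1 y (C.a y) := Near.one (Or.inl rfl)
theorem Near.r (y : C.Y) : C.Near 1 y (C.r y) := Near.one (Or.inr (Or.inl rfl))
theorem Near.rs (y : C.Y) : C.Near 1 y (C.r.symm y) := Near.one (Or.inr (Or.inr rfl))
theorem Near.b (y : C.Y) : C.Near 3 y (C.b y) :=
  ((Near.r y).trans (Near.a (C.r y))).trans (Near.rs (C.a (C.r y)))

end Cov

/-! ### equal labels nearby -/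

section
variable {h : ℕ} {Λ : Type} {l : Lab Mo h Λ}

theorem Gl.near {C : Cov Mo} {x x' : Vx C h} (H : Gl C h x x') : C.Near 3 x.y x'.y := by
  cases H with
  | ray y i v w => exact (Cov.Near.r y).mono (by omega)
  | side y j v w => exact (Cov.Near.a y).mono (by omega)
  | side' y i v w => exact Cov.Near.b y

/-- glued vertices have flags at bounded distance and equal labels: transport of a property -/
theorem same_transport {C : Cov Mo} (l : Lab Mo h Λ) (Q : Vx C h → Prop)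
    (hQ : ∀ x x' : Vx C h, x.lab l = x'.lab l → C.Near 3 x.y x'.y → Q x → Q x')
    {x x' : Vx C h} (H : Same C h x x') : Q x ↔ Q x' := by
  have H' : Relation.EqvGen (Gl C h) x x' := H
  clear H
  induction H' with
  | rel u v huv =>
    have h1 : u.lab l = v.lab l := Vx.lab_same l (Same.of huv)
    exact ⟨hQ u v h1 huv.near, hQ v u h1.symm huv.near.symm⟩
  | refl _ => exact Iff.rfl
  | symm _ _ _ ih => exact ih.symm
  | trans _ _ _ _ _ ih1 ih2 => exact ih1.trans ih2

theorem reg_transport {C : Cov Mo} (l : Lab Mo h Λ) (Q : Vx C h → Prop)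
    (hQ : ∀ x x' : Vx C h, x.lab l = x'.lab l → C.Near 3 x.y x'.y → Q x → Q x')
    {x x' : Vx C h} (H : (fineCx C h l).Reg x x') : Q x ↔ Q x' := by
  induction H with
  | refl => exact Iff.rfl
  | @tail u v _ h2 ih =>
    refine ih.trans ?_
    rcases h2 with h2 | ⟨g, h3, h4, h5⟩
    · exact same_transport l Q hQ h2
    · have h6 : u.y = g.y := by rw [← h3]; rfl
      have h7 : v.y = g.y := by rw [← h4]; rfl
      have h8 : C.Near 3 u.y v.y := by rw [h6, h7]; exact Cov.Near.refl 3 _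
      have h9 : u.lab l = v.lab l := h5
      exact ⟨hQ u v h9 h8, hQ v u h9.symm h8.symm⟩

variable {s N K : ℕ} {q0 : Mo.Q}

/-- **small regions**: vertices of one region of the plane are at coarse distance at most `K` -/
theorem reg_small (LIFT : Stmt_LIFT) (hMo : Mo.Fine s N) (hN : 2 * K * M0 s + 3 ≤ N)
    (hl : l.Small K) {x x' : Vx (Mo.plane q0) h} (H : (fineCx (Mo.plane q0) h l).Reg x x') :
    (Mo.plane q0).Dle K x.y x'.y ∧ (Mo.plane q0).Near (K * M0 s) x.y x'.y := by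
  let Q : Vx (Mo.plane q0) h → Prop := fun z => x.lab l = z.lab l ∧
    (Mo.plane q0).Dle K x.y z.y ∧ (Mo.plane q0).Near (K * M0 s) x.y z.y
  have hQ : ∀ u v : Vx (Mo.plane q0) h, u.lab l = v.lab l → (Mo.plane q0).Near 3 u.y v.y →
      Q u → Q v := by
    rintro u v h1 h2 ⟨h3, h4, h5⟩
    have h6 : x.lab l = v.lab l := h3.trans h1
    refine ⟨h6, ?_⟩
    exact LIFT Mo s N K hMo hN q0 x.y v.y (h5.trans h2)
      (hl _ _ _ _ _ _ x.val v.val h6)
  have h1 : Q x := ⟨rfl, Cov.Dle.refl K x.y, Cov.Near.refl _ x.y⟩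
  exact ((reg_transport l Q hQ H).1 h1).2

theorem same_small (LIFT : Stmt_LIFT) (hMo : Mo.Fine s N) (hN : 2 * K * M0 s + 3 ≤ N)
    (hl : l.Small K) {x x' : Vx (Mo.plane q0) h} (H : Same (Mo.plane q0) h x x') :
    (Mo.plane q0).Dle K x.y x'.y :=
  (reg_small (l := l) LIFT hMo hN hl (GCx.reg_of_same H)).1

/-- the germs of a track of the plane are close to each other -/
theorem on_small (LIFT : Stmt_LIFT) (hMo : Mo.Fine s N) (hN : 2 * K * M0 s + 3 ≤ N)
    (hl : l.Small K) {c : (fineCx (Mo.plane q0) h l).Tr} {g g' : Gm (Mo.plane q0) h}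
    (hg : GCx.On c g) (hg' : GCx.On c g') :
    (Mo.plane q0).Dle K g.y g'.y ∧ (Mo.plane q0).Near (K * M0 s) g.y g'.y := by
  have key : ∀ g : Gm (Mo.plane q0) h, GCx.On c g →
      ∃ b : (fineCx (Mo.plane q0) h l).BG, GCx.cls b = c ∧
        (Gm.y (C := Mo.plane q0) (h := h) b.1) = g.y := by
    rintro g ⟨b, rfl, hb | hb⟩
    · exact ⟨b, hb, rfl⟩
    · exact ⟨b.rev, by rw [← GCx.rev_cls, hb, GCx.Tr.rev_rev], rfl⟩
  obtain ⟨b, hb, hby⟩ := key g hg
  obtain ⟨b', hb', hby'⟩ := key g' hg'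
  have h1 := reg_small LIFT hMo hN hl (GCx.reg_of_cls_eq (hb.trans hb'.symm)).1
  rw [← hby, ← hby']
  exact h1

/-- visited flags of a track of the plane are close to each other -/
theorem vis_small (LIFT : Stmt_LIFT) (hMo : Mo.Fine s N) (hN : 2 * K * M0 s + 3 ≤ N)
    (hl : l.Small K) {c : (fineCx (Mo.plane q0) h l).Tr} {v v' : (Mo.plane q0).Y}
    (hv : v ∈ vis c) (hv' : v' ∈ vis c) : (Mo.plane q0).Dle (K + 2) v v' := by
  obtain ⟨g, h1, h2⟩ := hv
  obtain ⟨g', h1', h2'⟩ := hv'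
  have h3 := (on_small LIFT hMo hN hl h1 h1').1
  have h4 : (Mo.plane q0).Dle 1 v g.y := by
    rcases h2 with h2 | h2
    · rw [h2]; exact Cov.Dle.refl 1 v
    · rw [← h2]; exact Cov.Dle.one (Or.inr (Or.inr (Or.inl rfl)))
  have h4' : (Mo.plane q0).Dle 1 g'.y v' := by
    rcases h2' with h2' | h2'
    · rw [h2']; exact Cov.Dle.refl 1 v'
    · rw [← h2']; exact Cov.Dle.one (Or.inr (Or.inl rfl))
  have h5 := (h4.trans h3).trans h4'
  have h6 : 1 + K + 1 = K + 2 := by omega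
  rwa [h6] at h5

/-- finitely many visited flags -/
theorem vis_fin_plane (LIFT : Stmt_LIFT) (LFIN : Stmt_LFIN) (hMo : Mo.Fine s N)
    (hN : 2 * K * M0 s + 3 ≤ N) (hl : l.Small K) (c : (fineCx (Mo.plane q0) h l).Tr) :
    (vis c).Finite := by
  obtain ⟨b, hb⟩ := GCx.exists_rep c
  have hon : GCx.On c b.1 := ⟨b, rfl, Or.inl hb⟩
  refine (LFIN Mo (Mo.plane q0) (K * M0 s + 1) (Gm.y (C := Mo.plane q0) (h := h) b.1)).subset ?_
  rintro v ⟨g, h1, h2⟩
  have h3 := (on_small (g := b.1) (g' := g) LIFT hMo hN hl hon h1).2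
  rcases h2 with h2 | h2
  · rw [← h2]
    exact h3.mono (by omega)
  · rw [← h2]
    exact h3.trans (Cov.Near.r g.y)

/-! ### sides in the plane -/

/-- the corners on the side of a track: finite or cofinite -/
theorem Hc_fin_or (LIFT : Stmt_LIFT) (LFIN : Stmt_LFIN) (hMo : Mo.Fine s N)
    (hN : 2 * K * M0 s + 3 ≤ N) (hl : l.Small K) (c : (fineCx (Mo.plane q0) h l).Tr) :
    (Hc c).Finite ∨ ((Hc c)ᶜ).Finite := by
  refine plane_finite_or_cofinite q0 (Hc c) (Hc_a c) ?_
  have h1 := (vis_fin_plane LIFT LFIN hMo hN hl c).preimage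
    (f := (Mo.plane q0).r) ((Mo.plane q0).r.injective.injOn)
  refine h1.subset ?_
  intro y hy
  exact Hc_bd c y (fun h2 => hy h2.symm)

/-- **exit**: vertices on the finite side of a track are close to the track -/
theorem exit_close (EXIT : Stmt_EXIT) (LIFT : Stmt_LIFT) (hMo : Mo.Fine s N)
    (hN : 2 * K * M0 s + 3 ≤ N) (hl : l.Small K) (c : (fineCx (Mo.plane q0) h l).Tr)
    (hf : (Hc c).Finite) (x : Vx (Mo.plane q0) h) (hx : x ∈ GCx.H c) :
    ∃ g : Gm (Mo.plane q0) h, GCx.On c g ∧ (Mo.plane q0).Dle (9 * K + 169) x.y g.y := by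
  by_cases hno : ∀ g : Gm (Mo.plane q0) h, g.y = x.y → ¬ GCx.On c g
  · have h1 : x.y ∈ Hc c := (mem_iff_cor hno).1 hx
    obtain ⟨v, ⟨g, h2, h3⟩, h4⟩ := EXIT Mo q0 (K + 2) (Hc c) (vis c) hf (Hc_a c) (Hc_b c)
      (Hc_bd c) (fun v hv v' hv' => vis_small LIFT hMo hN hl hv hv') x.y h1
    refine ⟨g, h2, ?_⟩
    have h5 : (Mo.plane q0).Dle 1 v g.y := by
      rcases h3 with h3 | h3
      · rw [h3]; exact Cov.Dle.refl 1 v
      · rw [← h3]; exact Cov.Dle.one (Or.inr (Or.inr (Or.inl rfl)))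
    exact (h4.trans h5).mono (by omega)
  · push Not at hno
    obtain ⟨g, h1, h2⟩ := hno
    exact ⟨g, h2, by rw [h1]; exact Cov.Dle.refl _ _⟩

/-- **completeness in the plane**: a path which crosses only closed tracks has close ends -/
theorem plane_close (EXIT : Stmt_EXIT) (LIFT : Stmt_LIFT) (LFIN : Stmt_LFIN) (hMo : Mo.Fine s N)
    (hN : 2 * K * M0 s + 3 ≤ N) (hl : l.Small K) (hh : 0 < h)
    {L : List (fineCx (Mo.plane q0) h l).Tr} {a b : Vx (Mo.plane q0) h} (H : GCx.Pth L a b)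
    (hcl : ∀ c ∈ L, ¬ GCx.IsArc c) : (Mo.plane q0).Dle (21 * K + 338) a.y b.y := by
  obtain ⟨L', H', hL', hpw⟩ := H.reduce
  have hcl' : ∀ c ∈ L', ¬ GCx.IsArc c := fun c hc => hcl c (hL' c hc)
  have hS : ∀ c ∈ L', GCx.HasSide c := fun c hc => plane_hasSide l hh c (hcl' c hc)
  have hconn : (fineCx (Mo.plane q0) h l).Conn := fine_conn (plane_conn Mo q0)
  have hnest := H'.nested hconn hpw hS
  have hreg : ∀ {x x' : Vx (Mo.plane q0) h}, (fineCx (Mo.plane q0) h l).Reg x x' →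
      (Mo.plane q0).Dle K x.y x'.y := fun h1 => (reg_small LIFT hMo hN hl h1).1
  -- a part of the path which only crosses tracks with infinite head side
  have part1 : ∀ (L1 : List (fineCx (Mo.plane q0) h l).Tr) (z : Vx (Mo.plane q0) h),
      GCx.Pth L1 a z → (∀ c ∈ L1, ¬ (Hc c).Finite) → (∀ c ∈ L1, c ∈ L') →
      (∀ c ∈ L1, a ∉ GCx.H c) → (Mo.plane q0).Dle (11 * K + 169) a.y z.y := by
    intro L1 z hz h1 h2 h3
    rcases List.eq_nil_or_concat L1 with h4 | ⟨L2, d, h4⟩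
    · exact (hreg (hz.reg_of_nil h4)).mono (by omega)
    · rw [List.concat_eq_append] at h4
      obtain ⟨e, he, hp1, hp2⟩ := hz.split L2 [] d (by rw [h4])
      have hd : d ∈ L1 := by rw [h4]; simp
      have hsd : GCx.HasSide d := hS d (h2 d hd)
      have h5 : ((Hc d)ᶜ).Finite := (Hc_fin_or LIFT LFIN hMo hN hl d).resolve_left (h1 d hd)
      rw [← Hc_rev (plane_conn Mo q0) hsd] at h5
      have h6 : a ∈ GCx.H d.rev := by
        rw [GCx.H_rev hconn hsd]
        exact h3 d hd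
      obtain ⟨g, hg1, hg2⟩ := exit_close EXIT LIFT hMo hN hl d.rev h5 a h6
      have h7 : GCx.On d e.1 := ⟨e, rfl, Or.inl he⟩
      have h8 : (Mo.plane q0).Dle K g.y (Gm.y (C := Mo.plane q0) (h := h) e.1) :=
        (on_small (c := d) (g := g) (g' := e.1) LIFT hMo hN hl (GCx.on_rev.1 hg1) h7).1
      have h9 : (Mo.plane q0).Dle K (Gm.y (C := Mo.plane q0) (h := h) e.1) z.y :=
        hreg (hp2.reg_of_nil rfl)
      exact ((hg2.trans h8).trans h9).mono (by omega)
  have hsep : ∀ c ∈ L', a ∉ GCx.H c ∧ b ∈ GCx.H c := by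
    intro c hc
    obtain ⟨L1, L2, h1⟩ := List.append_of_mem hc
    exact H'.separates hconn hpw h1 (hS c hc)
  by_cases hfin : ∃ c ∈ L', (Hc c).Finite
  · obtain ⟨L1, c, L2, h1, h2, h3⟩ := GCx.exists_first (fun c => (Hc c).Finite) L' hfin
    obtain ⟨e, he, hp1, hp2⟩ := H'.split L1 L2 c h1
    have hc : c ∈ L' := by rw [h1]; simp
    have hL1 : ∀ d ∈ L1, d ∈ L' := fun d hd => by rw [h1]; simp [hd]
    have h4 := part1 L1 _ hp1 h3 hL1 (fun d hd => (hsep d (hL1 d hd)).1)
    obtain ⟨g, hg1, hg2⟩ := exit_close EXIT LIFT hMo hN hl c h2 b (hsep c hc).2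
    have h5 : GCx.On c e.1 := ⟨e, rfl, Or.inl he⟩
    have h6 : (Mo.plane q0).Dle K (Gm.y (C := Mo.plane q0) (h := h) e.1) g.y :=
      (on_small (c := c) (g := e.1) (g' := g) LIFT hMo hN hl h5 hg1).1
    exact ((h4.trans h6).trans hg2.symm).mono (by omega)
  · push Not at hfin
    exact (part1 L' b H' hfin (fun _ hc => hc) (fun c hc => (hsep c hc).1)).mono (by omega)

end

end Pool.CX
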