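import Pool.Agent.Work.MP_727c87_cx.C1.Germ

set_option autoImplicit false

/-!
# Arc tracks of a covering complex (MP_727c87_gt, part C1, abstract)

Two involutions act on the germs of a complex and on the germs of its finite quotient. The orbit of a fixed point of the
first one is finite, the projection is injective on it, and it contains exactly two such fixed points.
-/

namespace Pool.CX

/-- two involutions above and below -/
structure DI (α β : Type) where
  a : α → α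
  o : α → α
  a' : β → β
  o' : β → β
  q : α → β
  aa : ∀ x, a (a x) = x
  oo : ∀ x, o (o x) = x
  aa' : ∀ x, a' (a' x) = x
  oo' : ∀ x, o' (o' x) = x
  qa : ∀ x, q (a x) = a' (q x)
  qo : ∀ x, q (o x) = o' (q x)
  fix : ∀ x, a' (q x) = q x → a x = x
  nofix : ∀ y, o' y ≠ y

namespace DI

variable {α β : Type} (D : DI α β)

/-- the walk which starts with `o` -/
def sq (x : α) (n : ℕ) : α :=
  Nat.rec x (fun n y => if n % 2 = 0 then D.o y else D.a y) n

/-- one move -/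
def St (x x' : α) : Prop := x' = D.o x ∨ x' = D.a x

variable {D}

theorem sq_zero (x : α) : D.sq x 0 = x := rfl

theorem sq_even (x : α) {n : ℕ} (h : n % 2 = 0) : D.sq x (n + 1) = D.o (D.sq x n) := by
  simp [sq, h]

theorem sq_odd (x : α) {n : ℕ} (h : n % 2 = 1) : D.sq x (n + 1) = D.a (D.sq x n) := by
  simp [sq, h]

/-- `o` moves along the walk -/
theorem o_even (x : α) {n : ℕ} (h : n % 2 = 0) : D.o (D.sq x n) = D.sq x (n + 1) :=
  (sq_even x h).symm

theorem o_odd (x : α) {n : ℕ} (h : (n + 1) % 2 = 1) : D.o (D.sq x (n + 1)) = D.sq x n := by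
  rw [sq_even x (by omega), D.oo]

theorem a_odd (x : α) {n : ℕ} (h : n % 2 = 1) : D.a (D.sq x n) = D.sq x (n + 1) :=
  (sq_odd x h).symm

theorem a_even (x : α) {n : ℕ} (h : (n + 1) % 2 = 0) : D.a (D.sq x (n + 1)) = D.sq x n := by
  rw [sq_odd x (by omega), D.aa]

/-- a first repetition below is a fixed point -/
theorem first_rep {x : α} (hx : D.a x = x) {n m : ℕ}
    (hmin : ∀ i < n, ∀ j < i, D.q (D.sq x j) ≠ D.q (D.sq x i))
    (hm : m < n) (h : D.q (D.sq x m) = D.q (D.sq x n)) : m + 1 = n := by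
  by_contra hne
  obtain ⟨k, rfl⟩ : ∃ k, n = k + 1 := ⟨n - 1, by omega⟩
  have hmk : m < k := by omega
  rcases Nat.mod_two_eq_zero_or_one k with hk | hk
  · -- the last move is `o`
    have h1 : D.q (D.sq x k) = D.q (D.o (D.sq x m)) := by
      have h2 : D.sq x k = D.o (D.sq x (k + 1)) := by rw [sq_even x hk, D.oo]
      rw [h2, D.qo, ← h, ← D.qo]
    rcases Nat.mod_two_eq_zero_or_one m with hm2 | hm2
    · rw [o_even x hm2] at h1
      rcases Nat.lt_or_ge (m + 1) k with h3 | h3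
      · exact hmin k (Nat.lt_succ_self k) (m + 1) h3 h1.symm
      · omega
    · obtain ⟨m', rfl⟩ : ∃ m', m = m' + 1 := ⟨m - 1, by omega⟩
      rw [o_odd x hm2] at h1
      exact hmin k (Nat.lt_succ_self k) m' (by omega) h1.symm
  · have h1 : D.q (D.sq x k) = D.q (D.a (D.sq x m)) := by
      have h2 : D.sq x k = D.a (D.sq x (k + 1)) := by rw [sq_odd x hk, D.aa]
      rw [h2, D.qa, ← h, ← D.qa]
    rcases Nat.mod_two_eq_zero_or_one m with hm2 | hm2
    · rcases Nat.eq_zero_or_pos m with h0 | h0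
      · subst h0
        rw [sq_zero, hx] at h1
        exact hmin k (Nat.lt_succ_self k) 0 hmk h1.symm
      · obtain ⟨m', rfl⟩ : ∃ m', m = m' + 1 := ⟨m - 1, by omega⟩
        rw [a_even x hm2] at h1
        exact hmin k (Nat.lt_succ_self k) m' (by omega) h1.symm
    · rw [a_odd x hm2] at h1
      rcases Nat.lt_or_ge (m + 1) k with h3 | h3
      · exact hmin k (Nat.lt_succ_self k) (m + 1) h3 h1.symm
      · omega

/-- **the orbit of a fixed point is a finite arc** -/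
theorem arc [Finite β] {x : α} (hx : D.a x = x) :
    ∃ N : ℕ, 0 < N ∧ (∀ i ≤ N, ∀ j ≤ N, D.q (D.sq x i) = D.q (D.sq x j) → i = j) ∧
      D.a (D.sq x N) = D.sq x N ∧
      (∀ i ≤ N, ∃ j ≤ N, D.a (D.sq x i) = D.sq x j) ∧
      (∀ i ≤ N, ∃ j ≤ N, D.o (D.sq x i) = D.sq x j) ∧
      (∀ i ≤ N, D.a (D.sq x i) = D.sq x i → i = 0 ∨ i = N) := by
  classical
  have hex : ∃ n, ∃ m < n, D.q (D.sq x m) = D.q (D.sq x n) := by
    have hni : ¬ Function.Injective (fun n => D.q (D.sq x n)) := not_injective_infinite_finite _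
    unfold Function.Injective at hni
    push Not at hni
    obtain ⟨i, j, hij, hne⟩ := hni
    rcases Nat.lt_or_ge i j with h | h
    · exact ⟨j, i, h, hij⟩
    · exact ⟨i, j, by omega, hij.symm⟩
  obtain ⟨m, hm, h⟩ := Nat.find_spec hex
  have hmin : ∀ i < Nat.find hex, ∀ j < i, D.q (D.sq x j) ≠ D.q (D.sq x i) := by
    intro i hi j hj hji
    exact Nat.find_min hex hi ⟨j, hj, hji⟩
  have hmn := first_rep hx hmin hm h
  rw [← hmn] at h hmin
  have hodd : m % 2 = 1 := by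
    rcases Nat.mod_two_eq_zero_or_one m with h2 | h2
    · exfalso
      rw [sq_even x h2, D.qo] at h
      exact D.nofix _ h.symm
    · exact h2
  have hinj : ∀ i ≤ m, ∀ j ≤ m, D.q (D.sq x i) = D.q (D.sq x j) → i = j := by
    intro i hi j hj hij
    rcases Nat.lt_trichotomy i j with h3 | h3 | h3
    · exact absurd hij (hmin j (by omega) i h3)
    · exact h3
    · exact absurd hij.symm (hmin i (by omega) j h3)
  have hlast : D.a (D.sq x m) = D.sq x m := by
    apply D.fix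
    rw [← D.qa, a_odd x hodd]
    exact h.symm
  refine ⟨m, by omega, hinj, hlast, ?_, ?_, ?_⟩
  · intro i hi
    rcases Nat.mod_two_eq_zero_or_one i with h3 | h3
    · rcases Nat.eq_zero_or_pos i with h0 | h0
      · subst h0
        exact ⟨0, Nat.zero_le _, hx⟩
      · obtain ⟨k, rfl⟩ : ∃ k, i = k + 1 := ⟨i - 1, by omega⟩
        exact ⟨k, by omega, a_even x h3⟩
    · rcases Nat.lt_or_ge i m with h4 | h4
      · exact ⟨i + 1, h4, a_odd x h3⟩
      · have h5 : i = m := le_antisymm hi h4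
        rw [h5]
        exact ⟨m, le_refl _, hlast⟩
  · intro i hi
    rcases Nat.mod_two_eq_zero_or_one i with h3 | h3
    · exact ⟨i + 1, by omega, o_even x h3⟩
    · obtain ⟨k, rfl⟩ : ∃ k, i = k + 1 := ⟨i - 1, by omega⟩
      exact ⟨k, by omega, o_odd x h3⟩
  · intro i hi hfix
    rcases Nat.mod_two_eq_zero_or_one i with h3 | h3
    · rcases Nat.eq_zero_or_pos i with h0 | h0
      · exact Or.inl h0
      · exfalso
        obtain ⟨k, rfl⟩ : ∃ k, i = k + 1 := ⟨i - 1, by omega⟩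
        rw [a_even x h3] at hfix
        have := hinj k (by omega) (k + 1) hi (by rw [hfix])
        omega
    · rcases Nat.lt_or_ge i m with h4 | h4
      · exfalso
        rw [a_odd x h3] at hfix
        have := hinj (i + 1) (by omega) i hi (by rw [hfix])
        omega
      · exact Or.inr (le_antisymm hi h4)

/-- the arc is the whole orbit -/
theorem orbit_of_arc {x : α} {N : ℕ}
    (ha : ∀ i ≤ N, ∃ j ≤ N, D.a (D.sq x i) = D.sq x j)
    (ho : ∀ i ≤ N, ∃ j ≤ N, D.o (D.sq x i) = D.sq x j) {y z : α}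
    (h : Relation.EqvGen D.St y z) : (∃ i ≤ N, y = D.sq x i) ↔ ∃ i ≤ N, z = D.sq x i := by
  induction h with
  | rel y z h =>
    rcases h with rfl | rfl
    · constructor
      · rintro ⟨i, hi, rfl⟩
        exact ho i hi
      · rintro ⟨i, hi, h⟩
        obtain ⟨j, hj, h'⟩ := ho i hi
        exact ⟨j, hj, by rw [← h', ← h, D.oo]⟩
    · constructor
      · rintro ⟨i, hi, rfl⟩
        exact ha i hi
      · rintro ⟨i, hi, h⟩
        obtain ⟨j, hj, h'⟩ := ha i hi
        exact ⟨j, hj, by rw [← h', ← h, D.aa]⟩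
  | refl _ => exact Iff.rfl
  | symm _ _ _ ih => exact ih.symm
  | trans _ _ _ _ _ ih1 ih2 => exact ih1.trans ih2

theorem sq_eqv (x : α) (n : ℕ) : Relation.EqvGen D.St x (D.sq x n) := by
  induction n with
  | zero => exact Relation.EqvGen.refl _
  | succ n ih =>
    refine Relation.EqvGen.trans _ _ _ ih (Relation.EqvGen.rel _ _ ?_)
    rcases Nat.mod_two_eq_zero_or_one n with h | h
    · exact Or.inl (sq_even x h)
    · exact Or.inr (sq_odd x h)

end DI

namespace GCx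

variable {V V0 L : Type}

/-- covering map of labelled complexes -/
structure Cv (X : GCx V L) (X0 : GCx V0 L) where
  q : X.Gm → X0.Gm
  q_rev : ∀ g, q (X.rev g) = X0.rev (q g)
  q_op : ∀ g, q (X.op g) = X0.op (q g)
  q_hole : ∀ g, X0.hole (q g) ↔ X.hole g
  q_nx : ∀ g, ¬ X.hole g → q (X.nx g) = X0.nx (q g)
  q_l : ∀ g, X0.l (X0.s (q g)) = X.l (X.s g)
  /-- no degenerate triangles below -/
  nd : ∀ g, ¬ X0.hole g → X0.nx g ≠ X0.rev g
  /-- the two sides of an edge are different germs below -/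
  ne : ∀ g, X0.op g ≠ g

namespace Cv

variable {X : GCx V L} {X0 : GCx V0 L} (C : Cv X X0)

theorem q_lt (g : X.Gm) : X0.l (X0.t (C.q g)) = X.l (X.t g) := by
  rw [← X0.s_rev, ← C.q_rev, C.q_l, X.s_rev]

theorem q_turn (g : X.Gm) : C.q (X.turn g) = X0.turn (C.q g) := by
  by_cases h : X.hole g
  · rw [turn_hole h, turn_hole ((C.q_hole g).2 h)]
  have h0 : ¬ X0.hole (C.q g) := fun h' => h ((C.q_hole g).1 h')
  have h1 : X0.l (X0.t (X0.nx (C.q g))) = X.l (X.t (X.nx g)) := by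
    rw [← C.q_nx g h, C.q_lt]
  by_cases hA : X.l (X.t (X.nx g)) = X.l (X.s g)
  · rw [turn_A h hA, turn_A h0 (by rw [h1, C.q_l, hA]), C.q_rev, C.q_nx g h]
  · rw [turn_B h hA, turn_B h0 (by rw [h1, C.q_l]; exact hA), C.q_rev, C.q_nx _ (nh_nx h),
      C.q_nx g h]

include C in
theorem turn_ne {g : X0.Gm} (h : ¬ X0.hole g) : X0.turn g ≠ g := by
  unfold turn
  rw [if_neg h]
  split_ifs with hA
  · intro h1
    apply C.nd g h
    rw [← X0.rev_rev (X0.nx g), h1]
  · intro h1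
    apply C.nd (X0.rev g) (nh_rev h)
    rw [X0.nx_rev g h, h1, X0.rev_rev]

theorem q_bi {g : X.Gm} : X0.Bi (C.q g) ↔ X.Bi g := by
  unfold Bi
  rw [C.q_l, C.q_lt]

/-- on two-coloured germs -/
def qb (b : X.BG) : X0.BG := ⟨C.q b.1, C.q_bi.2 b.2⟩

/-- the two involutions -/
noncomputable def di : DI X.BG X0.BG where
  a := BG.turn
  o := BG.op
  a' := BG.turn
  o' := BG.op
  q := C.qb
  aa := BG.turn_turn
  oo := BG.op_op
  aa' := BG.turn_turn
  oo' := BG.op_op
  qa := fun b => BG.ext (C.q_turn b.1)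
  qo := fun b => BG.ext (C.q_op b.1)
  fix := by
    intro b h
    apply BG.ext
    by_cases hh : X0.hole (C.q b.1)
    · exact turn_hole ((C.q_hole _).1 hh)
    · exact absurd (congrArg Subtype.val h) (C.turn_ne hh)
  nofix := fun b h => C.ne b.1 (congrArg Subtype.val h)

end Cv

/-- the track has an end at a hole -/
def IsArc {X : GCx V L} (c : X.Tr) : Prop := ∃ b : X.BG, cls b = c ∧ X.hole b.1

theorem IsArc.rev {X : GCx V L} {c : X.Tr} (h : IsArc c) : IsArc c.rev := by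
  obtain ⟨b, rfl, h2⟩ := h
  exact ⟨b.rev, rfl, (X.hole_rev _).2 h2⟩

namespace Cv

variable {X : GCx V L} {X0 : GCx V0 L} (C : Cv X X0)

theorem eqv_of_cls {b b' : X.BG} (h : cls b = cls b') : Relation.EqvGen C.di.St b b' :=
  Quot.eqvGen_exact h

theorem cls_of_eqv {b b' : X.BG} (h : Relation.EqvGen C.di.St b b') : cls b = cls b' :=
  Quot.eqvGen_sound h

/-- **an arc track is finite**: enumeration of its germs, with exactly two holes -/
theorem arc_enum [Finite X0.Gm] {c : X.Tr} (hc : IsArc c) :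
    ∃ (N : ℕ) (e : ℕ → X.BG), 0 < N ∧ (∀ i ≤ N, cls (e i) = c) ∧
      (∀ b, cls b = c → ∃ i ≤ N, b = e i) ∧
      (∀ i ≤ N, ∀ j ≤ N, C.q (e i).1 = C.q (e j).1 → i = j) ∧
      X.hole (e 0).1 ∧ X.hole (e N).1 ∧ (∀ i ≤ N, X.hole (e i).1 → i = 0 ∨ i = N) ∧
      (∀ i < N, i % 2 = 0 → e (i + 1) = (e i).op) ∧
      (∀ i < N, i % 2 = 1 → e (i + 1) = (e i).turn) := by
  obtain ⟨b, hb, hh⟩ := hc
  have : Finite X0.BG := Finite.of_injective (fun b : X0.BG => b.1) Subtype.val_injective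
  have hfix : C.di.a b = b := BG.ext (turn_hole hh)
  obtain ⟨N, hN, h1, h2, h3, h4, h5⟩ := DI.arc (D := C.di) hfix
  have hhole : ∀ b' : X.BG, C.di.a b' = b' → X.hole b'.1 := by
    intro b' h
    by_contra hh'
    have h6 : ¬ X0.hole (C.q b'.1) := fun h' => hh' ((C.q_hole _).1 h')
    have h7 := C.turn_ne h6
    rw [← C.q_turn] at h7
    exact h7 (congrArg (fun b : X.BG => C.q b.1) h)
  refine ⟨N, C.di.sq b, hN, ?_, ?_, ?_, hh, hhole _ h2, ?_, ?_, ?_⟩
  · intro i _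
    rw [← hb]
    exact (C.cls_of_eqv (DI.sq_eqv (D := C.di) b i)).symm
  · intro b' hb'
    have h6 : Relation.EqvGen C.di.St b b' := C.eqv_of_cls (hb.trans hb'.symm)
    exact (DI.orbit_of_arc h3 h4 h6).1 ⟨0, Nat.zero_le _, rfl⟩
  · intro i hi j hj hij
    exact h1 i hi j hj (BG.ext hij)
  · intro i hi hh'
    exact h5 i hi (BG.ext (turn_hole hh'))
  · intro i _ h6
    exact DI.sq_even (D := C.di) b h6
  · intro i _ h6
    exact DI.sq_odd (D := C.di) b h6

include C in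
theorem finite_arc [Finite X0.Gm] {c : X.Tr} (hc : IsArc c) : {b : X.BG | cls b = c}.Finite := by
  obtain ⟨N, e, _, _, h2, _⟩ := C.arc_enum hc
  apply Set.Finite.subset ((Set.finite_le_nat N).image e)
  intro b hb
  obtain ⟨i, hi, h⟩ := h2 b hb
  exact ⟨i, hi, h.symm⟩

include C in
theorem finite_on [Finite X0.Gm] {c : X.Tr} (hc : IsArc c) : {g : X.Gm | On c g}.Finite := by
  apply Set.Finite.subset (((C.finite_arc hc).union (C.finite_arc hc.rev)).image
    (fun b : X.BG => b.1))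
  rintro g ⟨b, hb, h⟩
  exact ⟨b, h, hb⟩

/-- the covering map is injective on an arc track -/
theorem inj_arc [Finite X0.Gm] {c : X.Tr} (hc : IsArc c) {b b' : X.BG} (h : cls b = c)
    (h' : cls b' = c) (hq : C.q b.1 = C.q b'.1) : b = b' := by
  obtain ⟨N, e, _, _, h2, h3, _⟩ := C.arc_enum hc
  obtain ⟨i, hi, rfl⟩ := h2 b h
  obtain ⟨j, hj, rfl⟩ := h2 b' h'
  rw [h3 i hi j hj hq]

/-- on both directions at once -/
theorem inj_arc' [Finite X0.Gm] {c : X.Tr} (hc : IsArc c) {g g' : X.Gm} (h : On c g)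
    (h' : On c g') (hq : C.q g = C.q g') : g = g' := by
  obtain ⟨b, rfl, hb⟩ := h
  obtain ⟨b', rfl, hb'⟩ := h'
  have hl : (cls b).tl = (cls b').tl := by
    rw [tl_cls, tl_cls, ← C.q_l, ← C.q_l, hq]
  rcases hb with hb | hb <;> rcases hb' with hb' | hb'
  · exact congrArg Subtype.val (C.inj_arc hc hb hb' hq)
  · rw [hb, hb', Tr.rev_tl] at hl
    exact absurd hl c.tl_ne_hl
  · rw [hb, hb', Tr.rev_tl] at hl
    exact absurd hl.symm c.tl_ne_hl
  · exact congrArg Subtype.val (C.inj_arc hc.rev hb hb' hq)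

end Cv

/-! ### images and lifts of tracks -/

namespace Cv

variable {X : GCx V L} {X0 : GCx V0 L} (C : Cv X X0)

theorem qb_step {b b' : X.BG} (h : X.TS b b') : X0.TS (C.qb b) (C.qb b') := by
  rcases h with rfl | rfl
  · exact Or.inl (BG.ext (C.q_op _))
  · exact Or.inr (BG.ext (C.q_turn _))

/-- image of a track -/
def trm (c : X.Tr) : X0.Tr := Quot.map C.qb (fun _ _ h => C.qb_step h) c

theorem trm_cls (b : X.BG) : C.trm (cls b) = cls (C.qb b) := rfl

theorem trm_rev (c : X.Tr) : C.trm c.rev = (C.trm c).rev := by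
  obtain ⟨b, rfl⟩ := exists_rep c
  rw [rev_cls, trm_cls, trm_cls, rev_cls]
  exact congrArg cls (BG.ext (C.q_rev _))

theorem trm_tl (c : X.Tr) : (C.trm c).tl = c.tl := by
  obtain ⟨b, rfl⟩ := exists_rep c
  exact C.q_l b.1

/-- germs of the image track lift to the track -/
theorem exists_lift {b : X.BG} {b0 : X0.BG} (h : cls b0 = cls (C.qb b)) :
    ∃ b' : X.BG, cls b' = cls b ∧ C.qb b' = b0 := by
  have key : ∀ b1 b2 : X0.BG, Relation.EqvGen X0.TS b1 b2 →
      ((∃ b' : X.BG, cls b' = cls b ∧ C.qb b' = b1) ↔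
        ∃ b' : X.BG, cls b' = cls b ∧ C.qb b' = b2) := by
    intro b1 b2 h
    induction h with
    | rel b1 b2 h =>
      rcases h with rfl | rfl
      · constructor
        · rintro ⟨b', h1, rfl⟩
          exact ⟨b'.op, by rw [cls_op, h1], BG.ext (C.q_op _)⟩
        · rintro ⟨b', h1, h2⟩
          refine ⟨b'.op, by rw [cls_op, h1], ?_⟩
          rw [← b1.op_op, ← h2]
          exact BG.ext (C.q_op _)
      · constructor
        · rintro ⟨b', h1, rfl⟩
          exact ⟨b'.turn, by rw [cls_turn, h1], BG.ext (C.q_turn _)⟩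
        · rintro ⟨b', h1, h2⟩
          refine ⟨b'.turn, by rw [cls_turn, h1], ?_⟩
          rw [← b1.turn_turn, ← h2]
          exact BG.ext (C.q_turn _)
    | refl _ => exact Iff.rfl
    | symm _ _ _ ih => exact ih.symm
    | trans _ _ _ _ _ ih1 ih2 => exact ih1.trans ih2
  exact (key _ _ (Quot.eqvGen_exact h)).2 ⟨b, rfl, rfl⟩

theorem exists_lift' {c : X.Tr} {b0 : X0.BG} (h : cls b0 = C.trm c) :
    ∃ b' : X.BG, cls b' = c ∧ C.qb b' = b0 := by
  obtain ⟨b, rfl⟩ := exists_rep c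
  exact C.exists_lift h

theorem on_trm {c : X.Tr} {g : X.Gm} (h : On c g) : On (C.trm c) (C.q g) := by
  obtain ⟨b, rfl, h2⟩ := h
  refine ⟨C.qb b, rfl, ?_⟩
  rw [← trm_cls, ← trm_rev]
  rcases h2 with h2 | h2
  · exact Or.inl (by rw [h2])
  · exact Or.inr (by rw [h2])

theorem on_lift {c : X.Tr} {g0 : X0.Gm} (h : On (C.trm c) g0) : ∃ g, C.q g = g0 ∧ On c g := by
  obtain ⟨b0, rfl, h2⟩ := h
  rcases h2 with h2 | h2
  · obtain ⟨b', h3, h4⟩ := C.exists_lift' h2
    exact ⟨b'.1, congrArg Subtype.val h4, b', rfl, Or.inl h3⟩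
  · rw [← trm_rev] at h2
    obtain ⟨b', h3, h4⟩ := C.exists_lift' h2
    exact ⟨b'.1, congrArg Subtype.val h4, b', rfl, Or.inr h3⟩

theorem isArc_trm {c : X.Tr} : IsArc (C.trm c) ↔ IsArc c := by
  constructor
  · rintro ⟨b0, h1, h2⟩
    obtain ⟨b', h3, rfl⟩ := C.exists_lift' h1
    exact ⟨b', h3, (C.q_hole _).1 h2⟩
  · rintro ⟨b, rfl, h2⟩
    exact ⟨C.qb b, rfl, (C.q_hole _).2 h2⟩

end Cv

/-! ### automorphisms -/

/-- an automorphism of a labelled complex -/
structure Aut (X : GCx V L) where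
  f : V ≃ V
  k : X.Gm ≃ X.Gm
  s_k : ∀ g, X.s (k g) = f (X.s g)
  k_rev : ∀ g, k (X.rev g) = X.rev (k g)
  k_op : ∀ g, k (X.op g) = X.op (k g)
  k_hole : ∀ g, X.hole (k g) ↔ X.hole g
  k_nx : ∀ g, ¬ X.hole g → k (X.nx g) = X.nx (k g)
  f_same : ∀ x y, X.same (f x) (f y) ↔ X.same x y
  f_l : ∀ x, X.l (f x) = X.l x

namespace Aut

variable {X : GCx V L} (A : Aut X)

theorem t_k (g : X.Gm) : X.t (A.k g) = A.f (X.t g) := by
  rw [← X.s_rev, ← A.k_rev, A.s_k, X.s_rev]

theorem k_turn (g : X.Gm) : A.k (X.turn g) = X.turn (A.k g) := by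
  by_cases h : X.hole g
  · rw [turn_hole h, turn_hole ((A.k_hole g).2 h)]
  have h0 : ¬ X.hole (A.k g) := fun h' => h ((A.k_hole g).1 h')
  have h1 : X.l (X.t (X.nx (A.k g))) = X.l (X.t (X.nx g)) := by
    rw [← A.k_nx g h, A.t_k, A.f_l]
  by_cases hA : X.l (X.t (X.nx g)) = X.l (X.s g)
  · rw [turn_A h hA, turn_A h0 (by rw [h1, A.s_k, A.f_l, hA]), A.k_rev, A.k_nx g h]
  · rw [turn_B h hA, turn_B h0 (by rw [h1, A.s_k, A.f_l]; exact hA), A.k_rev,
      A.k_nx _ (nh_nx h), A.k_nx g h]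

theorem k_bi {g : X.Gm} : X.Bi (A.k g) ↔ X.Bi g := by
  unfold Bi
  rw [A.s_k, A.t_k, A.f_l, A.f_l]

/-- on two-coloured germs -/
def kb (b : X.BG) : X.BG := ⟨A.k b.1, A.k_bi.2 b.2⟩

theorem kb_step {b b' : X.BG} (h : X.TS b b') : X.TS (A.kb b) (A.kb b') := by
  rcases h with rfl | rfl
  · exact Or.inl (BG.ext (A.k_op _))
  · exact Or.inr (BG.ext (A.k_turn _))

/-- action on tracks -/
def tr (c : X.Tr) : X.Tr := Quot.map A.kb (fun _ _ h => A.kb_step h) c

theorem tr_cls (b : X.BG) : A.tr (cls b) = cls (A.kb b) := rfl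

theorem tr_rev (c : X.Tr) : A.tr c.rev = (A.tr c).rev := by
  obtain ⟨b, rfl⟩ := exists_rep c
  rw [rev_cls, tr_cls, tr_cls, rev_cls]
  exact congrArg cls (BG.ext (A.k_rev _))

theorem tr_tl (c : X.Tr) : (A.tr c).tl = c.tl := by
  obtain ⟨b, rfl⟩ := exists_rep c
  rw [tr_cls, tl_cls, tl_cls]
  exact (congrArg X.l (A.s_k _)).trans (A.f_l _)

/-- an automorphism reverses no track -/
theorem tr_ne_rev (c : X.Tr) : A.tr c ≠ c.rev := by
  intro h
  have h1 := A.tr_tl c
  rw [h, Tr.rev_tl] at h1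
  exact c.tl_ne_hl h1.symm

/-- the inverse -/
def symm : Aut X where
  f := A.f.symm
  k := A.k.symm
  s_k := by
    intro g
    rw [Equiv.eq_symm_apply, ← A.s_k, Equiv.apply_symm_apply]
  k_rev := by
    intro g
    rw [Equiv.symm_apply_eq, A.k_rev, Equiv.apply_symm_apply]
  k_op := by
    intro g
    rw [Equiv.symm_apply_eq, A.k_op, Equiv.apply_symm_apply]
  k_hole := by
    intro g
    rw [← A.k_hole, Equiv.apply_symm_apply]
  k_nx := by
    intro g hg
    rw [Equiv.symm_apply_eq, A.k_nx, Equiv.apply_symm_apply]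
    rw [← A.k_hole, Equiv.apply_symm_apply]
    exact hg
  f_same := by
    intro x y
    rw [← A.f_same, Equiv.apply_symm_apply, Equiv.apply_symm_apply]
  f_l := by
    intro x
    rw [← A.f_l, Equiv.apply_symm_apply]

theorem symm_tr (c : X.Tr) : A.symm.tr (A.tr c) = c := by
  obtain ⟨b, rfl⟩ := exists_rep c
  rw [tr_cls, tr_cls]
  exact congrArg cls (BG.ext (A.k.symm_apply_apply _))

theorem tr_symm (c : X.Tr) : A.tr (A.symm.tr c) = c := by
  obtain ⟨b, rfl⟩ := exists_rep c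
  rw [tr_cls, tr_cls]
  exact congrArg cls (BG.ext (A.k.apply_symm_apply _))

theorem tr_inj {c c' : X.Tr} (h : A.tr c = A.tr c') : c = c' := by
  rw [← A.symm_tr c, h, A.symm_tr]

theorem on_tr {c : X.Tr} {g : X.Gm} (h : On c g) : On (A.tr c) (A.k g) := by
  obtain ⟨b, rfl, h2⟩ := h
  refine ⟨A.kb b, rfl, ?_⟩
  rw [← tr_cls, ← tr_rev]
  rcases h2 with h2 | h2
  · exact Or.inl (by rw [h2])
  · exact Or.inr (by rw [h2])

theorem on_tr_iff {c : X.Tr} {g : X.Gm} : On (A.tr c) (A.k g) ↔ On c g := by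
  refine ⟨fun h => ?_, A.on_tr⟩
  have h1 := A.symm.on_tr h
  rw [A.symm_tr] at h1
  have h2 : A.symm.k (A.k g) = g := A.k.symm_apply_apply g
  rwa [h2] at h1

theorem av_tr {c : X.Tr} {x y : V} (h : Av c x y) : Av (A.tr c) (A.f x) (A.f y) := by
  rcases h with h | ⟨g, rfl, rfl, h⟩
  · exact Or.inl ((A.f_same _ _).2 h)
  · exact Or.inr ⟨A.k g, A.s_k g, A.t_k g, fun h' => h (A.on_tr_iff.1 h')⟩

theorem mem_tr {c : X.Tr} {x : V} (h : x ∈ H c) : A.f x ∈ H (A.tr c) := by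
  obtain ⟨b, hb, hp⟩ := h
  refine ⟨A.kb b, by rw [← hb]; rfl, ?_⟩
  have h1 : X.t (A.kb b).1 = A.f (X.t b.1) := A.t_k _
  rw [h1]
  clear h1 hb
  induction hp with
  | refl => exact Relation.ReflTransGen.refl
  | tail _ h2 ih => exact ih.tail (A.av_tr h2)

/-- sides are moved to sides -/
theorem mem_tr_iff {c : X.Tr} {x : V} : A.f x ∈ H (A.tr c) ↔ x ∈ H c := by
  refine ⟨fun h => ?_, A.mem_tr⟩
  have h1 := A.symm.mem_tr h
  rw [A.symm_tr] at h1
  have h2 : A.symm.f (A.f x) = x := A.f.symm_apply_apply x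
  rwa [h2] at h1

theorem isArc_tr {c : X.Tr} (h : IsArc c) : IsArc (A.tr c) := by
  obtain ⟨b, rfl, h2⟩ := h
  exact ⟨A.kb b, rfl, (A.k_hole _).2 h2⟩

/-- **free action**: a deck transformation which preserves an arc track fixes its germs -/
theorem fix_of_tr {X0 : GCx V0 L} (C : Cv X X0) [Finite X0.Gm]
    (hq : ∀ g, C.q (A.k g) = C.q g) {c : X.Tr} (hc : IsArc c) (h : A.tr c = c) {b : X.BG}
    (hb : cls b = c) : A.k b.1 = b.1 :=
  congrArg Subtype.val (C.inj_arc hc (b := A.kb b) (by rw [← tr_cls, hb, h]) hb (hq _))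

end Aut

/-- finitely many orbits of tracks -/
theorem Cv.finite_orbits {X : GCx V L} {X0 : GCx V0 L} (C : Cv X X0) [Finite X0.Gm]
    (G : Set (Aut X)) (hG : ∀ g g' : X.Gm, C.q g = C.q g' → ∃ A ∈ G, A.k g = g') :
    ∃ F : Set X.Tr, F.Finite ∧ ∀ c, ∃ A ∈ G, A.tr c ∈ F := by
  refine ⟨Set.range (fun y : {y : X0.Gm // ∃ b : X.BG, C.q b.1 = y} => cls y.2.choose),
    Set.finite_range _, fun c => ?_⟩
  obtain ⟨b, rfl⟩ := exists_rep c
  have hb : ∃ b' : X.BG, C.q b'.1 = C.q b.1 := ⟨b, rfl⟩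
  obtain ⟨A, hA, h⟩ := hG b.1 hb.choose.1 hb.choose_spec.symm
  refine ⟨A, hA, ⟨C.q b.1, hb⟩, ?_⟩
  exact congrArg cls (BG.ext h.symm)

end GCx

end Pool.CX
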