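import Pool.Agent.Work.MP_727c87_cx.CovTheory

set_option autoImplicit false

/-! # MP_727c87, part C1: the fine complex of a covering (germs, gluing, potentials)

The kite of a flag `y` is divided into `h × h` small squares and these into triangles
`T(σ,i,j)` with the vertices `(i,j)`, `(i+1,j)`, `(i+1,j+1)` (coordinates exchanged if `σ = true`).
A germ is an oriented edge of such a triangle, or an oriented edge on a side of a defect kite (seen
from the hole). -/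

namespace Pool.CX

open Finset

variable {Mo : Model}

/-- exchange of the coordinates -/
def ptc (σ : Bool) (i j : ℕ) : ℕ × ℕ := if σ then (j, i) else (i, j)

/-- valid grid points of the kite of `y` -/
def Cov.Val (C : Cov Mo) (h : ℕ) (y : C.Y) (i j : ℕ) : Prop :=
  i ≤ h ∧ j ≤ h ∧ ((C.p y).1 ∉ Mo.D ∨ i = h ∨ j = h)

/-- germs -/
@[ext] structure Gm (C : Cov Mo) (h : ℕ) where
  y : C.Y
  σ : Bool
  i : ℕ
  j : ℕ
  e : Fin 3
  rv : Bool
  hi : i < h
  hj : j < h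
  ok : (C.p y).1 ∉ Mo.D ∨ (i + 1 = h ∧ e = 1)

/-- pre-vertices -/
@[ext] structure Vx (C : Cov Mo) (h : ℕ) where
  y : C.Y
  i : ℕ
  j : ℕ
  val : C.Val h y i j

theorem Cov.r_b (C : Cov Mo) (y : C.Y) : C.r (C.b y) = C.a (C.r y) := by
  unfold Cov.b
  rw [Equiv.apply_symm_apply]

theorem Cov.p_rsymm_fst (C : Cov Mo) (y : C.Y) : (C.p (C.r.symm y)).1 = (C.p y).1 := by
  rw [C.p_rsymm]; rfl

namespace Gm
variable {C : Cov Mo} {h : ℕ}

/-- first and second end of the unreversed edge `e` of `T(false,i,j)` -/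
def en0 (e : Fin 3) (i j : ℕ) : ℕ × ℕ :=
  if e = 0 then (i, j) else if e = 1 then (i + 1, j) else (i + 1, j + 1)
def en1 (e : Fin 3) (i j : ℕ) : ℕ × ℕ :=
  if e = 0 then (i + 1, j) else if e = 1 then (i + 1, j + 1) else (i, j)

/-- tail of a germ in coordinates -/
def tl (g : Gm C h) : ℕ × ℕ :=
  let q := if g.rv then en1 g.e g.i g.j else en0 g.e g.i g.j
  ptc g.σ q.1 q.2
def hd (g : Gm C h) : ℕ × ℕ :=
  let q := if g.rv then en0 g.e g.i g.j else en1 g.e g.i g.j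
  ptc g.σ q.1 q.2

theorem fin3 (e : Fin 3) : e = 0 ∨ e = 1 ∨ e = 2 := by
  fin_cases e <;> simp

theorem val_tl (g : Gm C h) : C.Val h g.y g.tl.1 g.tl.2 := by
  obtain ⟨y, σ, i, j, e, rv, hi, hj, ok⟩ := g
  unfold Cov.Val tl ptc en0 en1
  rcases ok with ok | ⟨ok1, rfl⟩
  · rcases fin3 e with rfl | rfl | rfl <;> cases rv <;> cases σ <;> simp <;>
      exact ⟨by omega, by omega, Or.inl ok⟩
  · cases rv <;> cases σ <;> simp <;> omega

theorem val_hd (g : Gm C h) : C.Val h g.y g.hd.1 g.hd.2 := by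
  obtain ⟨y, σ, i, j, e, rv, hi, hj, ok⟩ := g
  unfold Cov.Val hd ptc en0 en1
  rcases ok with ok | ⟨ok1, rfl⟩
  · rcases fin3 e with rfl | rfl | rfl <;> cases rv <;> cases σ <;> simp <;>
      exact ⟨by omega, by omega, Or.inl ok⟩
  · cases rv <;> cases σ <;> simp <;> omega

/-- tail -/
def s (g : Gm C h) : Vx C h := ⟨g.y, g.tl.1, g.tl.2, g.val_tl⟩
/-- head -/
def t (g : Gm C h) : Vx C h := ⟨g.y, g.hd.1, g.hd.2, g.val_hd⟩

/-- reverse -/
def rev (g : Gm C h) : Gm C h := { g with rv := !g.rv }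

@[simp] theorem rev_rev (g : Gm C h) : g.rev.rev = g := by
  ext <;> simp [rev]

theorem s_rev (g : Gm C h) : g.rev.s = g.t := by
  obtain ⟨y, σ, i, j, e, rv, hi, hj, ok⟩ := g
  cases rv <;> rfl

theorem t_rev (g : Gm C h) : g.rev.t = g.s := by
  obtain ⟨y, σ, i, j, e, rv, hi, hj, ok⟩ := g
  cases rv <;> rfl

/-- the germ faces a hole -/
def hole (g : Gm C h) : Prop := (C.p g.y).1 ∈ Mo.D

/-- number of the next edge of the triangle -/
def nxe (e : Fin 3) (rv : Bool) : Fin 3 := if rv then e - 1 else e + 1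

theorem nxe_0f : nxe 0 false = 1 := by decide
theorem nxe_1f : nxe 1 false = 2 := by decide
theorem nxe_2f : nxe 2 false = 0 := by decide
theorem nxe_0t : nxe 0 true = 2 := by decide
theorem nxe_1t : nxe 1 true = 0 := by decide
theorem nxe_2t : nxe 2 true = 1 := by decide

/-- next edge of the triangle, starting at the head -/
def nx (g : Gm C h) (hg : ¬ g.hole) : Gm C h :=
  { g with e := nxe g.e g.rv, ok := Or.inl hg }

theorem nx_hole (g : Gm C h) (hg : ¬ g.hole) : ¬ (g.nx hg).hole := hg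

theorem s_nx (g : Gm C h) (hg : ¬ g.hole) : (g.nx hg).s = g.t := by
  obtain ⟨y, σ, i, j, e, rv, hi, hj, ok⟩ := g
  rcases fin3 e with rfl | rfl | rfl <;> cases rv <;> rfl

theorem ext' {g g' : Gm C h} (h1 : g.y = g'.y) (h2 : g.σ = g'.σ) (h3 : g.i = g'.i) (h4 : g.j = g'.j)
    (h5 : g.e = g'.e) (h6 : g.rv = g'.rv) : g = g' := Gm.ext h1 h2 h3 h4 h5 h6

theorem nx3 (g : Gm C h) (hg : ¬ g.hole) : (((g.nx hg).nx hg).nx hg) = g := by
  obtain ⟨y, σ, i, j, e, rv, hi, hj, ok⟩ := g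
  refine ext' rfl rfl rfl rfl ?_ rfl
  rcases fin3 e with rfl | rfl | rfl <;> cases rv <;>
    simp [nx, nxe_0f, nxe_1f, nxe_2f, nxe_0t, nxe_1t, nxe_2t]

theorem nx_rev (g : Gm C h) (hg : ¬ g.hole) : (g.rev.nx hg) = ((g.nx hg).nx hg).rev := by
  obtain ⟨y, σ, i, j, e, rv, hi, hj, ok⟩ := g
  refine ext' rfl rfl rfl rfl ?_ rfl
  rcases fin3 e with rfl | rfl | rfl <;> cases rv <;>
    simp [nx, rev, nxe_0f, nxe_1f, nxe_2f, nxe_0t, nxe_1t, nxe_2t]

/-- the chamber on the other side of the side `i` (`σ = false`) or `i + 1` -/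
def acr (C : Cov Mo) (σ : Bool) (y : C.Y) : C.Y := if σ then C.b y else C.a y
/-- the neighbouring kite across the ray -/
def ray (C : Cov Mo) (σ : Bool) (y : C.Y) : C.Y := if σ then C.r y else C.r.symm y

theorem acr_acr (σ : Bool) (y : C.Y) : acr C σ (acr C σ y) = y := by
  cases σ
  · exact C.a_a y
  · exact C.b_b y

theorem ray_ray (σ : Bool) (y : C.Y) : ray C (!σ) (ray C σ y) = y := by
  cases σ
  · exact C.r.apply_symm_apply y
  · exact C.r.symm_apply_apply y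

theorem ray_fst (σ : Bool) (y : C.Y) : (C.p (ray C σ y)).1 = (C.p y).1 := by
  cases σ
  · exact C.p_rsymm_fst y
  · exact C.p_r_fst y

/-- the same oriented edge seen from the other side -/
def op (g : Gm C h) : Gm C h :=
  if h0 : g.e = 0 then
    if hj0 : g.j = 0 then
      ⟨ray C g.σ g.y, !g.σ, g.i, 0, 0, g.rv, g.hi, by have := g.hi; omega,
        Or.inl (by
          rw [ray_fst]
          rcases g.ok with ok | ok
          · exact ok
          · exact absurd (h0.symm.trans ok.2) (by decide))⟩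
    else
      ⟨g.y, !g.σ, g.j - 1, g.i, 1, g.rv, by have := g.hj; omega, g.hi,
        Or.inl (by
          rcases g.ok with ok | ok
          · exact ok
          · exact absurd (h0.symm.trans ok.2) (by decide))⟩
  else if h1 : g.e = 1 then
    if hi1 : g.i + 1 = h then
      ⟨acr C g.σ g.y, g.σ, g.i, g.j, 1, g.rv, g.hi, g.hj, Or.inr ⟨hi1, rfl⟩⟩
    else
      ⟨g.y, !g.σ, g.j, g.i + 1, 0, g.rv, g.hj, by have := g.hi; omega,
        Or.inl (by
          rcases g.ok with ok | ok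
          · exact ok
          · exact absurd ok.1 hi1)⟩
  else
    ⟨g.y, !g.σ, g.j, g.i, 2, g.rv, g.hj, g.hi,
      Or.inl (by
          rcases g.ok with ok | ok
          · exact ok
          · exact absurd ok.2 h1)⟩

theorem op_e0_zero (g : Gm C h) (h0 : g.e = 0) (hj0 : g.j = 0) : g.op.y = ray C g.σ g.y ∧
    g.op.σ = !g.σ ∧ g.op.i = g.i ∧ g.op.j = 0 ∧ g.op.e = 0 ∧ g.op.rv = g.rv := by
  unfold op
  rw [dif_pos h0, dif_pos hj0]
  exact ⟨rfl, rfl, rfl, rfl, rfl, rfl⟩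

theorem op_e0_pos (g : Gm C h) (h0 : g.e = 0) (hj0 : g.j ≠ 0) : g.op.y = g.y ∧
    g.op.σ = !g.σ ∧ g.op.i = g.j - 1 ∧ g.op.j = g.i ∧ g.op.e = 1 ∧ g.op.rv = g.rv := by
  unfold op
  rw [dif_pos h0, dif_neg hj0]
  exact ⟨rfl, rfl, rfl, rfl, rfl, rfl⟩

theorem op_e1_out (g : Gm C h) (h1 : g.e = 1) (hi1 : g.i + 1 = h) : g.op.y = acr C g.σ g.y ∧
    g.op.σ = g.σ ∧ g.op.i = g.i ∧ g.op.j = g.j ∧ g.op.e = 1 ∧ g.op.rv = g.rv := by
  have h0 : ¬ g.e = 0 := by rw [h1]; decide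
  unfold op
  rw [dif_neg h0, dif_pos h1, dif_pos hi1]
  exact ⟨rfl, rfl, rfl, rfl, rfl, rfl⟩

theorem op_e1_in (g : Gm C h) (h1 : g.e = 1) (hi1 : g.i + 1 ≠ h) : g.op.y = g.y ∧
    g.op.σ = !g.σ ∧ g.op.i = g.j ∧ g.op.j = g.i + 1 ∧ g.op.e = 0 ∧ g.op.rv = g.rv := by
  have h0 : ¬ g.e = 0 := by rw [h1]; decide
  unfold op
  rw [dif_neg h0, dif_pos h1, dif_neg hi1]
  exact ⟨rfl, rfl, rfl, rfl, rfl, rfl⟩

theorem op_e2 (g : Gm C h) (h2 : g.e = 2) : g.op.y = g.y ∧
    g.op.σ = !g.σ ∧ g.op.i = g.j ∧ g.op.j = g.i ∧ g.op.e = 2 ∧ g.op.rv = g.rv := by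
  have h0 : ¬ g.e = 0 := by rw [h2]; decide
  have h1 : ¬ g.e = 1 := by rw [h2]; decide
  unfold op
  rw [dif_neg h0, dif_neg h1]
  exact ⟨rfl, rfl, rfl, rfl, rfl, rfl⟩

theorem op_op (g : Gm C h) : g.op.op = g := by
  have hhi := g.hi
  have hhj := g.hj
  rcases fin3 g.e with he | he | he
  · by_cases hj0 : g.j = 0
    · obtain ⟨a1, a2, a3, a4, a5, a6⟩ := g.op_e0_zero he hj0
      obtain ⟨b1, b2, b3, b4, b5, b6⟩ := g.op.op_e0_zero a5 a4
      refine ext' ?_ ?_ ?_ ?_ ?_ ?_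
      · rw [b1, a1, a2, ray_ray]
      · rw [b2, a2, Bool.not_not]
      · rw [b3, a3]
      · rw [b4, hj0]
      · rw [b5, he]
      · rw [b6, a6]
    · obtain ⟨a1, a2, a3, a4, a5, a6⟩ := g.op_e0_pos he hj0
      obtain ⟨b1, b2, b3, b4, b5, b6⟩ := g.op.op_e1_in a5 (by rw [a3]; omega)
      refine ext' ?_ ?_ ?_ ?_ ?_ ?_
      · rw [b1, a1]
      · rw [b2, a2, Bool.not_not]
      · rw [b3, a4]
      · rw [b4, a3]; omega
      · rw [b5, he]
      · rw [b6, a6]
  · by_cases hi1 : g.i + 1 = h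
    · obtain ⟨a1, a2, a3, a4, a5, a6⟩ := g.op_e1_out he hi1
      obtain ⟨b1, b2, b3, b4, b5, b6⟩ := g.op.op_e1_out a5 (by rw [a3]; exact hi1)
      refine ext' ?_ ?_ ?_ ?_ ?_ ?_
      · rw [b1, a1, a2, acr_acr]
      · rw [b2, a2]
      · rw [b3, a3]
      · rw [b4, a4]
      · rw [b5, he]
      · rw [b6, a6]
    · obtain ⟨a1, a2, a3, a4, a5, a6⟩ := g.op_e1_in he hi1
      obtain ⟨b1, b2, b3, b4, b5, b6⟩ := g.op.op_e0_pos a5 (by rw [a4]; omega)
      refine ext' ?_ ?_ ?_ ?_ ?_ ?_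
      · rw [b1, a1]
      · rw [b2, a2, Bool.not_not]
      · rw [b3, a4]; omega
      · rw [b4, a3]
      · rw [b5, he]
      · rw [b6, a6]
  · obtain ⟨a1, a2, a3, a4, a5, a6⟩ := g.op_e2 he
    obtain ⟨b1, b2, b3, b4, b5, b6⟩ := g.op.op_e2 a5
    refine ext' ?_ ?_ ?_ ?_ ?_ ?_
    · rw [b1, a1]
    · rw [b2, a2, Bool.not_not]
    · rw [b3, a4]
    · rw [b4, a3]
    · rw [b5, he]
    · rw [b6, a6]

theorem op_rev (g : Gm C h) : g.rev.op = g.op.rev := by
  rcases fin3 g.e with he | he | he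
  · by_cases hj0 : g.j = 0
    · obtain ⟨a1, a2, a3, a4, a5, a6⟩ := g.op_e0_zero he hj0
      obtain ⟨b1, b2, b3, b4, b5, b6⟩ := g.rev.op_e0_zero he hj0
      exact ext' (b1.trans a1.symm) (b2.trans a2.symm) (b3.trans a3.symm) (b4.trans a4.symm)
        (b5.trans a5.symm) (b6.trans (congrArg not a6.symm))
    · obtain ⟨a1, a2, a3, a4, a5, a6⟩ := g.op_e0_pos he hj0
      obtain ⟨b1, b2, b3, b4, b5, b6⟩ := g.rev.op_e0_pos he hj0
      exact ext' (b1.trans a1.symm) (b2.trans a2.symm) (b3.trans a3.symm) (b4.trans a4.symm)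
        (b5.trans a5.symm) (b6.trans (congrArg not a6.symm))
  · by_cases hi1 : g.i + 1 = h
    · obtain ⟨a1, a2, a3, a4, a5, a6⟩ := g.op_e1_out he hi1
      obtain ⟨b1, b2, b3, b4, b5, b6⟩ := g.rev.op_e1_out he hi1
      exact ext' (b1.trans a1.symm) (b2.trans a2.symm) (b3.trans a3.symm) (b4.trans a4.symm)
        (b5.trans a5.symm) (b6.trans (congrArg not a6.symm))
    · obtain ⟨a1, a2, a3, a4, a5, a6⟩ := g.op_e1_in he hi1
      obtain ⟨b1, b2, b3, b4, b5, b6⟩ := g.rev.op_e1_in he hi1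
      exact ext' (b1.trans a1.symm) (b2.trans a2.symm) (b3.trans a3.symm) (b4.trans a4.symm)
        (b5.trans a5.symm) (b6.trans (congrArg not a6.symm))
  · obtain ⟨a1, a2, a3, a4, a5, a6⟩ := g.op_e2 he
    obtain ⟨b1, b2, b3, b4, b5, b6⟩ := g.rev.op_e2 he
    exact ext' (b1.trans a1.symm) (b2.trans a2.symm) (b3.trans a3.symm) (b4.trans a4.symm)
        (b5.trans a5.symm) (b6.trans (congrArg not a6.symm))

end Gm

/-- glued pre-vertices (one step) -/
inductive Gl (C : Cov Mo) (h : ℕ) : Vx C h → Vx C h → Prop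
  | ray (y : C.Y) (i : ℕ) (v w) : Gl C h ⟨y, 0, i, v⟩ ⟨C.r y, i, 0, w⟩
  | side (y : C.Y) (j : ℕ) (v w) : Gl C h ⟨y, h, j, v⟩ ⟨C.a y, h, j, w⟩
  | side' (y : C.Y) (i : ℕ) (v w) : Gl C h ⟨y, i, h, v⟩ ⟨C.b y, i, h, w⟩

/-- glued pre-vertices -/
def Same (C : Cov Mo) (h : ℕ) : Vx C h → Vx C h → Prop := Relation.EqvGen (Gl C h)

theorem Same.refl {C : Cov Mo} {h : ℕ} (x : Vx C h) : Same C h x x := Relation.EqvGen.refl x
theorem Same.symm {C : Cov Mo} {h : ℕ} {x x' : Vx C h} (H : Same C h x x') : Same C h x' x :=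
  Relation.EqvGen.symm _ _ H
theorem Same.trans {C : Cov Mo} {h : ℕ} {x x' x'' : Vx C h} (H : Same C h x x')
    (H' : Same C h x' x'') : Same C h x x'' := Relation.EqvGen.trans _ _ _ H H'
theorem Same.of {C : Cov Mo} {h : ℕ} {x x' : Vx C h} (H : Gl C h x x') : Same C h x x' :=
  Relation.EqvGen.rel _ _ H

section
variable {C : Cov Mo} {h : ℕ}

theorem Same.of_eq {x x' : Vx C h} (h1 : x.y = x'.y) (h2 : x.i = x'.i) (h3 : x.j = x'.j) :
    Same C h x x' := by
  have : x = x' := Vx.ext h1 h2 h3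
  rw [this]; exact Same.refl _

theorem Same.ray {x x' : Vx C h} (h1 : x.i = 0) (h2 : x'.j = 0) (h3 : x'.i = x.j)
    (h4 : x'.y = C.r x.y) : Same C h x x' := by
  obtain ⟨y, i, j, v⟩ := x
  obtain ⟨y', i', j', v'⟩ := x'
  simp only at h1 h2 h3 h4
  subst h1
  subst h2
  subst h3
  subst h4
  exact Same.of (Gl.ray y i' v v')

theorem Same.side {x x' : Vx C h} (h1 : x.i = h) (h2 : x'.i = h) (h3 : x'.j = x.j)
    (h4 : x'.y = C.a x.y) : Same C h x x' := by
  obtain ⟨y, i, j, v⟩ := x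
  obtain ⟨y', i', j', v'⟩ := x'
  simp only at h1 h2 h3 h4
  subst h3 h4
  subst h1
  subst h2
  exact Same.of (Gl.side y j' v v')

theorem Same.side' {x x' : Vx C h} (h1 : x.j = h) (h2 : x'.j = h) (h3 : x'.i = x.i)
    (h4 : x'.y = C.b x.y) : Same C h x x' := by
  obtain ⟨y, i, j, v⟩ := x
  obtain ⟨y', i', j', v'⟩ := x'
  simp only at h1 h2 h3 h4
  subst h3 h4
  subst h1
  subst h2
  exact Same.of (Gl.side' y i' v v')

theorem Gm.same_op (g : Gm C h) : Same C h g.s g.op.s := by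
  rcases Gm.fin3 g.e with he | he | he
  · by_cases hj0 : g.j = 0
    · obtain ⟨a1, a2, a3, a4, a5, a6⟩ := g.op_e0_zero he hj0
      rcases hσ : g.σ with _ | _
      · refine Same.symm (Same.ray ?_ ?_ ?_ ?_)
        · simp only [Gm.s, Gm.tl, a2, a4, a5, a6, hσ, ptc, Gm.en0, Gm.en1]
          cases g.rv <;> simp
        · simp only [Gm.s, Gm.tl, hσ, he, hj0, ptc, Gm.en0, Gm.en1]
          cases g.rv <;> simp
        · simp only [Gm.s, Gm.tl, a2, a3, a5, a6, hσ, he, ptc, Gm.en0, Gm.en1]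
          cases g.rv <;> simp
        · change g.y = C.r g.op.y
          rw [a1, hσ]; exact (C.r.apply_symm_apply g.y).symm
      · refine Same.ray ?_ ?_ ?_ ?_
        · simp only [Gm.s, Gm.tl, hσ, he, hj0, ptc, Gm.en0, Gm.en1]
          cases g.rv <;> simp
        · simp only [Gm.s, Gm.tl, a2, a4, a5, a6, hσ, ptc, Gm.en0, Gm.en1]
          cases g.rv <;> simp
        · simp only [Gm.s, Gm.tl, a2, a3, a5, a6, hσ, he, ptc, Gm.en0, Gm.en1]
          cases g.rv <;> simp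
        · change g.op.y = C.r g.y
          rw [a1, hσ]; rfl
    · obtain ⟨a1, a2, a3, a4, a5, a6⟩ := g.op_e0_pos he hj0
      have hj1 : g.j - 1 + 1 = g.j := by omega
      refine Same.of_eq a1.symm ?_ ?_ <;>
      · simp only [Gm.s, Gm.tl, a2, a3, a4, a5, a6, he, ptc, Gm.en0, Gm.en1]
        cases g.σ <;> cases g.rv <;> simp [hj1]
  · by_cases hi1 : g.i + 1 = h
    · obtain ⟨a1, a2, a3, a4, a5, a6⟩ := g.op_e1_out he hi1
      rcases hσ : g.σ with _ | _
      · refine Same.side ?_ ?_ ?_ ?_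
        · simp only [Gm.s, Gm.tl, hσ, he, ptc, Gm.en0, Gm.en1]
          cases g.rv <;> simp [hi1]
        · simp only [Gm.s, Gm.tl, a2, a3, a4, a5, a6, hσ, ptc, Gm.en0, Gm.en1]
          cases g.rv <;> simp [hi1]
        · simp only [Gm.s, Gm.tl, a2, a3, a4, a5, a6, hσ, he, ptc, Gm.en0, Gm.en1]
        · change g.op.y = C.a g.y
          rw [a1, hσ]; rfl
      · refine Same.side' ?_ ?_ ?_ ?_
        · simp only [Gm.s, Gm.tl, hσ, he, ptc, Gm.en0, Gm.en1]
          cases g.rv <;> simp [hi1]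
        · simp only [Gm.s, Gm.tl, a2, a3, a4, a5, a6, hσ, ptc, Gm.en0, Gm.en1]
          cases g.rv <;> simp [hi1]
        · simp only [Gm.s, Gm.tl, a2, a3, a4, a5, a6, hσ, he, ptc, Gm.en0, Gm.en1]
        · change g.op.y = C.b g.y
          rw [a1, hσ]; rfl
    · obtain ⟨a1, a2, a3, a4, a5, a6⟩ := g.op_e1_in he hi1
      refine Same.of_eq a1.symm ?_ ?_ <;>
      · simp only [Gm.s, Gm.tl, a2, a3, a4, a5, a6, he, ptc, Gm.en0, Gm.en1]
        cases g.σ <;> cases g.rv <;> simp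
  · obtain ⟨a1, a2, a3, a4, a5, a6⟩ := g.op_e2 he
    refine Same.of_eq a1.symm ?_ ?_ <;>
    · simp only [Gm.s, Gm.tl, a2, a3, a4, a5, a6, he, ptc, Gm.en0, Gm.en1]
      cases g.σ <;> cases g.rv <;> simp

theorem Gm.same_op_t (g : Gm C h) : Same C h g.t g.op.t := by
  have := g.rev.same_op
  rwa [Gm.op_rev, Gm.s_rev, Gm.s_rev] at this

/-- labels of the pre-vertices of a covering -/
def Vx.lab {Λ : Type} (l : Lab Mo h Λ) (x : Vx C h) : Λ := l.l (C.p x.y) x.i x.j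

theorem Vx.lab_same {Λ : Type} (l : Lab Mo h Λ) {x x' : Vx C h} (H : Same C h x x') :
    x.lab l = x'.lab l := by
  induction H with
  | rel x x' H =>
    cases H with
    | ray y i v w =>
      unfold Vx.lab
      simp only
      rw [C.p_r]
      refine (l.ray _ i v.2.1 ?_).symm
      rcases v.2.2 with hv | hv | hv
      · exact Or.inl hv
      · have h1 : i ≤ h := v.2.1
        exact Or.inr (by omega)
      · exact Or.inr hv
    | side y j v w =>
      unfold Vx.lab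
      simp only
      rw [C.p_a]
      exact (l.side _ j v.2.1).symm
    | side' y i v w =>
      unfold Vx.lab
      simp only
      rw [C.p_b]
      exact (l.side' _ i v.1).symm
  | refl x => rfl
  | symm x x' _ ih => exact ih.symm
  | trans x x' x'' _ _ ih1 ih2 => exact ih1.trans ih2

theorem two_comm {Λ : Type} {x y z : Λ} (H : Two x y z) : Two y z x ∧ Two z x y ∧ Two y x z ∧
    Two x z y ∧ Two z y x := by
  unfold Two at *
  rcases H with rfl | rfl | rfl <;> simp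

theorem Gm.two {Λ : Type} (l : Lab Mo h Λ) (g : Gm C h) (hg : ¬ g.hole) :
    Two (g.s.lab l) (g.t.lab l) ((g.nx hg).t.lab l) := by
  obtain ⟨y, σ, i, j, e, rv, hi, hj, ok⟩ := g
  have hg' : (C.p y).1 ∉ Mo.D := hg
  obtain ⟨h1, -⟩ := l.tri (C.p y) hg' i j hi hj
  obtain ⟨-, h2⟩ := l.tri (C.p y) hg' j i hj hi
  have k1 := two_comm h1
  have k2 := two_comm h2
  rcases Gm.fin3 e with rfl | rfl | rfl <;> cases rv <;> cases σ <;>
    simp only [Vx.lab, Gm.s, Gm.t, Gm.nx, Gm.tl, Gm.hd, ptc, Gm.en0, Gm.en1, Gm.nxe_0f, Gm.nxe_1f,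
      Gm.nxe_2f, Gm.nxe_0t, Gm.nxe_1t, Gm.nxe_2t] <;>
    simp <;>
    first
      | exact h1
      | exact k1.1
      | exact k1.2.1
      | exact k1.2.2.1
      | exact k1.2.2.2.1
      | exact k1.2.2.2.2
      | exact h2
      | exact k2.1
      | exact k2.2.1
      | exact k2.2.2.1
      | exact k2.2.2.2.1
      | exact k2.2.2.2.2

end

end Pool.CX
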