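import Pool.Agent.Work.MP_727c87_cx.C1.Inst

set_option autoImplicit false

/-! # MP_727c87, part C1: corners and visited flags of the tracks of the fine complex -/

namespace Pool.CX

open Relation

variable {Mo : Model}

variable {C : Cov Mo} {h : ℕ} {Λ : Type} {l : Lab Mo h Λ}

/-! ### the kites -/

/-- joined by a germ of the kite of `y` -/
def InK (y : C.Y) (u v : Vx C h) : Prop := ∃ g : Gm C h, g.y = y ∧ g.s = u ∧ g.t = v

theorem InK.symm {y : C.Y} {u v : Vx C h} (H : InK y u v) : InK y v u := by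
  obtain ⟨g, h1, h2, h3⟩ := H
  exact ⟨g.rev, h1, by rw [Gm.s_rev, h3], by rw [Gm.t_rev, h2]⟩

theorem inK_symm {y : C.Y} {u v : Vx C h} (H : ReflTransGen (InK y) u v) :
    ReflTransGen (InK y) v u := by
  induction H with
  | refl => exact ReflTransGen.refl
  | tail _ h2 ih => exact ReflTransGen.head h2.symm ih

/-- the corner of a flag -/
def cor (y : C.Y) : Vx C h := ⟨y, h, h, le_refl h, le_refl h, Or.inr (Or.inl rfl)⟩

/-- the middle of the side of the flag -/
def fmid (y : C.Y) : Vx C h := ⟨y, h, 0, le_refl h, Nat.zero_le h, Or.inr (Or.inl rfl)⟩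

theorem out_false (y : C.Y) (j : ℕ) (hj : j < h) (v w) :
    InK (h := h) y ⟨y, h, j, v⟩ ⟨y, h, j + 1, w⟩ := by
  refine ⟨Gm.out y false j hj, rfl, ?_, ?_⟩
  · refine Vx.ext rfl ?_ ?_
    · simp [Gm.out, Gm.s, Gm.tl, ptc, Gm.en0]; omega
    · simp [Gm.out, Gm.s, Gm.tl, ptc, Gm.en0]
  · refine Vx.ext rfl ?_ ?_
    · simp [Gm.out, Gm.t, Gm.hd, ptc, Gm.en1]; omega
    · simp [Gm.out, Gm.t, Gm.hd, ptc, Gm.en1]

theorem out_true (y : C.Y) (i : ℕ) (hi : i < h) (v w) :
    InK (h := h) y ⟨y, i, h, v⟩ ⟨y, i + 1, h, w⟩ := by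
  refine ⟨Gm.out y true i hi, rfl, ?_, ?_⟩
  · refine Vx.ext rfl ?_ ?_
    · simp [Gm.out, Gm.s, Gm.tl, ptc, Gm.en0]
    · simp [Gm.out, Gm.s, Gm.tl, ptc, Gm.en0]; omega
  · refine Vx.ext rfl ?_ ?_
    · simp [Gm.out, Gm.t, Gm.hd, ptc, Gm.en1]
    · simp [Gm.out, Gm.t, Gm.hd, ptc, Gm.en1]; omega

theorem side_conn (y : C.Y) (n : ℕ) : ∀ (j : ℕ) (_ : j + n = h) (v : C.Val h y h j),
    ReflTransGen (InK (h := h) y) ⟨y, h, j, v⟩ (cor y) := by
  induction n with
  | zero =>
    intro j hj v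
    have : j = h := by omega
    subst this
    exact ReflTransGen.refl
  | succ n ih =>
    intro j hj v
    exact ReflTransGen.head (out_false y j (by omega) v ⟨le_refl h, by omega, Or.inr (Or.inl rfl)⟩)
      (ih (j + 1) (by omega) _)

theorem side_conn' (y : C.Y) (n : ℕ) : ∀ (i : ℕ) (_ : i + n = h) (v : C.Val h y i h),
    ReflTransGen (InK (h := h) y) ⟨y, i, h, v⟩ (cor y) := by
  induction n with
  | zero =>
    intro i hi v
    have : i = h := by omega
    subst this
    exact ReflTransGen.refl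
  | succ n ih =>
    intro i hi v
    exact ReflTransGen.head (out_true y i (by omega) v ⟨by omega, le_refl h, Or.inr (Or.inr rfl)⟩)
      (ih (i + 1) (by omega) _)

theorem row_conn (y : C.Y) (hy : (C.p y).1 ∉ Mo.D) (j : ℕ) (hj : j < h) (n : ℕ) :
    ∀ (i : ℕ) (_ : i + n = h) (v : C.Val h y i j),
      ReflTransGen (InK (h := h) y) ⟨y, i, j, v⟩ (cor y) := by
  induction n with
  | zero =>
    intro i hi v
    have : i = h := by omega
    subst this
    exact side_conn y (i - j) j (by omega) v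
  | succ n ih =>
    intro i hi v
    have hg : InK (h := h) y ⟨y, i, j, v⟩ ⟨y, i + 1, j, by omega, by omega, Or.inl hy⟩ := by
      refine ⟨⟨y, false, i, j, 0, false, by omega, hj, Or.inl hy⟩, rfl, ?_, ?_⟩
      · refine Vx.ext rfl ?_ ?_ <;> simp [Gm.s, Gm.tl, ptc, Gm.en0]
      · refine Vx.ext rfl ?_ ?_ <;> simp [Gm.t, Gm.hd, ptc, Gm.en1]
    exact ReflTransGen.head hg (ih (i + 1) (by omega) _)

/-- every vertex is joined to the corner inside the kite -/
theorem kite_conn (x : Vx C h) : ReflTransGen (InK x.y) x (cor x.y) := by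
  obtain ⟨y, i, j, v⟩ := x
  have hi : i ≤ h := v.1
  have hj : j ≤ h := v.2.1
  by_cases hjh : j = h
  · subst hjh
    exact side_conn' y (j - i) i (by omega) v
  by_cases hih : i = h
  · subst hih
    exact side_conn y (i - j) j (by omega) v
  · have hy : (C.p y).1 ∉ Mo.D := by
      rcases v.2.2 with hv | hv | hv
      · exact hv
      · exact absurd hv hih
      · exact absurd hv hjh
    exact row_conn y hy j (by omega) (h - i) i (by omega) v

theorem InK.adj {y : C.Y} {u v : Vx C h} (H : InK y u v) : (fineCx C h l).Adj u v := by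
  obtain ⟨g, -, h2, h3⟩ := H
  exact Or.inr ⟨g, h2, h3⟩

theorem adj_of_inK {y : C.Y} {u v : Vx C h} (H : ReflTransGen (InK y) u v) :
    ReflTransGen (fineCx C h l).Adj u v := by
  induction H with
  | refl => exact ReflTransGen.refl
  | tail _ h2 ih => exact ih.tail h2.adj

theorem reach_symm' {u v : Vx C h} (H : ReflTransGen (fineCx C h l).Adj u v) :
    ReflTransGen (fineCx C h l).Adj v u := by
  induction H with
  | refl => exact ReflTransGen.refl
  | tail _ h2 ih => exact ReflTransGen.head h2.symm ih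

theorem same_a (y : C.Y) : Same C h (cor y) (cor (C.a y)) := Same.side rfl rfl rfl rfl

theorem same_b (y : C.Y) : Same C h (cor y) (cor (C.b y)) := Same.side' rfl rfl rfl rfl

/-- the middle of the other side of the kite -/
def fmid' (y : C.Y) : Vx C h := ⟨y, 0, h, Nat.zero_le h, le_refl h, Or.inr (Or.inr rfl)⟩

theorem same_mid' (y : C.Y) : Same C h (fmid' y) (fmid (C.r y)) := Same.ray rfl rfl rfl rfl

theorem adj_cor_r (y : C.Y) : ReflTransGen (fineCx C h l).Adj (cor y) (cor (C.r y)) := by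
  refine (adj_of_inK (inK_symm (kite_conn (fmid' y)))).trans ?_
  refine ReflTransGen.head (b := fmid (C.r y)) (Or.inl (same_mid' y)) ?_
  exact adj_of_inK (kite_conn (fmid (C.r y)))

theorem adj_cor (hC : C.Conn) (y y' : C.Y) : ReflTransGen (fineCx C h l).Adj (cor y) (cor y') := by
  have h1 := hC y y'
  induction h1 with
  | refl => exact ReflTransGen.refl
  | @tail u v _ h2 ih =>
    refine ih.trans ?_
    rcases h2 with rfl | rfl | rfl
    · exact ReflTransGen.single (Or.inl (same_a u))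
    · exact adj_cor_r u
    · have h3 := reach_symm' (adj_cor_r (l := l) (C.r.symm u))
      rwa [Equiv.apply_symm_apply] at h3

/-- the fine complex is connected -/
theorem fine_conn (hC : C.Conn) : (fineCx C h l).Conn := by
  intro x x'
  exact ((adj_of_inK (kite_conn x)).trans (adj_cor hC x.y x'.y)).trans
    (reach_symm' (adj_of_inK (kite_conn x')))

/-! ### corners and visited flags of a track -/

/-- corners on the head side -/
def Hc (c : (fineCx C h l).Tr) : Set C.Y := {y | cor y ∈ GCx.H c}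

/-- visited flags -/
def vis (c : (fineCx C h l).Tr) : Set C.Y :=
  {y | ∃ g : Gm C h, GCx.On c g ∧ (g.y = y ∨ C.r g.y = y)}

theorem mem_iff_inK {c : (fineCx C h l).Tr} {y : C.Y} (hno : ∀ g : Gm C h, g.y = y → ¬ GCx.On c g)
    {u v : Vx C h} (H : ReflTransGen (InK y) u v) : u ∈ GCx.H c ↔ v ∈ GCx.H c := by
  induction H with
  | refl => exact Iff.rfl
  | tail _ h2 ih =>
    refine ih.trans ?_
    obtain ⟨g, h3, h4, h5⟩ := h2
    exact GCx.mem_iff_of_av (Or.inr ⟨g, h4, h5, hno g h3⟩)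

theorem mem_iff_cor {c : (fineCx C h l).Tr} {x : Vx C h}
    (hno : ∀ g : Gm C h, g.y = x.y → ¬ GCx.On c g) : x ∈ GCx.H c ↔ x.y ∈ Hc c :=
  mem_iff_inK hno (kite_conn x)

theorem Hc_a (c : (fineCx C h l).Tr) (y : C.Y) : C.a y ∈ Hc c ↔ y ∈ Hc c :=
  (GCx.mem_iff_of_same c (same_a y)).symm

theorem Hc_b (c : (fineCx C h l).Tr) (y : C.Y) : C.b y ∈ Hc c ↔ y ∈ Hc c :=
  (GCx.mem_iff_of_same c (same_b y)).symm

/-- the boundary of the side of a track is visited -/
theorem Hc_bd (c : (fineCx C h l).Tr) (y : C.Y) (hy : ¬ (C.r y ∈ Hc c ↔ y ∈ Hc c)) :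
    C.r y ∈ vis c := by
  by_contra hcon
  have h1 : ∀ g : Gm C h, g.y = y → ¬ GCx.On c g := fun g hg hon =>
    hcon ⟨g, hon, Or.inr (by rw [hg])⟩
  have h2 : ∀ g : Gm C h, g.y = C.r y → ¬ GCx.On c g := fun g hg hon =>
    hcon ⟨g, hon, Or.inl hg⟩
  apply hy
  have e1 := mem_iff_inK h1 (kite_conn (fmid' y))
  have e2 := mem_iff_inK h2 (kite_conn (fmid (C.r y)))
  have e3 := GCx.mem_iff_of_same c (same_mid' (h := h) y)
  exact e2.symm.trans (e3.symm.trans e1)

theorem vis_rev (c : (fineCx C h l).Tr) : vis c.rev = vis c := by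
  ext y
  constructor
  · rintro ⟨g, h1, h2⟩
    exact ⟨g, GCx.on_rev.1 h1, h2⟩
  · rintro ⟨g, h1, h2⟩
    exact ⟨g, GCx.on_rev.2 h1, h2⟩

end Pool.CX
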