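import Pool.Agent.Work.MP_727c87_cx.C1.Germ

set_option autoImplicit false

/-!
# Paths and the tracks they cross, germ form (MP_727c87_gt, part C1, abstract)
-/

namespace Pool.CX.GCx

variable {V L : Type} {X : GCx V L}

/-- a path from `x` to `y` which crosses the tracks of the list, in this order -/
inductive Pth : List X.Tr → V → V → Prop
  | nil (x : V) : Pth [] x x
  | mono {K : List X.Tr} {x y z : V} : Pth K x y → X.Mono y z → Pth K x z
  | cross {K : List X.Tr} {x : V} (e : X.BG) : Pth K x (X.s e.1) → Pth (K ++ [cls e]) x (X.t e.1)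

theorem Pth.of_reg {x y : V} (h : X.Reg x y) : Pth ([] : List X.Tr) x y := by
  induction h with
  | refl => exact Pth.nil _
  | tail _ h2 ih => exact Pth.mono ih h2

theorem Pth.trans {K K' : List X.Tr} {x y z : V} (h : Pth K x y) (h' : Pth K' y z) :
    Pth (K ++ K') x z := by
  induction h' with
  | nil => simpa using h
  | mono _ h2 ih => exact Pth.mono (ih h) h2
  | cross e _ ih =>
    rw [← List.append_assoc]
    exact Pth.cross e (ih h)

theorem Pth.trans_reg {K : List X.Tr} {x y z : V} (h : Pth K x y) (h' : X.Reg y z) :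
    Pth K x z := by
  have := h.trans (Pth.of_reg h')
  rwa [List.append_nil] at this

theorem Pth.reg_trans {K : List X.Tr} {x y z : V} (h : X.Reg x y) (h' : Pth K y z) :
    Pth K x z := by
  have := (Pth.of_reg h).trans h'
  rwa [List.nil_append] at this

/-- one germ -/
theorem Pth.of_germ (g : X.Gm) : ∃ K : List X.Tr, Pth K (X.s g) (X.t g) := by
  by_cases hl : X.l (X.s g) = X.l (X.t g)
  · exact ⟨[], Pth.mono (Pth.nil _) (Or.inr ⟨g, rfl, rfl, hl⟩)⟩
  · exact ⟨_, Pth.cross (X := X) ⟨g, hl⟩ (Pth.nil _)⟩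

/-- one edge -/
theorem Pth.of_adj {x y : V} (h : X.Adj x y) : ∃ K : List X.Tr, Pth K x y := by
  rcases h with h | ⟨g, rfl, rfl⟩
  · exact ⟨[], Pth.mono (Pth.nil x) (Or.inl h)⟩
  · exact Pth.of_germ g

theorem exists_pth (hX : X.Conn) (x y : V) : ∃ K : List X.Tr, Pth K x y := by
  have h := hX x y
  induction h with
  | refl => exact ⟨[], Pth.nil x⟩
  | tail _ h2 ih =>
    obtain ⟨K, hK⟩ := ih
    obtain ⟨K', hK'⟩ := Pth.of_adj h2
    exact ⟨K ++ K', hK.trans hK'⟩

theorem Pth.reg_of_nil {K : List X.Tr} {x y : V} (h : Pth K x y) (hK : K = []) : X.Reg x y := by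
  induction h with
  | nil => exact Relation.ReflTransGen.refl
  | mono _ h2 ih => exact (ih hK).tail h2
  | cross e _ _ => simp at hK

/-- split a path at a crossing -/
theorem Pth.split {K : List X.Tr} {x y : V} (h : Pth K x y) :
    ∀ (K1 K2 : List X.Tr) (c : X.Tr), K = K1 ++ c :: K2 →
      ∃ e : X.BG, cls e = c ∧ Pth K1 x (X.s e.1) ∧ Pth K2 (X.t e.1) y := by
  induction h with
  | nil =>
    intro K1 K2 c h
    simp at h
  | mono _ h2 ih =>
    intro K1 K2 c h
    obtain ⟨e, h3, h4, h5⟩ := ih K1 K2 c h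
    exact ⟨e, h3, h4, Pth.mono h5 h2⟩
  | @cross K' x' e h1 ih =>
    intro K1 K2 c h
    rcases List.eq_nil_or_concat K2 with h2 | ⟨K3, d, h2⟩
    · subst h2
      have h3 := List.append_inj' (s₁ := K') (t₁ := [cls e]) (s₂ := K1) (t₂ := [c]) h rfl
      have h4 : cls e = c := by simpa using h3.2
      refine ⟨e, h4, ?_, Pth.nil _⟩
      rw [← h3.1]
      exact h1
    · subst h2
      have h2 : K' ++ [cls e] = (K1 ++ c :: K3) ++ [d] := by
        rw [h]
        simp
      have h3 := List.append_inj' h2 rfl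
      obtain ⟨f, h5, h6, h7⟩ := ih K1 K3 c h3.1
      have h4 : cls e = d := by simpa using h3.2
      refine ⟨f, h5, h6, ?_⟩
      rw [List.concat_eq_append, ← h4]
      exact Pth.cross e h7

/-- a path crossing neither `c` nor `c.rev` stays on one side of `c` -/
theorem Pth.mem_iff {K : List X.Tr} {x y : V} (h : Pth K x y) {c : X.Tr}
    (h1 : c ∉ K) (h2 : c.rev ∉ K) : x ∈ H c ↔ y ∈ H c := by
  induction h with
  | nil => exact Iff.rfl
  | mono _ h4 ih => exact (ih h1 h2).trans (mem_iff_of_mono c h4)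
  | @cross K' x' e _ ih =>
    rw [List.mem_append] at h1 h2
    refine (ih (fun h => h1 (Or.inl h)) (fun h => h2 (Or.inl h))).trans ?_
    apply mem_iff_of_av
    refine Or.inr ⟨e.1, rfl, rfl, ?_⟩
    rw [on_iff_cls]
    rintro (h | h)
    · exact h1 (Or.inr (by rw [← h]; simp))
    · exact h2 (Or.inr (by rw [← h]; simp))

/-- a path which leaves `H c` crosses `c.rev` -/
theorem Pth.rev_mem (hX : X.Conn) {K : List X.Tr} {x y : V} (h : Pth K x y) {c : X.Tr}
    (hc : HasSide c) (hx : x ∈ H c) (hy : y ∉ H c) : c.rev ∈ K := by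
  induction h with
  | nil => exact absurd hx hy
  | @mono K' x' y' z' _ h4 ih => exact ih hx (fun h => hy ((mem_iff_of_mono c h4).1 h))
  | @cross K' x' e _ ih =>
    rw [List.mem_append]
    by_cases he : X.s e.1 ∈ H c
    · right
      have h1 : X.s e.rev.1 = X.t e.1 := X.s_rev _
      have h2 : X.t e.rev.1 = X.s e.1 := X.t_rev _
      obtain ⟨f, hf1, hf3⟩ := cls_of_cross hX hc (g := e.rev.1) (by rw [h1]; exact hy)
        (by rw [h2]; exact he)
      rw [List.mem_singleton, ← hf3, BG.ext hf1, rev_cls, BG.rev_rev]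
    · exact Or.inl (ih hx he)

/-- along a path in a set, some edge leads into a second set -/
theorem exists_step {r : V → V → Prop} {p : V → Prop} {x y : V}
    (h : Relation.ReflTransGen r x y) (hx : ¬ p x) (hy : p y) : ∃ u v, r u v ∧ ¬ p u ∧ p v := by
  induction h with
  | refl => exact absurd hy hx
  | @tail u v _ h2 ih =>
    by_cases hu : p u
    · exact ih hu
    · exact ⟨u, v, h2, hu, hy⟩

theorem exists_first {α : Type*} (P : α → Prop) (K : List α) (h : ∃ c ∈ K, P c) :
    ∃ K1 c K2, K = K1 ++ c :: K2 ∧ P c ∧ ∀ d ∈ K1, ¬ P d := by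
  induction K with
  | nil => simp at h
  | cons a K ih =>
    by_cases ha : P a
    · exact ⟨[], a, K, rfl, ha, by simp⟩
    · obtain ⟨c, hc, hc'⟩ := h
      have hc2 : c ∈ K := by
        rcases List.mem_cons.1 hc with h | h
        · rw [h] at hc'
          exact absurd hc' ha
        · exact h
      obtain ⟨K1, c', K2, h1, h2, h3⟩ := ih ⟨c, hc2, hc'⟩
      refine ⟨a :: K1, c', K2, by rw [h1]; rfl, h2, ?_⟩
      intro d hd
      rcases List.mem_cons.1 hd with h | h
      · rw [h]; exact ha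
      · exact h3 d h

theorem not_pairwise {α : Type*} (R : α → α → Prop) (K : List α) (h : ¬ K.Pairwise R) :
    ∃ K1 c K2 c' K3, K = K1 ++ c :: (K2 ++ c' :: K3) ∧ ¬ R c c' := by
  induction K with
  | nil => simp at h
  | cons a K ih =>
    rw [List.pairwise_cons] at h
    by_cases h1 : ∀ c' ∈ K, R a c'
    · have h2 : ¬ K.Pairwise R := fun h2 => h ⟨h1, h2⟩
      obtain ⟨K1, c, K2, c', K3, h3, h4⟩ := ih h2
      exact ⟨a :: K1, c, K2, c', K3, by rw [h3]; rfl, h4⟩
    · push Not at h1
      obtain ⟨c', hc', hR⟩ := h1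
      obtain ⟨K2, K3, h3⟩ := List.append_of_mem hc'
      exact ⟨[], a, K2, c', K3, by rw [h3]; rfl, hR⟩

/-- the two tracks are different, also up to reversal -/
def Ne2 (c c' : X.Tr) : Prop := c' ≠ c ∧ c' ≠ c.rev

open Classical in
/-- **Completeness.** Two connected sets are separated by a track with `P`, or they are joined by a path which crosses no
track with `P` and crosses every track at most once. -/
theorem separated_or_free (hX : X.Conn) (P : X.Tr → Prop) (hP : ∀ c, P c → P c.rev)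
    (hS : ∀ c, P c → HasSide c)
    {A B : Set V} (hA : A.Nonempty) (hB : B.Nonempty)
    (hAc : ∀ a ∈ A, ∀ a' ∈ A,
      Relation.ReflTransGen (fun u v => X.Adj u v ∧ u ∈ A ∧ v ∈ A) a a')
    (hBc : ∀ b ∈ B, ∀ b' ∈ B,
      Relation.ReflTransGen (fun u v => X.Adj u v ∧ u ∈ B ∧ v ∈ B) b b') :
    (∃ c, P c ∧ A ⊆ (H c)ᶜ ∧ B ⊆ H c) ∨
      ∃ a ∈ A, ∃ b ∈ B, ∃ K : List X.Tr, Pth K a b ∧ (∀ c ∈ K, ¬ P c) ∧ K.Pairwise Ne2 := by
  by_cases hfree : ∃ a ∈ A, ∃ b ∈ B, ∃ K : List X.Tr, Pth K a b ∧ ∀ c ∈ K, ¬ P c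
  · right
    -- minimal length
    have hex : ∃ n : ℕ, ∃ a ∈ A, ∃ b ∈ B, ∃ K : List X.Tr,
        Pth K a b ∧ (∀ c ∈ K, ¬ P c) ∧ K.length = n := by
      obtain ⟨a, ha, b, hb, K, h1, h2⟩ := hfree
      exact ⟨_, a, ha, b, hb, K, h1, h2, rfl⟩
    obtain ⟨a, ha, b, hb, K, h1, h2, h3⟩ := Nat.find_spec hex
    have hmin := fun m => Nat.find_min hex (m := m)
    refine ⟨a, ha, b, hb, K, h1, h2, ?_⟩
    by_contra hnp
    obtain ⟨K1, c, K2, c', K3, h4, h5⟩ := not_pairwise Ne2 K hnp
    obtain ⟨e, he, hp1, hp2⟩ := h1.split K1 (K2 ++ c' :: K3) c h4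
    obtain ⟨f, hf, _, hp4⟩ := hp2.split K2 K3 c' rfl
    have hlen : K.length = K1.length + 1 + K2.length + 1 + K3.length := by
      rw [h4]
      simp
      omega
    have hcc : c' = c ∨ c' = c.rev := by
      by_contra hcon
      push Not at hcon
      exact h5 ⟨hcon.1, hcon.2⟩
    rcases hcc with hcc | hcc
    · have hreg : X.Reg (X.s e.1) (X.s f.1) := (reg_of_cls_eq (he.trans (by rw [hf, hcc]))).1
      have hpath : Pth ((K1 ++ [cls f]) ++ K3) a b :=
        (Pth.cross f (hp1.trans_reg hreg)).trans hp4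
      refine hmin (K1.length + 1 + K3.length) ?_ ⟨a, ha, b, hb, _, hpath, ?_, by
        rw [List.length_append, List.length_append, List.length_singleton]⟩
      · rw [← h3, hlen]
        omega
      · intro d hd
        apply h2 d
        rw [h4]
        rw [hf] at hd
        simp only [List.mem_append, List.mem_cons, List.not_mem_nil, or_false] at hd ⊢
        tauto
    · have hf' : cls f.rev = c := by rw [← rev_cls, hf, hcc, Tr.rev_rev]
      have hreg : X.Reg (X.s e.1) (X.t f.1) := by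
        have := (reg_of_cls_eq (he.trans hf'.symm)).1
        have h6 : X.s f.rev.1 = X.t f.1 := X.s_rev _
        rwa [h6] at this
      have hpath : Pth (K1 ++ K3) a b := (hp1.trans_reg hreg).trans hp4
      refine hmin (K1.length + K3.length) ?_ ⟨a, ha, b, hb, _, hpath, ?_, by simp⟩
      · rw [← h3, hlen]
        omega
      · intro d hd
        apply h2 d
        rw [h4]
        simp only [List.mem_append, List.mem_cons] at hd ⊢
        tauto
  · left
    push Not at hfree
    have hex : ∃ n : ℕ, ∃ a ∈ A, ∃ b ∈ B, ∃ K : List X.Tr,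
        Pth K a b ∧ K.countP (fun c => decide (P c)) = n := by
      obtain ⟨a, ha⟩ := hA
      obtain ⟨b, hb⟩ := hB
      obtain ⟨K, hK⟩ := exists_pth hX a b
      exact ⟨_, a, ha, b, hb, K, hK, rfl⟩
    obtain ⟨a, ha, b, hb, K, h1, h3⟩ := Nat.find_spec hex
    have hmin := fun m => Nat.find_min hex (m := m)
    obtain ⟨K1, c, K2, h4, hPc, hfr⟩ := exists_first P K (hfree a ha b hb K h1)
    obtain ⟨e, he, hp1, hp2⟩ := h1.split K1 K2 c h4
    have hsc : HasSide c := hS c hPc
    have hc1 : K1.countP (fun c => decide (P c)) = 0 := by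
      rw [List.countP_eq_zero]
      intro d hd
      simpa using hfr d hd
    have hcount : K.countP (fun c => decide (P c)) =
        K2.countP (fun c => decide (P c)) + 1 := by
      rw [h4, List.countP_append, hc1, List.countP_cons]
      simp [hPc]
    have haH : a ∉ H c := by
      rw [hp1.mem_iff (fun h => hfr c h hPc) (fun h => hfr _ h (hP c hPc))]
      exact tail_notMem hX hsc he
    -- A lies outside
    have hAout : A ⊆ (H c)ᶜ := by
      intro a' ha' haH'
      obtain ⟨u, v, ⟨huv, _, hvA⟩, hu, hv⟩ :=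
        exists_step (p := fun x => x ∈ H c) (hAc a ha a' ha') haH haH'
      obtain ⟨f, _, hf2, hf3⟩ := adj_cross hX hsc huv hu hv
      have hreg : X.Reg (X.t f.1) (X.t e.1) := (reg_of_cls_eq (hf3.trans he.symm)).2
      rw [hf2] at hreg
      exact hmin _ (by rw [← h3, hcount]; exact Nat.lt_succ_self _)
        ⟨v, hvA, b, hb, K2, hp2.reg_trans hreg, rfl⟩
    have hbH : b ∈ H c := by
      by_contra hbH
      have hmem := hp2.rev_mem hX hsc (head_mem he) hbH
      obtain ⟨K3, K4, h5⟩ := List.append_of_mem hmem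
      obtain ⟨f, hf, _, hp4⟩ := hp2.split K3 K4 c.rev h5
      have hf' : cls f.rev = c := by rw [← rev_cls, hf, Tr.rev_rev]
      have hreg : X.Reg (X.s e.1) (X.t f.1) := by
        have := (reg_of_cls_eq (he.trans hf'.symm)).1
        have h6 : X.s f.rev.1 = X.t f.1 := X.s_rev _
        rwa [h6] at this
      have hpath : Pth (K1 ++ K4) a b := (hp1.trans_reg hreg).trans hp4
      refine hmin _ ?_ ⟨a, ha, b, hb, _, hpath, rfl⟩
      rw [← h3, hcount, List.countP_append, hc1, zero_add, h5, List.countP_append,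
        List.countP_cons]
      omega
    refine ⟨c, hPc, hAout, ?_⟩
    intro b' hb'
    by_contra hbH'
    obtain ⟨u, v, ⟨huv, _, hvB⟩, hu, hv⟩ :=
      exists_step (p := fun x => x ∉ H c) (hBc b hb b' hb') (fun h => h hbH) hbH'
    rw [not_not] at hu
    obtain ⟨f, hf1, _, hf3⟩ := adj_cross hX hsc huv.symm hv hu
    have hreg : X.Reg (X.s e.1) (X.s f.1) := (reg_of_cls_eq (he.trans hf3.symm)).1
    rw [hf1] at hreg
    exact hmin _ (by rw [← h3, hcount, hc1]; exact Nat.succ_pos _)
      ⟨a, ha, v, hvB, K1, hp1.trans_reg hreg, rfl⟩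

/-- the tracks crossed by a path which crosses every track at most once separate its ends -/
theorem Pth.separates (hX : X.Conn) {K : List X.Tr} {a b : V} (h : Pth K a b)
    (hK : K.Pairwise Ne2) {K1 K2 : List X.Tr} {c : X.Tr} (h1 : K = K1 ++ c :: K2)
    (hc : HasSide c) : a ∉ H c ∧ b ∈ H c := by
  obtain ⟨e, he, hp1, hp2⟩ := h.split K1 K2 c h1
  rw [h1, List.pairwise_append] at hK
  obtain ⟨_, h3, h4⟩ := hK
  rw [List.pairwise_cons] at h3
  constructor
  · rw [hp1.mem_iff (fun h => (h4 c h c (List.mem_cons_self ..)).1 rfl)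
      (fun h => (h4 _ h c (List.mem_cons_self ..)).2 (Tr.rev_rev c).symm)]
    exact tail_notMem hX hc he
  · rw [← hp2.mem_iff (fun h => (h3.1 c h).1 rfl) (fun h => (h3.1 _ h).2 rfl)]
    exact head_mem he

/-- ... and they are nested in the order in which they are crossed -/
theorem Pth.nested (hX : X.Conn) {K : List X.Tr} {a b : V} (h : Pth K a b)
    (hK : K.Pairwise Ne2) (hS : ∀ c ∈ K, HasSide c) :
    K.Pairwise (fun c c' => H c' ⊆ H c) := by
  by_contra hcon
  obtain ⟨K1, c, K2, c', K3, h1, h2⟩ := not_pairwise _ K hcon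
  apply h2
  have hsc : HasSide c := hS c (by rw [h1]; simp)
  have hsc' : HasSide c' := hS c' (by rw [h1]; simp)
  have hc := h.separates hX hK h1 hsc
  have hc' := h.separates hX hK (K1 := K1 ++ c :: K2) (K2 := K3) (c := c')
    (by rw [h1]; simp) hsc'
  obtain ⟨e, he, hp1, hp2⟩ := h.split K1 (K2 ++ c' :: K3) c h1
  obtain ⟨f, hf, hp3, hp4⟩ := hp2.split K2 K3 c' rfl
  have hK' := hK
  rw [h1, List.pairwise_append] at hK'
  obtain ⟨_, h3, _⟩ := hK'
  rw [List.pairwise_cons] at h3
  have hfH : X.s f.1 ∈ H c := by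
    rw [← hp3.mem_iff (fun h => (h3.1 c (List.mem_append_left _ h)).1 rfl)
      (fun h => (h3.1 _ (List.mem_append_left _ h)).2 rfl)]
    exact head_mem he
  have hfH' : X.s f.1 ∉ H c' := tail_notMem hX hsc' hf
  rcases GCx.nested hX hsc hsc' with h5 | h5 | h5 | h5
  · exact absurd (h5 hfH) hfH'
  · have := h5 hc.2
    rw [H_rev hX hsc'] at this
    exact absurd hc'.2 this
  · have h6 : a ∈ H c.rev := by rw [H_rev hX hsc]; exact hc.1
    exact absurd (h5 h6) hc'.1
  · rw [H_rev hX hsc, H_rev hX hsc'] at h5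
    exact Set.compl_subset_compl.1 h5

end Pool.CX.GCx
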