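import Pool.Agent.Work.MP_727c87_cx.Defs

set_option autoImplicit false

/-!
# Tracks of a labelled complex, germ form (MP_727c87_gt, part C1, abstract)

A two-dimensional complex is given by oriented germs of edges (an oriented edge seen from one of its two sides), their
reversal `rev`, the change of the side `op`, and the next germ `nx` of the triangle on this side (unless this side is a
hole). Vertices may be represented by several glued points (`same`). A track is a class of two-coloured germs under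
`op` and `turn` (the other two-coloured germ of the same triangle, oriented in parallel).
-/

namespace Pool.CX

/-- labelled complex, germ form -/
structure GCx (V L : Type) where
  Gm : Type
  s : Gm → V
  t : Gm → V
  rev : Gm → Gm
  op : Gm → Gm
  rev_rev : ∀ g, rev (rev g) = g
  op_op : ∀ g, op (op g) = g
  rev_op : ∀ g, rev (op g) = op (rev g)
  s_rev : ∀ g, s (rev g) = t g
  same : V → V → Prop
  same_refl : ∀ x, same x x
  same_symm : ∀ x y, same x y → same y x
  same_trans : ∀ x y z, same x y → same y z → same x z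
  same_op : ∀ g, same (s g) (s (op g))
  hole : Gm → Prop
  hole_rev : ∀ g, hole (rev g) ↔ hole g
  nx : Gm → Gm
  nx_hole : ∀ g, ¬ hole g → ¬ hole (nx g)
  s_nx : ∀ g, ¬ hole g → s (nx g) = t g
  nx_nx_nx : ∀ g, ¬ hole g → nx (nx (nx g)) = g
  nx_rev : ∀ g, ¬ hole g → nx (rev g) = rev (nx (nx g))
  l : V → L
  l_same : ∀ x y, same x y → l x = l y
  two : ∀ g, ¬ hole g → Two (l (s g)) (l (t g)) (l (t (nx g)))

namespace GCx

variable {V L : Type} (X : GCx V L)

theorem t_rev (g : X.Gm) : X.t (X.rev g) = X.s g := by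
  rw [← X.s_rev, X.rev_rev]

theorem same_op_t (g : X.Gm) : X.same (X.t g) (X.t (X.op g)) := by
  have h := X.same_op (X.rev g)
  rwa [X.s_rev, ← X.rev_op, X.s_rev] at h

theorem l_op (g : X.Gm) : X.l (X.s (X.op g)) = X.l (X.s g) := (X.l_same _ _ (X.same_op g)).symm

theorem l_op_t (g : X.Gm) : X.l (X.t (X.op g)) = X.l (X.t g) :=
  (X.l_same _ _ (X.same_op_t g)).symm

variable {X}

theorem nh_rev {g : X.Gm} (h : ¬ X.hole g) : ¬ X.hole (X.rev g) := fun h' =>
  h ((X.hole_rev g).1 h')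

theorem nh_nx {g : X.Gm} (h : ¬ X.hole g) : ¬ X.hole (X.nx g) := X.nx_hole g h

theorem nh_nx2 {g : X.Gm} (h : ¬ X.hole g) : ¬ X.hole (X.nx (X.nx g)) := nh_nx (nh_nx h)

theorem s_nx2 {g : X.Gm} (h : ¬ X.hole g) : X.s (X.nx (X.nx g)) = X.t (X.nx g) :=
  X.s_nx _ (nh_nx h)

theorem t_nx2 {g : X.Gm} (h : ¬ X.hole g) : X.t (X.nx (X.nx g)) = X.s g := by
  rw [← X.s_nx _ (nh_nx2 h), X.nx_nx_nx g h]

/-- the reversed germ in the same triangle: `nx (rev (nx g)) = rev g` -/
theorem nx_rev_nx {g : X.Gm} (h : ¬ X.hole g) : X.nx (X.rev (X.nx g)) = X.rev g := by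
  rw [X.nx_rev _ (nh_nx h), X.nx_nx_nx g h]

theorem nx_rev_nx2 {g : X.Gm} (h : ¬ X.hole g) :
    X.nx (X.rev (X.nx (X.nx g))) = X.rev (X.nx g) := nx_rev_nx (nh_nx h)

variable (X)

open Classical in
/-- the other two-coloured germ of the triangle, oriented in parallel; a germ into a hole stays -/
noncomputable def turn (g : X.Gm) : X.Gm :=
  if X.hole g then g
  else if X.l (X.t (X.nx g)) = X.l (X.s g) then X.rev (X.nx g) else X.rev (X.nx (X.nx g))

/-- two-coloured -/
def Bi (g : X.Gm) : Prop := X.l (X.s g) ≠ X.l (X.t g)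

variable {X}

theorem turn_hole {g : X.Gm} (h : X.hole g) : X.turn g = g := by
  unfold turn
  rw [if_pos h]

theorem turn_A {g : X.Gm} (h : ¬ X.hole g) (hA : X.l (X.t (X.nx g)) = X.l (X.s g)) :
    X.turn g = X.rev (X.nx g) := by
  unfold turn
  rw [if_neg h, if_pos hA]

theorem turn_B {g : X.Gm} (h : ¬ X.hole g) (hB : X.l (X.t (X.nx g)) ≠ X.l (X.s g)) :
    X.turn g = X.rev (X.nx (X.nx g)) := by
  unfold turn
  rw [if_neg h, if_neg hB]

theorem Bi.cases {g : X.Gm} (hg : X.Bi g) (h : ¬ X.hole g) :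
    (X.l (X.t (X.nx g)) = X.l (X.s g)) ∨
      (X.l (X.t (X.nx g)) ≠ X.l (X.s g) ∧ X.l (X.t (X.nx g)) = X.l (X.t g)) := by
  by_cases hA : X.l (X.t (X.nx g)) = X.l (X.s g)
  · exact Or.inl hA
  · refine Or.inr ⟨hA, ?_⟩
    rcases X.two g h with h1 | h1 | h1
    · exact absurd h1 hg
    · exact h1.symm
    · exact absurd h1.symm hA

theorem Bi.rev {g : X.Gm} (hg : X.Bi g) : X.Bi (X.rev g) := by
  unfold Bi
  rw [X.s_rev, X.t_rev]
  exact fun h => hg h.symm

theorem Bi.op {g : X.Gm} (hg : X.Bi g) : X.Bi (X.op g) := by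
  unfold Bi
  rw [X.l_op, X.l_op_t]
  exact hg

/-- labels at the two ends of the turned germ -/
theorem Bi.turn_labels {g : X.Gm} (hg : X.Bi g) :
    X.l (X.s (X.turn g)) = X.l (X.s g) ∧ X.l (X.t (X.turn g)) = X.l (X.t g) := by
  by_cases h : X.hole g
  · rw [turn_hole h]
    exact ⟨rfl, rfl⟩
  rcases hg.cases h with hA | ⟨hB, hB'⟩
  · rw [turn_A h hA, X.s_rev, X.t_rev, X.s_nx g h]
    exact ⟨hA, rfl⟩
  · rw [turn_B h hB, X.s_rev, X.t_rev, t_nx2 h, s_nx2 h]
    exact ⟨rfl, hB'⟩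

theorem Bi.turn {g : X.Gm} (hg : X.Bi g) : X.Bi (X.turn g) := by
  unfold Bi
  rw [hg.turn_labels.1, hg.turn_labels.2]
  exact hg

theorem Bi.turn_turn {g : X.Gm} (hg : X.Bi g) : X.turn (X.turn g) = g := by
  by_cases h : X.hole g
  · rw [turn_hole h, turn_hole h]
  rcases hg.cases h with hA | ⟨hB, hB'⟩
  · rw [turn_A h hA]
    have h1 : ¬ X.hole (X.rev (X.nx g)) := nh_rev (nh_nx h)
    rw [turn_A h1, nx_rev_nx h, X.rev_rev]
    rw [nx_rev_nx h, X.t_rev, X.s_rev, hA]
  · rw [turn_B h hB]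
    have h1 : ¬ X.hole (X.rev (X.nx (X.nx g))) := nh_rev (nh_nx2 h)
    rw [turn_B h1, nx_rev_nx2 h, nx_rev_nx h, X.rev_rev]
    rw [nx_rev_nx2 h, X.t_rev, X.s_nx g h, X.s_rev, t_nx2 h]
    exact fun h' => hg h'.symm

theorem Bi.turn_rev {g : X.Gm} (hg : X.Bi g) : X.turn (X.rev g) = X.rev (X.turn g) := by
  by_cases h : X.hole g
  · rw [turn_hole h, turn_hole ((X.hole_rev g).2 h)]
  have h0 : ¬ X.hole (X.rev g) := nh_rev h
  have hz : X.t (X.nx (X.rev g)) = X.t (X.nx g) := by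
    rw [X.nx_rev g h, X.t_rev, s_nx2 h]
  rcases hg.cases h with hA | ⟨hB, hB'⟩
  · rw [turn_A h hA, turn_B h0, X.nx_rev g h, nx_rev_nx2 h]
    rw [hz, X.s_rev, hA]
    exact hg
  · rw [turn_B h hB, turn_A h0, X.nx_rev g h]
    rw [hz, X.s_rev, hB']

variable (X) in
/-- two-coloured germs -/
def BG : Type := {g : X.Gm // X.Bi g}

/-- reversed -/
def BG.rev (b : X.BG) : X.BG := ⟨X.rev b.1, b.2.rev⟩

/-- seen from the other side -/
def BG.op (b : X.BG) : X.BG := ⟨X.op b.1, b.2.op⟩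

/-- through the triangle -/
noncomputable def BG.turn (b : X.BG) : X.BG := ⟨X.turn b.1, b.2.turn⟩

theorem BG.ext {b b' : X.BG} (h : b.1 = b'.1) : b = b' := Subtype.ext h

@[simp] theorem BG.rev_rev (b : X.BG) : b.rev.rev = b := BG.ext (X.rev_rev _)
@[simp] theorem BG.op_op (b : X.BG) : b.op.op = b := BG.ext (X.op_op _)
@[simp] theorem BG.turn_turn (b : X.BG) : b.turn.turn = b := BG.ext b.2.turn_turn
theorem BG.op_rev (b : X.BG) : b.rev.op = b.op.rev := BG.ext (X.rev_op _).symm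
theorem BG.turn_rev (b : X.BG) : b.rev.turn = b.turn.rev := BG.ext b.2.turn_rev

variable (X) in
/-- one move along a track -/
def TS (b b' : X.BG) : Prop := b' = b.op ∨ b' = b.turn

theorem TS.symm {b b' : X.BG} (h : X.TS b b') : X.TS b' b := by
  rcases h with rfl | rfl
  · exact Or.inl b.op_op.symm
  · exact Or.inr b.turn_turn.symm

theorem TS.rev {b b' : X.BG} (h : X.TS b b') : X.TS b.rev b'.rev := by
  rcases h with rfl | rfl
  · exact Or.inl b.op_rev.symm
  · exact Or.inr b.turn_rev.symm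

theorem TS.labels {b b' : X.BG} (h : X.TS b b') :
    X.l (X.s b.1) = X.l (X.s b'.1) ∧ X.l (X.t b.1) = X.l (X.t b'.1) := by
  rcases h with rfl | rfl
  · exact ⟨(X.l_op _).symm, (X.l_op_t _).symm⟩
  · exact ⟨b.2.turn_labels.1.symm, b.2.turn_labels.2.symm⟩

variable (X) in
/-- oriented tracks -/
def Tr : Type := Quot X.TS

/-- the track of a germ -/
def cls (b : X.BG) : X.Tr := Quot.mk _ b

theorem cls_op (b : X.BG) : cls b.op = cls b := by
  have h : X.TS b b.op := Or.inl rfl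
  exact (Quot.sound h).symm

theorem cls_turn (b : X.BG) : cls b.turn = cls b := by
  have h : X.TS b b.turn := Or.inr rfl
  exact (Quot.sound h).symm

theorem exists_rep (c : X.Tr) : ∃ b : X.BG, cls b = c := Quot.exists_rep c

/-- the reversed track -/
def Tr.rev (c : X.Tr) : X.Tr := Quot.map BG.rev (fun _ _ h => TS.rev h) c

theorem rev_cls (b : X.BG) : (cls b).rev = cls b.rev := rfl

@[simp] theorem Tr.rev_rev (c : X.Tr) : c.rev.rev = c := by
  obtain ⟨b, rfl⟩ := exists_rep c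
  rw [rev_cls, rev_cls, BG.rev_rev]

theorem Tr.rev_inj {c c' : X.Tr} (h : c.rev = c'.rev) : c = c' := by
  rw [← c.rev_rev, h, c'.rev_rev]

/-- label at the tails -/
def Tr.tl (c : X.Tr) : L := Quot.lift (fun b : X.BG => X.l (X.s b.1)) (fun _ _ h => h.labels.1) c

/-- label at the heads -/
def Tr.hl (c : X.Tr) : L := Quot.lift (fun b : X.BG => X.l (X.t b.1)) (fun _ _ h => h.labels.2) c

theorem tl_cls (b : X.BG) : (cls b).tl = X.l (X.s b.1) := rfl

theorem hl_cls (b : X.BG) : (cls b).hl = X.l (X.t b.1) := rfl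

theorem Tr.tl_ne_hl (c : X.Tr) : c.tl ≠ c.hl := by
  obtain ⟨b, rfl⟩ := exists_rep c
  exact b.2

theorem Tr.rev_tl (c : X.Tr) : c.rev.tl = c.hl := by
  obtain ⟨b, rfl⟩ := exists_rep c
  rw [rev_cls, tl_cls, hl_cls]
  exact congrArg X.l (X.s_rev _)

theorem Tr.rev_hl (c : X.Tr) : c.rev.hl = c.tl := by
  rw [← c.rev.rev_tl, Tr.rev_rev]

theorem Tr.rev_ne (c : X.Tr) : c.rev ≠ c := by
  intro h
  have h1 := c.rev_tl
  rw [h] at h1
  exact c.tl_ne_hl h1

/-! ### monochromatic connections -/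

variable (X) in
/-- glued, or joined by a one-coloured germ -/
def Mono (x y : V) : Prop := X.same x y ∨ ∃ g, X.s g = x ∧ X.t g = y ∧ X.l x = X.l y

theorem Mono.symm {x y : V} (h : X.Mono x y) : X.Mono y x := by
  rcases h with h | ⟨g, h1, h2, h3⟩
  · exact Or.inl (X.same_symm _ _ h)
  · exact Or.inr ⟨X.rev g, by rw [X.s_rev, h2], by rw [X.t_rev, h1], h3.symm⟩

theorem Mono.label {x y : V} (h : X.Mono x y) : X.l x = X.l y := by
  rcases h with h | ⟨_, _, _, h3⟩
  · exact X.l_same _ _ h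
  · exact h3

variable (X) in
/-- in the same region -/
abbrev Reg (x y : V) : Prop := Relation.ReflTransGen X.Mono x y

theorem Reg.symm {x y : V} (h : X.Reg x y) : X.Reg y x := by
  induction h with
  | refl => exact Relation.ReflTransGen.refl
  | tail _ h2 ih => exact Relation.ReflTransGen.head h2.symm ih

theorem Reg.label {x y : V} (h : X.Reg x y) : X.l x = X.l y := by
  induction h with
  | refl => rfl
  | tail _ h2 ih => exact ih.trans h2.label

theorem reg_of_same {x y : V} (h : X.same x y) : X.Reg x y :=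
  Relation.ReflTransGen.single (Or.inl h)

theorem TS.reg {b b' : X.BG} (h : X.TS b b') :
    X.Reg (X.s b.1) (X.s b'.1) ∧ X.Reg (X.t b.1) (X.t b'.1) := by
  rcases h with rfl | rfl
  · exact ⟨reg_of_same (X.same_op _), reg_of_same (X.same_op_t _)⟩
  · obtain ⟨g, hg⟩ := b
    simp only [BG.turn]
    by_cases h : X.hole g
    · rw [turn_hole h]
      exact ⟨Relation.ReflTransGen.refl, Relation.ReflTransGen.refl⟩
    rcases hg.cases h with hA | ⟨hB, hB'⟩
    · rw [turn_A h hA, X.s_rev, X.t_rev, X.s_nx g h]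
      refine ⟨Relation.ReflTransGen.single (Or.inr ⟨X.rev (X.nx (X.nx g)), ?_, ?_, hA.symm⟩),
        Relation.ReflTransGen.refl⟩
      · rw [X.s_rev, t_nx2 h]
      · rw [X.t_rev, s_nx2 h]
    · rw [turn_B h hB, X.s_rev, X.t_rev, t_nx2 h, s_nx2 h]
      exact ⟨Relation.ReflTransGen.refl,
        Relation.ReflTransGen.single (Or.inr ⟨X.nx g, X.s_nx g h, rfl, hB'.symm⟩)⟩

/-- the tails (heads) of a track are joined by monochromatic paths -/
theorem reg_of_cls_eq {b b' : X.BG} (h : cls b = cls b') :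
    X.Reg (X.s b.1) (X.s b'.1) ∧ X.Reg (X.t b.1) (X.t b'.1) := by
  have h1 := Quot.eqvGen_exact h
  clear h
  induction h1 with
  | rel _ _ hr => exact hr.reg
  | refl _ => exact ⟨Relation.ReflTransGen.refl, Relation.ReflTransGen.refl⟩
  | symm _ _ _ ih => exact ⟨ih.1.symm, ih.2.symm⟩
  | trans _ _ _ _ _ ih1 ih2 => exact ⟨ih1.1.trans ih2.1, ih1.2.trans ih2.2⟩

/-! ### the cocycle of a track -/

/-- the germ belongs to the track `c` (in one of the two directions) -/
def On (c : X.Tr) (g : X.Gm) : Prop := ∃ b : X.BG, b.1 = g ∧ (cls b = c ∨ cls b = c.rev)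

theorem On.bi {c : X.Tr} {g : X.Gm} (h : On c g) : X.Bi g := by
  obtain ⟨b, rfl, _⟩ := h
  exact b.2

theorem On.grev {c : X.Tr} {g : X.Gm} (h : On c g) : On c (X.rev g) := by
  obtain ⟨b, rfl, h3⟩ := h
  refine ⟨b.rev, rfl, ?_⟩
  rcases h3 with h | h
  · right
    rw [← h]
    rfl
  · left
    rw [← rev_cls, h, Tr.rev_rev]

theorem on_grev {c : X.Tr} {g : X.Gm} : On c (X.rev g) ↔ On c g :=
  ⟨fun h => by have := h.grev; rwa [X.rev_rev] at this, On.grev⟩

theorem On.gop {c : X.Tr} {g : X.Gm} (h : On c g) : On c (X.op g) := by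
  obtain ⟨b, rfl, h3⟩ := h
  refine ⟨b.op, rfl, ?_⟩
  rw [cls_op]
  exact h3

theorem on_gop {c : X.Tr} {g : X.Gm} : On c (X.op g) ↔ On c g :=
  ⟨fun h => by have := h.gop; rwa [X.op_op] at this, On.gop⟩

theorem on_rev {c : X.Tr} {g : X.Gm} : On c.rev g ↔ On c g := by
  constructor
  · rintro ⟨b, h1, h2⟩
    rw [Tr.rev_rev] at h2
    exact ⟨b, h1, h2.symm⟩
  · rintro ⟨b, h1, h2⟩
    refine ⟨b, h1, ?_⟩
    rw [Tr.rev_rev]
    exact h2.symm

theorem on_iff_cls {c : X.Tr} (b : X.BG) : On c b.1 ↔ (cls b = c ∨ cls b = c.rev) := by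
  constructor
  · rintro ⟨b', h1, h2⟩
    rw [BG.ext h1] at h2
    exact h2
  · intro h
    exact ⟨b, rfl, h⟩

/-- if the third side of the triangle is one-coloured at the tail, the other two sides are on the same tracks -/
theorem on_nx {c : X.Tr} {g : X.Gm} (h : ¬ X.hole g) (hA : X.l (X.t (X.nx g)) = X.l (X.s g)) :
    On c g ↔ On c (X.nx g) := by
  constructor
  · rintro ⟨b, rfl, h2⟩
    have h3 : On c (X.turn b.1) := by
      refine ⟨b.turn, rfl, ?_⟩
      rw [cls_turn]
      exact h2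
    rw [turn_A h hA] at h3
    exact on_grev.1 h3
  · intro h1
    have hb : X.Bi g := by
      have h2 := h1.bi
      unfold Bi at h2 ⊢
      rw [X.s_nx g h, hA] at h2
      exact fun h' => h2 h'.symm
    have h3 : On c (X.turn g) := by
      rw [turn_A h hA]
      exact on_grev.2 h1
    obtain ⟨b, hb1, hb2⟩ := h3
    have hbb : b = (BG.turn ⟨g, hb⟩) := BG.ext hb1
    rw [hbb, cls_turn] at hb2
    exact ⟨⟨g, hb⟩, rfl, hb2⟩

open Classical in
/-- the `ℤ/2`-cocycle of a track -/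
noncomputable def ind (c : X.Tr) (g : X.Gm) : ZMod 2 := if On c g then 1 else 0

theorem ind_of_on {c : X.Tr} {g : X.Gm} (h : On c g) : ind c g = 1 := by
  unfold ind
  rw [if_pos h]

theorem ind_of_not {c : X.Tr} {g : X.Gm} (h : ¬ On c g) : ind c g = 0 := by
  unfold ind
  rw [if_neg h]

theorem ind_congr {c c' : X.Tr} {g g' : X.Gm} (h : On c g ↔ On c' g') : ind c g = ind c' g' := by
  by_cases h1 : On c g
  · rw [ind_of_on h1, ind_of_on (h.1 h1)]
  · rw [ind_of_not h1, ind_of_not (fun h2 => h1 (h.2 h2))]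

theorem zmod2_add_self (a : ZMod 2) : a + a = 0 := by
  revert a
  decide

theorem ind_tri (c : X.Tr) {g : X.Gm} (h : ¬ X.hole g) :
    ind c g + ind c (X.nx g) + ind c (X.nx (X.nx g)) = 0 := by
  rcases X.two g h with h1 | h1 | h1
  · have h2 : ind c g = 0 := ind_of_not (fun h' => h'.bi h1)
    have h3 : ind c (X.nx g) = ind c (X.nx (X.nx g)) := by
      apply ind_congr
      apply on_nx (nh_nx h)
      rw [t_nx2 h, X.s_nx g h, h1]
    rw [h2, h3, zero_add, zmod2_add_self]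
  · have h2 : ind c (X.nx g) = 0 := ind_of_not (fun h' => h'.bi (by rw [X.s_nx g h, h1]))
    have h3 : ind c (X.nx (X.nx g)) = ind c g := by
      apply ind_congr
      rw [on_nx (nh_nx2 h), X.nx_nx_nx g h]
      rw [X.nx_nx_nx g h, s_nx2 h, h1]
    rw [h2, h3, add_zero, zmod2_add_self]
  · have h2 : ind c (X.nx (X.nx g)) = 0 :=
      ind_of_not (fun h' => h'.bi (by rw [s_nx2 h, t_nx2 h, h1]))
    have h3 : ind c g = ind c (X.nx g) := ind_congr (on_nx h h1.symm)
    rw [h2, h3, add_zero, zmod2_add_self]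

/-! ### sides -/

variable (X) in
/-- joined by a germ or glued -/
def Adj (x y : V) : Prop := X.same x y ∨ ∃ g, X.s g = x ∧ X.t g = y

theorem Adj.symm {x y : V} (h : X.Adj x y) : X.Adj y x := by
  rcases h with h | ⟨g, h1, h2⟩
  · exact Or.inl (X.same_symm _ _ h)
  · exact Or.inr ⟨X.rev g, by rw [X.s_rev, h2], by rw [X.t_rev, h1]⟩

variable (X) in
/-- connected -/
def Conn : Prop := ∀ x y : V, Relation.ReflTransGen X.Adj x y

/-- the cocycle of the track is a coboundary -/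
def HasSide (c : X.Tr) : Prop :=
  ∃ f : V → ZMod 2, (∀ g, f (X.t g) = f (X.s g) + ind c g) ∧ ∀ x y, X.same x y → f x = f y

variable (X) in
/-- every `ℤ/2`-cocycle is a coboundary -/
def H1 : Prop :=
  ∀ f : X.Gm → ZMod 2, (∀ g, f (X.rev g) = f g) → (∀ g, f (X.op g) = f g) →
    (∀ g, ¬ X.hole g → f g + f (X.nx g) + f (X.nx (X.nx g)) = 0) →
    ∃ F : V → ZMod 2, (∀ g, F (X.t g) = F (X.s g) + f g) ∧ ∀ x y, X.same x y → F x = F y

theorem H1.hasSide (h : X.H1) (c : X.Tr) : HasSide c :=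
  h (ind c) (fun _ => ind_congr on_grev) (fun _ => ind_congr on_gop) (fun _ hg => ind_tri c hg)

theorem HasSide.rev {c : X.Tr} (h : HasSide c) : HasSide c.rev := by
  obtain ⟨f, h1, h2⟩ := h
  refine ⟨f, fun g => ?_, h2⟩
  rw [h1, ind_congr (on_rev (c := c))]

/-- adjacent, without crossing the track `c` -/
def Av (c : X.Tr) (x y : V) : Prop := X.same x y ∨ ∃ g, X.s g = x ∧ X.t g = y ∧ ¬ On c g

theorem Av.symm {c : X.Tr} {x y : V} (h : Av c x y) : Av c y x := by
  rcases h with h | ⟨g, h1, h2, h3⟩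
  · exact Or.inl (X.same_symm _ _ h)
  · exact Or.inr ⟨X.rev g, by rw [X.s_rev, h2], by rw [X.t_rev, h1], fun h => h3 (on_grev.1 h)⟩

theorem Av.of_mono {c : X.Tr} {x y : V} (h : X.Mono x y) : Av c x y := by
  rcases h with h | ⟨g, h1, h2, h3⟩
  · exact Or.inl h
  · exact Or.inr ⟨g, h1, h2, fun h => h.bi (by rw [h1, h2, h3])⟩

theorem Av.rev {c : X.Tr} {x y : V} (h : Av c x y) : Av c.rev x y := by
  rcases h with h | ⟨g, h1, h2, h3⟩
  · exact Or.inl h
  · exact Or.inr ⟨g, h1, h2, fun h => h3 (on_rev.1 h)⟩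

theorem av_path_symm {c : X.Tr} {x y : V} (h : Relation.ReflTransGen (Av c) x y) :
    Relation.ReflTransGen (Av c) y x := by
  induction h with
  | refl => exact Relation.ReflTransGen.refl
  | tail _ h2 ih => exact Relation.ReflTransGen.head h2.symm ih

theorem av_path_of_reg {c : X.Tr} {x y : V} (h : X.Reg x y) :
    Relation.ReflTransGen (Av c) x y := by
  induction h with
  | refl => exact Relation.ReflTransGen.refl
  | tail _ h2 ih => exact ih.tail (Av.of_mono h2)

theorem av_path_rev {c : X.Tr} {x y : V} (h : Relation.ReflTransGen (Av c) x y) :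
    Relation.ReflTransGen (Av c.rev) x y := by
  induction h with
  | refl => exact Relation.ReflTransGen.refl
  | tail _ h2 ih => exact ih.tail h2.rev

/-- the head side of a track: what can be joined to a head without crossing the track -/
def H (c : X.Tr) : Set V := {x | ∃ b : X.BG, cls b = c ∧ Relation.ReflTransGen (Av c) (X.t b.1) x}

theorem head_mem {b : X.BG} {c : X.Tr} (h : cls b = c) : X.t b.1 ∈ H c :=
  ⟨b, h, Relation.ReflTransGen.refl⟩

/-- normalised side function of a track -/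
theorem exists_side {c : X.Tr} (hc : HasSide c) :
    ∃ f : V → ZMod 2, (∀ g, f (X.t g) = f (X.s g) + ind c g) ∧ (∀ x y, X.same x y → f x = f y) ∧
      ∀ b : X.BG, cls b = c → f (X.s b.1) = 0 ∧ f (X.t b.1) = 1 := by
  obtain ⟨f0, hf0, hf0'⟩ := hc
  obtain ⟨b0, hb0⟩ := exists_rep c
  have hreg : ∀ x y, X.Reg x y → f0 x = f0 y := by
    intro x y h
    induction h with
    | refl => rfl
    | tail _ h2 ih =>
      rw [ih]
      rcases h2 with h2 | ⟨g, rfl, rfl, h3⟩
      · exact hf0' _ _ h2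
      · rw [hf0 g, ind_of_not (fun h => h.bi h3), add_zero]
  refine ⟨fun x => f0 x + f0 (X.s b0.1), fun g => ?_, fun x y h => ?_, fun b hb => ?_⟩
  · simp only
    rw [hf0 g]
    ring
  · simp only
    rw [hf0' x y h]
  · have h1 : f0 (X.s b.1) = f0 (X.s b0.1) := hreg _ _ (reg_of_cls_eq (hb.trans hb0.symm)).1
    have h3 : f0 (X.t b.1) = f0 (X.s b.1) + 1 := by
      rw [hf0 b.1, ind_of_on ⟨b, rfl, Or.inl hb⟩]
    simp only
    rw [h3, h1, zmod2_add_self]
    refine ⟨rfl, ?_⟩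
    rw [add_right_comm, zmod2_add_self, zero_add]

theorem side_const {c : X.Tr} {f : V → ZMod 2} (hf : ∀ g, f (X.t g) = f (X.s g) + ind c g)
    (hf' : ∀ x y, X.same x y → f x = f y) {x y : V}
    (h : Relation.ReflTransGen (Av c) x y) : f x = f y := by
  induction h with
  | refl => rfl
  | tail _ h2 ih =>
    rw [ih]
    rcases h2 with h2 | ⟨g, rfl, rfl, h3⟩
    · exact hf' _ _ h2
    · rw [hf g, ind_of_not h3, add_zero]

theorem mem_or (hX : X.Conn) (c : X.Tr) (x : V) : x ∈ H c ∨ x ∈ H c.rev := by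
  obtain ⟨b0, hb0⟩ := exists_rep c
  have key : ∀ y, Relation.ReflTransGen X.Adj (X.t b0.1) y → y ∈ H c ∨ y ∈ H c.rev := by
    intro y h
    induction h with
    | refl => exact Or.inl (head_mem hb0)
    | @tail u v _ h2 ih =>
      have hav : Av c u v → (v ∈ H c ∨ v ∈ H c.rev) := by
        intro hav
        rcases ih with ⟨e, he, hp⟩ | ⟨e, he, hp⟩
        · exact Or.inl ⟨e, he, hp.tail hav⟩
        · exact Or.inr ⟨e, he, hp.tail hav.rev⟩
      rcases h2 with h2 | ⟨g, h3, h4⟩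
      · exact hav (Or.inl h2)
      · by_cases hon : On c g
        · obtain ⟨b, rfl, h5⟩ := hon
          rw [← h4]
          rcases h5 with h5 | h5
          · exact Or.inl (head_mem h5)
          · exact Or.inr (head_mem h5)
        · exact hav (Or.inr ⟨g, h3, h4, hon⟩)
  exact key x (hX _ _)

theorem mem_iff (hX : X.Conn) {c : X.Tr} {f : V → ZMod 2}
    (hf : ∀ g, f (X.t g) = f (X.s g) + ind c g) (hf' : ∀ x y, X.same x y → f x = f y)
    (hf1 : ∀ b : X.BG, cls b = c → f (X.s b.1) = 0 ∧ f (X.t b.1) = 1) (x : V) :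
    (x ∈ H c ↔ f x = 1) ∧ (x ∈ H c.rev ↔ f x = 0) := by
  have h1 : x ∈ H c → f x = 1 := by
    rintro ⟨b, hb, hp⟩
    rw [← side_const hf hf' hp]
    exact (hf1 b hb).2
  have h2 : x ∈ H c.rev → f x = 0 := by
    rintro ⟨b, hb, hp⟩
    have hp' : Relation.ReflTransGen (Av c) (X.t b.1) x := by
      have := av_path_rev hp
      rwa [Tr.rev_rev] at this
    rw [← side_const hf hf' hp']
    have hb' : cls b.rev = c := by rw [← rev_cls, hb, Tr.rev_rev]
    have h3 := (hf1 b.rev hb').1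
    have h4 : X.s b.rev.1 = X.t b.1 := X.s_rev _
    rwa [h4] at h3
  have h01 : (0 : ZMod 2) ≠ 1 := by decide
  refine ⟨⟨h1, fun h => ?_⟩, ⟨h2, fun h => ?_⟩⟩
  · rcases mem_or hX c x with h' | h'
    · exact h'
    · exact absurd ((h2 h').symm.trans h) h01
  · rcases mem_or hX c x with h' | h'
    · exact absurd (h.symm.trans (h1 h')) h01
    · exact h'

/-- the two sides of a track are complementary -/
theorem H_rev (hX : X.Conn) {c : X.Tr} (hc : HasSide c) : H c.rev = (H c)ᶜ := by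
  obtain ⟨f, hf, hf', hf1⟩ := exists_side hc
  ext x
  rw [Set.mem_compl_iff, (mem_iff hX hf hf' hf1 x).1, (mem_iff hX hf hf' hf1 x).2]
  have : ∀ a : ZMod 2, a = 0 ↔ ¬ a = 1 := by decide
  exact this _

theorem tail_notMem (hX : X.Conn) {b : X.BG} {c : X.Tr} (hc : HasSide c) (h : cls b = c) :
    X.s b.1 ∉ H c := by
  have h1 : X.t b.rev.1 ∈ H c.rev := head_mem (by rw [← h]; rfl)
  rw [H_rev hX hc] at h1
  have h2 : X.t b.rev.1 = X.s b.1 := X.t_rev _
  rw [h2] at h1
  exact h1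

theorem mem_of_av {c : X.Tr} {x y : V} (h : Av c x y) (hx : x ∈ H c) : y ∈ H c := by
  obtain ⟨b, hb, hp⟩ := hx
  exact ⟨b, hb, hp.tail h⟩

theorem mem_iff_of_av {c : X.Tr} {x y : V} (h : Av c x y) : x ∈ H c ↔ y ∈ H c :=
  ⟨mem_of_av h, mem_of_av h.symm⟩

theorem mem_iff_of_mono (c : X.Tr) {x y : V} (h : X.Mono x y) : x ∈ H c ↔ y ∈ H c :=
  mem_iff_of_av (Av.of_mono h)

theorem mem_iff_of_same (c : X.Tr) {x y : V} (h : X.same x y) : x ∈ H c ↔ y ∈ H c :=
  mem_iff_of_av (Or.inl h)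

theorem mem_iff_of_reg (c : X.Tr) {x y : V} (h : X.Reg x y) : x ∈ H c ↔ y ∈ H c := by
  induction h with
  | refl => exact Iff.rfl
  | tail _ h2 ih => exact ih.trans (mem_iff_of_mono c h2)

/-- a germ from outside `H c` into `H c` belongs to the track -/
theorem cls_of_cross (hX : X.Conn) {c : X.Tr} (hc : HasSide c) {g : X.Gm} (hx : X.s g ∉ H c)
    (hy : X.t g ∈ H c) : ∃ b : X.BG, b.1 = g ∧ cls b = c := by
  by_contra hcon
  have hon : ¬ On c g := by
    rintro ⟨b, rfl, h3 | h3⟩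
    · exact hcon ⟨b, rfl, h3⟩
    · have h4 : cls b.rev = c := by rw [← rev_cls, h3, Tr.rev_rev]
      have h5 := tail_notMem hX hc h4
      have h6 : X.s b.rev.1 = X.t b.1 := X.s_rev _
      rw [h6] at h5
      exact h5 hy
  exact hx ((mem_iff_of_av (Or.inr ⟨g, rfl, rfl, hon⟩)).2 hy)

theorem adj_cross (hX : X.Conn) {c : X.Tr} (hc : HasSide c) {x y : V} (h : X.Adj x y)
    (hx : x ∉ H c) (hy : y ∈ H c) : ∃ b : X.BG, X.s b.1 = x ∧ X.t b.1 = y ∧ cls b = c := by
  rcases h with h | ⟨g, rfl, rfl⟩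
  · exact absurd ((mem_iff_of_same c h).2 hy) hx
  · obtain ⟨b, h1, h2⟩ := cls_of_cross hX hc hx hy
    exact ⟨b, by rw [h1], by rw [h1], h2⟩

/-- all vertices of another track are on the same side -/
theorem strip_const {c c' : X.Tr} (h1 : c' ≠ c) (h2 : c' ≠ c.rev)
    {b b' : X.BG} (hb : cls b = c' ∨ cls b = c'.rev) (hb' : cls b' = c' ∨ cls b' = c'.rev)
    {x x' : V} (hx : x = X.s b.1 ∨ x = X.t b.1) (hx' : x' = X.s b'.1 ∨ x' = X.t b'.1) :
    x ∈ H c ↔ x' ∈ H c := by
  have hedge : ∀ f : X.BG, cls f = c' ∨ cls f = c'.rev → (X.s f.1 ∈ H c ↔ X.t f.1 ∈ H c) := by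
    intro f hf
    apply mem_iff_of_av
    refine Or.inr ⟨f.1, rfl, rfl, ?_⟩
    rw [on_iff_cls]
    rintro (h | h)
    · rcases hf with hf | hf
      · exact h1 (hf.symm.trans h)
      · apply h2
        apply Tr.rev_inj
        rw [Tr.rev_rev, ← hf, h]
    · rcases hf with hf | hf
      · exact h2 (hf.symm.trans h)
      · apply h1
        apply Tr.rev_inj
        rw [← hf, h]
  have hnorm : ∀ f : X.BG, cls f = c' ∨ cls f = c'.rev → ∀ y : V, y = X.s f.1 ∨ y = X.t f.1 →
      ∃ g : X.BG, cls g = c' ∧ (y ∈ H c ↔ X.s g.1 ∈ H c) := by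
    intro f hf y hy
    have hyt : y ∈ H c ↔ X.s f.1 ∈ H c := by
      rcases hy with rfl | rfl
      · exact Iff.rfl
      · exact (hedge f hf).symm
    rcases hf with hf | hf
    · exact ⟨f, hf, hyt⟩
    · refine ⟨f.rev, by rw [← rev_cls, hf, Tr.rev_rev], hyt.trans ?_⟩
      have h6 : X.s f.rev.1 = X.t f.1 := X.s_rev _
      rw [h6]
      exact hedge f (Or.inr hf)
  obtain ⟨g, hg, hg'⟩ := hnorm b hb x hx
  obtain ⟨k, hk, hk'⟩ := hnorm b' hb' x' hx'
  rw [hg', hk']
  exact mem_iff_of_reg c (reg_of_cls_eq (hg.trans hk.symm)).1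

/-- a side is connected without crossing the track -/
theorem H_conn {c : X.Tr} {x y : V} (hx : x ∈ H c) (hy : y ∈ H c) :
    Relation.ReflTransGen (Av c) x y := by
  obtain ⟨e, he, hp⟩ := hx
  obtain ⟨f, hf, hq⟩ := hy
  exact ((av_path_symm hp).trans (av_path_of_reg (reg_of_cls_eq (he.trans hf.symm)).2)).trans hq

theorem Av.adj {c : X.Tr} {x y : V} (h : Av c x y) : X.Adj x y := by
  rcases h with h | ⟨g, h1, h2, _⟩
  · exact Or.inl h
  · exact Or.inr ⟨g, h1, h2⟩

/-- key step for nestedness -/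
theorem disjoint_of_strip (hX : X.Conn) {c c' : X.Tr} (hc' : HasSide c')
    (h1 : c' ≠ c) (h2 : c' ≠ c.rev) {b b' : X.BG} (hb : cls b = c) (hb' : cls b' = c')
    (hs' : X.s b'.1 ∉ H c) (hs : X.s b.1 ∉ H c') : H c ⊆ (H c')ᶜ := by
  have h1' : c ≠ c' := fun h => h1 h.symm
  have h2' : c ≠ c'.rev := fun h => h2 (by rw [h, Tr.rev_rev])
  have hh : X.t b.1 ∉ H c' := fun h =>
    hs ((strip_const h1' h2' (Or.inl hb) (Or.inl hb) (Or.inr rfl) (Or.inl rfl)).1 h)
  intro x hx
  have hp : Relation.ReflTransGen (Av c) (X.t b.1) x := H_conn (head_mem hb) hx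
  have key : x ∈ H c ∧ x ∉ H c' := by
    clear hx
    induction hp with
    | refl => exact ⟨head_mem hb, hh⟩
    | @tail u v _ h4 ih =>
      obtain ⟨hu, hu'⟩ := ih
      refine ⟨mem_of_av h4 hu, fun hv' => ?_⟩
      obtain ⟨f, hf1, hf2, hf3⟩ := adj_cross hX hc' h4.adj hu' hv'
      apply hs'
      rw [← strip_const h1 h2 (Or.inl hf3) (Or.inl hb') (Or.inl rfl) (Or.inl rfl), hf1]
      exact hu
  exact key.2

/-- **The sides of the tracks are nested.** -/
theorem nested (hX : X.Conn) {c c' : X.Tr} (hc : HasSide c) (hc' : HasSide c') :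
    H c ⊆ H c' ∨ H c ⊆ H c'.rev ∨ H c.rev ⊆ H c' ∨ H c.rev ⊆ H c'.rev := by
  by_cases h1 : c' = c
  · left; rw [h1]
  by_cases h2 : c' = c.rev
  · right; left; rw [h2, Tr.rev_rev]
  obtain ⟨b, hb⟩ := exists_rep c
  obtain ⟨b', hb'⟩ := exists_rep c'
  have hbr : cls b.rev = c.rev := by rw [← hb]; rfl
  have hbr' : cls b'.rev = c'.rev := by rw [← hb']; rfl
  have h3 : c'.rev ≠ c := fun h => h2 (by rw [← h, Tr.rev_rev])
  have h4 : c'.rev ≠ c.rev := fun h => h1 (Tr.rev_inj h)
  have h1' : c ≠ c' := fun h => h1 h.symm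
  have h2' : c ≠ c'.rev := fun h => h3 h.symm
  have e1 : X.s b.rev.1 = X.t b.1 := X.s_rev _
  have e2 : X.s b'.rev.1 = X.t b'.1 := X.s_rev _
  have hR : H c.rev = (H c)ᶜ := H_rev hX hc
  have hR' : H c'.rev = (H c')ᶜ := H_rev hX hc'
  by_cases hs' : X.s b'.1 ∈ H c
  · have a1 : X.s b'.1 ∉ H c.rev := by rw [hR]; exact fun h => h hs'
    have a2 : X.s b'.rev.1 ∉ H c.rev := by
      rw [hR, e2]
      intro h
      exact h ((strip_const h1 h2 (Or.inl hb') (Or.inl hb') (Or.inl rfl) (Or.inr rfl)).1 hs')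
    by_cases hs : X.s b.1 ∈ H c'
    · right; right; left
      have := disjoint_of_strip hX (c := c.rev) (c' := c'.rev) hc'.rev h4
        (by rw [Tr.rev_rev]; exact h3) hbr hbr' a2 (by
          rw [hR', e1]
          intro h
          exact h ((strip_const h1' h2' (Or.inl hb) (Or.inl hb) (Or.inl rfl)
            (Or.inr rfl)).1 hs))
      rw [hR', compl_compl] at this
      exact this
    · right; right; right
      have := disjoint_of_strip hX (c := c.rev) (c' := c') hc' h2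
        (by rw [Tr.rev_rev]; exact h1) hbr hb' a1 (by
          rw [e1]
          intro h
          exact hs ((strip_const h1' h2' (Or.inl hb) (Or.inl hb) (Or.inr rfl)
            (Or.inl rfl)).1 h))
      rw [← hR'] at this
      exact this
  · by_cases hs : X.s b.1 ∈ H c'
    · left
      have := disjoint_of_strip hX (c := c) (c' := c'.rev) hc'.rev h3 h4
        hb hbr' (by
          rw [e2]
          exact fun h => hs'
            ((strip_const h1 h2 (Or.inl hb') (Or.inl hb') (Or.inr rfl) (Or.inl rfl)).1 h)) (by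
          rw [hR']
          exact fun h => h hs)
      rw [hR', compl_compl] at this
      exact this
    · right; left
      have := disjoint_of_strip hX hc' h1 h2 hb hb' hs' hs
      rw [← hR'] at this
      exact this

/-- a track is determined by its side -/
theorem H_inj (hX : X.Conn) {c c' : X.Tr} (hc : HasSide c) (hc' : HasSide c')
    (h : H c = H c') : c = c' := by
  obtain ⟨b, hb⟩ := exists_rep c
  have h1 : X.s b.1 ∉ H c' := by rw [← h]; exact tail_notMem hX hc hb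
  have h2 : X.t b.1 ∈ H c' := by rw [← h]; exact head_mem hb
  obtain ⟨f, hf1, hf2⟩ := cls_of_cross hX hc' h1 h2
  rw [← hb, ← hf2, BG.ext hf1]

end GCx

end Pool.CX
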