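import Pool.Agent.Work.MP_727c87_cx.C1.Pot
import Pool.Agent.Work.MP_727c87_cx.C1.GPaths
import Pool.Agent.Work.MP_727c87_cx.C1.Dih

set_option autoImplicit false

/-!
# The fine complex of a covering as a labelled complex (MP_727c87_gt, part C1)
-/

namespace Pool.CX

open Pool.CS

variable {Mo : Model} {Λ : Type}

/-! ### the complex -/

open Classical in
/-- next germ, total -/
noncomputable def Gm.nx' {C : Cov Mo} {h : ℕ} (g : Gm C h) : Gm C h :=
  if hg : g.hole then g else g.nx hg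

theorem Gm.nx'_eq {C : Cov Mo} {h : ℕ} {g : Gm C h} (hg : ¬ g.hole) : g.nx' = g.nx hg := by
  unfold Gm.nx'
  rw [dif_neg hg]

/-- the fine complex with a labelling -/
noncomputable def fineCx (C : Cov Mo) (h : ℕ) (l : Lab Mo h Λ) : GCx (Vx C h) Λ where
  Gm := Gm C h
  s := Gm.s
  t := Gm.t
  rev := Gm.rev
  op := Gm.op
  rev_rev := Gm.rev_rev
  op_op := Gm.op_op
  rev_op g := (Gm.op_rev g).symm
  s_rev := Gm.s_rev
  same := Same C h
  same_refl := Same.refl
  same_symm _ _ := Same.symm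
  same_trans _ _ _ := Same.trans
  same_op := Gm.same_op
  hole := Gm.hole
  hole_rev _ := Iff.rfl
  nx := Gm.nx'
  nx_hole g hg := by
    rw [Gm.nx'_eq hg]
    exact g.nx_hole hg
  s_nx g hg := by
    rw [Gm.nx'_eq hg]
    exact g.s_nx hg
  nx_nx_nx g hg := by
    have h1 : ¬ (g.nx hg).hole := hg
    have h2 : ¬ ((g.nx hg).nx h1).hole := hg
    rw [Gm.nx'_eq hg, Gm.nx'_eq h1, Gm.nx'_eq h2]
    exact g.nx3 hg
  nx_rev g hg := by
    have h0 : ¬ g.rev.hole := hg
    have h1 : ¬ (g.nx hg).hole := hg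
    rw [Gm.nx'_eq hg, Gm.nx'_eq h1, Gm.nx'_eq h0]
    exact g.nx_rev hg
  l := Vx.lab l
  l_same _ _ := Vx.lab_same l
  two g hg := by
    rw [Gm.nx'_eq hg]
    exact g.two l hg

section
variable {C : Cov Mo} {h : ℕ} (l : Lab Mo h Λ)

@[simp] theorem fineCx_s (g : Gm C h) : (fineCx C h l).s g = g.s := rfl
@[simp] theorem fineCx_t (g : Gm C h) : (fineCx C h l).t g = g.t := rfl
@[simp] theorem fineCx_rev (g : Gm C h) : (fineCx C h l).rev g = g.rev := rfl
@[simp] theorem fineCx_op (g : Gm C h) : (fineCx C h l).op g = g.op := rfl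
@[simp] theorem fineCx_hole (g : Gm C h) : (fineCx C h l).hole g ↔ g.hole := Iff.rfl
@[simp] theorem fineCx_l (x : Vx C h) : (fineCx C h l).l x = x.lab l := rfl

theorem fineCx_nx {g : Gm C h} (hg : ¬ g.hole) : (fineCx C h l).nx g = g.nx hg := Gm.nx'_eq hg

/-! ### potentials -/

/-- a cocycle of the complex -/
noncomputable def cocOf (f : Gm C h → ZMod 2) (h1 : ∀ g : Gm C h, f g.rev = f g)
    (h2 : ∀ g : Gm C h, f g.op = f g)
    (h3 : ∀ g : Gm C h, ¬ g.hole → f g + f g.nx' + f g.nx'.nx' = 0) : Coc C h where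
  f := f
  rev := h1
  op := h2
  tri g hg := by
    have h4 : ¬ (g.nx hg).hole := hg
    have h5 := h3 g hg
    rwa [Gm.nx'_eq hg, Gm.nx'_eq h4] at h5

/-- first cohomology of the universal covering -/
theorem fineCx_H1 (hC : C.Univ) (hh : 0 < h) : (fineCx C h l).H1 := by
  intro f h1 h2 h3
  exact Coc.exists_pot hC hh (cocOf f h1 h2 h3)

/-- the cocycle of a track -/
noncomputable def trackCoc (c : (fineCx C h l).Tr) : Coc C h :=
  cocOf (GCx.ind c) (fun _ => GCx.ind_congr GCx.on_grev) (fun _ => GCx.ind_congr GCx.on_gop)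
    (fun _ hg => GCx.ind_tri c hg)

theorem fineCx_hasSide (hC : C.Univ) (hh : 0 < h) (c : (fineCx C h l).Tr) : GCx.HasSide c :=
  (fineCx_H1 l hC hh).hasSide c

/-- closed tracks of the plane have sides -/
theorem plane_hasSide {q0 : Mo.Q} (hh : 0 < h) (c : (fineCx (Mo.plane q0) h l).Tr)
    (hc : ¬ GCx.IsArc c) : GCx.HasSide c := by
  refine Coc.exists_pot_plane Mo q0 hh (trackCoc l c) ?_
  intro y σ j hj hy
  apply GCx.ind_of_not
  rintro ⟨b, hb, h1⟩
  have hhole : (fineCx (Mo.plane q0) h l).hole b.1 := by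
    rw [hb]
    exact hy
  rcases h1 with h1 | h1
  · exact hc ⟨b, h1, hhole⟩
  · apply hc
    have h2 := GCx.IsArc.rev ⟨b, h1, hhole⟩
    rwa [GCx.Tr.rev_rev] at h2

end

/-! ### connectedness -/

section
variable {C : Cov Mo} {h : ℕ} (l : Lab Mo h Λ)

/-- corner of a kite -/
def Vx.cor (y : C.Y) : Vx C h := ⟨y, h, h, le_rfl, le_rfl, Or.inr (Or.inl rfl)⟩

private theorem adj_of (g : Gm C h) {x x' : Vx C h} (h1 : g.s = x) (h2 : g.t = x') :
    (fineCx C h l).Adj x x' := Or.inr ⟨g, h1, h2⟩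

/-- up along the side `i` -/
theorem adj_side (y : C.Y) {j : ℕ} (hj : j < h) (v w) :
    (fineCx C h l).Adj (⟨y, h, j, v⟩ : Vx C h) ⟨y, h, j + 1, w⟩ := by
  apply adj_of l (Gm.out y false j hj)
  · refine Vx.ext (by rfl) ?_ (by rfl)
    change h - 1 + 1 = h
    omega
  · refine Vx.ext (by rfl) ?_ (by rfl)
    change h - 1 + 1 = h
    omega

/-- up along the side `i + 1` -/
theorem adj_side' (y : C.Y) {i : ℕ} (hi : i < h) (v w) :
    (fineCx C h l).Adj (⟨y, i, h, v⟩ : Vx C h) ⟨y, i + 1, h, w⟩ := by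
  apply adj_of l (Gm.out y true i hi)
  · refine Vx.ext (by rfl) (by rfl) ?_
    change h - 1 + 1 = h
    omega
  · refine Vx.ext (by rfl) (by rfl) ?_
    change h - 1 + 1 = h
    omega

/-- horizontal edges -/
theorem adj_hor (y : C.Y) (hy : (C.p y).1 ∉ Mo.D) {i j : ℕ} (hi : i < h) (hj : j < h) (v w) :
    (fineCx C h l).Adj (⟨y, i, j, v⟩ : Vx C h) ⟨y, i + 1, j, w⟩ :=
  adj_of l (⟨y, false, i, j, 0, false, hi, hj, Or.inl hy⟩ : Gm C h) rfl rfl

abbrev Jn (x x' : Vx C h) : Prop := Relation.ReflTransGen (fineCx C h l).Adj x x'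

theorem Jn.symm {x x' : Vx C h} (H : Jn l x x') : Jn l x' x := by
  induction H with
  | refl => exact Relation.ReflTransGen.refl
  | tail _ h2 ih => exact Relation.ReflTransGen.head h2.symm ih

theorem jn_side (y : C.Y) (n : ℕ) : ∀ (j : ℕ) (_ : j + n = h) (v),
    Jn l (⟨y, h, j, v⟩ : Vx C h) (Vx.cor y) := by
  induction n with
  | zero =>
    intro j hj v
    have : (⟨y, h, j, v⟩ : Vx C h) = Vx.cor y := Vx.ext rfl rfl hj
    rw [this]
  | succ n ih =>
    intro j hj v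
    have w : C.Val h y h (j + 1) := ⟨le_rfl, by omega, Or.inr (Or.inl rfl)⟩
    exact Relation.ReflTransGen.head (adj_side l y (by omega) v w) (ih (j + 1) (by omega) w)

theorem jn_side' (y : C.Y) (n : ℕ) : ∀ (i : ℕ) (_ : i + n = h) (v),
    Jn l (⟨y, i, h, v⟩ : Vx C h) (Vx.cor y) := by
  induction n with
  | zero =>
    intro i hi v
    have : (⟨y, i, h, v⟩ : Vx C h) = Vx.cor y := Vx.ext rfl hi rfl
    rw [this]
  | succ n ih =>
    intro i hi v
    have w : C.Val h y (i + 1) h := ⟨by omega, le_rfl, Or.inr (Or.inr rfl)⟩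
    exact Relation.ReflTransGen.head (adj_side' l y (by omega) v w) (ih (i + 1) (by omega) w)

theorem jn_hor (y : C.Y) (hy : (C.p y).1 ∉ Mo.D) {j : ℕ} (hj : j < h) (n : ℕ) :
    ∀ (i : ℕ) (_ : i + n = h) (v), Jn l (⟨y, i, j, v⟩ : Vx C h) (Vx.cor y) := by
  induction n with
  | zero =>
    intro i hi v
    obtain rfl : i = h := by omega
    exact jn_side l y (i - j) j (by omega) v
  | succ n ih =>
    intro i hi v
    have w : C.Val h y (i + 1) j := ⟨by omega, by omega, Or.inl hy⟩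
    exact Relation.ReflTransGen.head (adj_hor l y hy (by omega) hj v w) (ih (i + 1) (by omega) w)

theorem jn_cor (x : Vx C h) : Jn l x (Vx.cor x.y) := by
  obtain ⟨y, i, j, v⟩ := x
  have v' := v
  obtain ⟨hi, hj, h3⟩ := v'
  rcases Nat.lt_or_ge j h with h4 | h4
  · rcases h3 with h3 | h3 | h3
    · exact jn_hor l y h3 h4 (h - i) i (by omega) v
    · subst h3
      exact jn_side l y (i - j) j (by omega) v
    · omega
  · obtain rfl : j = h := by omega
    exact jn_side' l y (j - i) i (by omega) v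

theorem jn_elem {y y' : C.Y} (H : C.Elem y y') : Jn l (Vx.cor y : Vx C h) (Vx.cor y') := by
  have hr : ∀ z : C.Y, Jn l (Vx.cor z : Vx C h) (Vx.cor (C.r z)) := by
    intro z
    have v : C.Val h z 0 h := ⟨Nat.zero_le _, le_rfl, Or.inr (Or.inr rfl)⟩
    have w : C.Val h (C.r z) h 0 := ⟨le_rfl, Nat.zero_le _, Or.inr (Or.inl rfl)⟩
    have h1 := Jn.symm l (jn_cor l (⟨z, 0, h, v⟩ : Vx C h))
    have h2 := jn_cor l (⟨C.r z, h, 0, w⟩ : Vx C h)
    have h3 : (fineCx C h l).Adj (⟨z, 0, h, v⟩ : Vx C h) ⟨C.r z, h, 0, w⟩ :=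
      Or.inl (Same.of (Gl.ray z h v w))
    exact (h1.tail h3).trans h2
  rcases H with rfl | rfl | rfl
  · refine Relation.ReflTransGen.single (Or.inl (Same.of ?_))
    exact Gl.side y h _ _
  · exact hr y
  · have h1 := hr (C.r.symm y)
    rw [Equiv.apply_symm_apply] at h1
    exact Jn.symm l h1

theorem fineCx_conn (hC : C.Conn) : (fineCx C h l).Conn := by
  intro x x'
  have key : ∀ y : C.Y, Relation.ReflTransGen C.Elem x.y y → Jn l x (Vx.cor y) := by
    intro y H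
    induction H with
    | refl => exact jn_cor l x
    | tail _ h2 ih => exact ih.trans (jn_elem l h2)
  exact (key x'.y (hC _ _)).trans (Jn.symm l (jn_cor l x'))

end

/-! ### morphisms -/

/-- morphism of coverings -/
structure CMor (C C' : Cov Mo) where
  f : C.Y → C'.Y
  a : ∀ z, f (C.a z) = C'.a (f z)
  r : ∀ z, f (C.r z) = C'.r (f z)
  p : ∀ z, C'.p (f z) = C.p z

namespace CMor

variable {C C' : Cov Mo} (φ : CMor C C') {h : ℕ}

theorem rs (z : C.Y) : φ.f (C.r.symm z) = C'.r.symm (φ.f z) := by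
  rw [Equiv.eq_symm_apply, ← φ.r, Equiv.apply_symm_apply]

theorem b (z : C.Y) : φ.f (C.b z) = C'.b (φ.f z) := by
  unfold Cov.b
  rw [φ.rs, φ.a, φ.r]

/-- on germs -/
def gm (g : Gm C h) : Gm C' h :=
  ⟨φ.f g.y, g.σ, g.i, g.j, g.e, g.rv, g.hi, g.hj, by rw [φ.p]; exact g.ok⟩

/-- on pre-vertices -/
def vx (x : Vx C h) : Vx C' h := ⟨φ.f x.y, x.i, x.j, by
  have := x.val
  unfold Cov.Val at this ⊢
  rwa [φ.p]⟩

theorem s_gm (g : Gm C h) : (φ.gm g).s = φ.vx g.s := rfl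
theorem t_gm (g : Gm C h) : (φ.gm g).t = φ.vx g.t := rfl
theorem rev_gm (g : Gm C h) : φ.gm g.rev = (φ.gm g).rev := rfl
theorem hole_gm (g : Gm C h) : (φ.gm g).hole ↔ g.hole := by
  unfold Gm.hole gm
  rw [φ.p]

theorem nx_gm (g : Gm C h) (hg : ¬ g.hole) :
    φ.gm (g.nx hg) = (φ.gm g).nx (fun h' => hg ((φ.hole_gm g).1 h')) := rfl

theorem nx'_gm (g : Gm C h) (hg : ¬ g.hole) : φ.gm g.nx' = (φ.gm g).nx' := by
  rw [Gm.nx'_eq hg, Gm.nx'_eq (fun h' => hg ((φ.hole_gm g).1 h'))]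
  rfl

theorem ray_f (σ : Bool) (y : C.Y) : φ.f (Gm.ray C σ y) = Gm.ray C' σ (φ.f y) := by
  cases σ
  · exact φ.rs y
  · exact φ.r y

theorem acr_f (σ : Bool) (y : C.Y) : φ.f (Gm.acr C σ y) = Gm.acr C' σ (φ.f y) := by
  cases σ
  · exact φ.a y
  · exact φ.b y

theorem op_gm (g : Gm C h) : φ.gm g.op = (φ.gm g).op := by
  rcases Gm.fin3 g.e with he | he | he
  · by_cases hj0 : g.j = 0
    · obtain ⟨a1, a2, a3, a4, a5, a6⟩ := g.op_e0_zero he hj0
      obtain ⟨b1, b2, b3, b4, b5, b6⟩ := (φ.gm g).op_e0_zero he hj0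
      exact Gm.ext' (((congrArg φ.f a1).trans (φ.ray_f _ _)).trans b1.symm) (a2.trans b2.symm)
        (a3.trans b3.symm) (a4.trans b4.symm) (a5.trans b5.symm) (a6.trans b6.symm)
    · obtain ⟨a1, a2, a3, a4, a5, a6⟩ := g.op_e0_pos he hj0
      obtain ⟨b1, b2, b3, b4, b5, b6⟩ := (φ.gm g).op_e0_pos he hj0
      exact Gm.ext' ((congrArg φ.f a1).trans b1.symm) (a2.trans b2.symm)
        (a3.trans b3.symm) (a4.trans b4.symm) (a5.trans b5.symm) (a6.trans b6.symm)
  · by_cases hi1 : g.i + 1 = h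
    · obtain ⟨a1, a2, a3, a4, a5, a6⟩ := g.op_e1_out he hi1
      obtain ⟨b1, b2, b3, b4, b5, b6⟩ := (φ.gm g).op_e1_out he hi1
      exact Gm.ext' (((congrArg φ.f a1).trans (φ.acr_f _ _)).trans b1.symm) (a2.trans b2.symm)
        (a3.trans b3.symm) (a4.trans b4.symm) (a5.trans b5.symm) (a6.trans b6.symm)
    · obtain ⟨a1, a2, a3, a4, a5, a6⟩ := g.op_e1_in he hi1
      obtain ⟨b1, b2, b3, b4, b5, b6⟩ := (φ.gm g).op_e1_in he hi1
      exact Gm.ext' ((congrArg φ.f a1).trans b1.symm) (a2.trans b2.symm)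
        (a3.trans b3.symm) (a4.trans b4.symm) (a5.trans b5.symm) (a6.trans b6.symm)
  · obtain ⟨a1, a2, a3, a4, a5, a6⟩ := g.op_e2 he
    obtain ⟨b1, b2, b3, b4, b5, b6⟩ := (φ.gm g).op_e2 he
    exact Gm.ext' ((congrArg φ.f a1).trans b1.symm) (a2.trans b2.symm)
        (a3.trans b3.symm) (a4.trans b4.symm) (a5.trans b5.symm) (a6.trans b6.symm)

theorem lab_vx (l : Lab Mo h Λ) (x : Vx C h) : (φ.vx x).lab l = x.lab l := by
  unfold Vx.lab vx
  rw [φ.p]

theorem same_vx {x x' : Vx C h} (H : Same C h x x') : Same C' h (φ.vx x) (φ.vx x') := by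
  induction H with
  | rel x x' H =>
    cases H with
    | ray y i v w => exact Same.ray rfl rfl rfl (φ.r y)
    | side y j v w => exact Same.side rfl rfl rfl (φ.a y)
    | side' y i v w => exact Same.side' rfl rfl rfl (φ.b y)
  | refl x => exact Same.refl _
  | symm x x' _ ih => exact ih.symm
  | trans x x' x'' _ _ ih1 ih2 => exact ih1.trans ih2

end CMor

/-- the projection to the base -/
def Cov.toBase (C : Cov Mo) : CMor C Mo.base where
  f := C.p
  a := C.p_a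
  r := C.p_r
  p _ := rfl

/-- a reflection moves every chamber -/
theorem Model.tau_ne (Mo : Model) (i : ZMod 12) (q : Mo.Q) : Mo.L.τ i q ≠ q := by
  intro h
  have h1 := Mo.inj q [i] (by simp) h
  have h2 : Red G12 [i] := ⟨rfl, red_nil⟩
  have h3 := len_wp h2
  rw [h1, len_one] at h3
  simp at h3

theorem Cov.a_ne (C : Cov Mo) (y : C.Y) : C.a y ≠ y := by
  intro h
  have h1 := C.p_a y
  rw [h] at h1
  have h2 := congrArg Prod.fst h1
  exact Mo.tau_ne _ _ h2.symm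

theorem Cov.b_ne (C : Cov Mo) (y : C.Y) : C.b y ≠ y := by
  intro h
  unfold Cov.b at h
  rw [Equiv.symm_apply_eq] at h
  exact C.a_ne _ h

theorem Gm.op_ne {C : Cov Mo} {h : ℕ} (g : Gm C h) : g.op ≠ g := by
  intro hg
  have hb : ∀ b : Bool, (!b) ≠ b := by decide
  rcases Gm.fin3 g.e with he | he | he
  · by_cases hj0 : g.j = 0
    · obtain ⟨a1, a2, a3, a4, a5, a6⟩ := g.op_e0_zero he hj0
      rw [hg] at a2
      exact hb _ a2.symm
    · obtain ⟨a1, a2, a3, a4, a5, a6⟩ := g.op_e0_pos he hj0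
      rw [hg] at a2
      exact hb _ a2.symm
  · by_cases hi1 : g.i + 1 = h
    · obtain ⟨a1, a2, a3, a4, a5, a6⟩ := g.op_e1_out he hi1
      rw [hg] at a1
      cases hσ : g.σ with
      | false =>
        rw [hσ] at a1
        exact C.a_ne _ a1.symm
      | true =>
        rw [hσ] at a1
        exact C.b_ne _ a1.symm
    · obtain ⟨a1, a2, a3, a4, a5, a6⟩ := g.op_e1_in he hi1
      rw [hg] at a2
      exact hb _ a2.symm
  · obtain ⟨a1, a2, a3, a4, a5, a6⟩ := g.op_e2 he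
    rw [hg] at a2
    exact hb _ a2.symm

/-- a morphism of coverings is a covering map of the complexes -/
noncomputable def CMor.cv {C C' : Cov Mo} (φ : CMor C C') {h : ℕ} (l : Lab Mo h Λ) :
    GCx.Cv (fineCx C h l) (fineCx C' h l) where
  q := φ.gm
  q_rev g := rfl
  q_op := φ.op_gm
  q_hole := φ.hole_gm
  q_nx := φ.nx'_gm
  q_l g := φ.lab_vx l g.s
  nd g hg h1 := by
    have h2 : (fineCx C' h l).nx g = g.nx hg := Gm.nx'_eq hg
    rw [h2] at h1
    have h3 : g.rv = !g.rv := congrArg Gm.rv h1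
    revert h3
    cases g.rv <;> simp
  ne g := g.op_ne

@[simp] theorem CMor.cv_q {C C' : Cov Mo} (φ : CMor C C') {h : ℕ} (l : Lab Mo h Λ) (g : Gm C h) :
    (φ.cv l).q g = φ.gm g := rfl

instance (h : ℕ) : Finite (Gm Mo.base h) := by
  let f : Gm Mo.base h → Mo.F × Bool × Fin h × Fin h × Fin 3 × Bool :=
    fun g => (g.y, g.σ, ⟨g.i, g.hi⟩, ⟨g.j, g.hj⟩, g.e, g.rv)
  have : Finite Mo.F := inferInstance
  refine Finite.of_injective f ?_
  intro g g' hg
  simp only [f, Prod.mk.injEq, Fin.mk.injEq] at hg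
  obtain ⟨h1, h2, h3, h4, h5, h6⟩ := hg
  exact Gm.ext' h1 h2 h3 h4 h5 h6

instance (h : ℕ) (l : Lab Mo h Λ) : Finite (fineCx Mo.base h l).Gm :=
  inferInstanceAs (Finite (Gm Mo.base h))

/-! ### deck transformations -/

section
variable {C : Cov Mo} {h : ℕ}

/-- a deck transformation as a morphism -/
def Cov.Aut.mor (A : C.Aut) : CMor C C := ⟨A.e, A.a, A.r, A.p⟩

/-- the inverse deck transformation -/
def Cov.Aut.inv (A : C.Aut) : C.Aut where
  e := A.e.symm
  a z := by rw [Equiv.symm_apply_eq, A.a, Equiv.apply_symm_apply]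
  r z := by rw [Equiv.symm_apply_eq, A.r, Equiv.apply_symm_apply]
  p z := by rw [← A.p, Equiv.apply_symm_apply]

/-- action on the complex -/
noncomputable def Cov.Aut.cx (A : C.Aut) (l : Lab Mo h Λ) : GCx.Aut (fineCx C h l) where
  f := ⟨A.mor.vx, A.inv.mor.vx,
    fun x => Vx.ext (A.e.symm_apply_apply x.y) rfl rfl,
    fun x => Vx.ext (A.e.apply_symm_apply x.y) rfl rfl⟩
  k := ⟨A.mor.gm, A.inv.mor.gm,
    fun g => Gm.ext' (A.e.symm_apply_apply g.y) rfl rfl rfl rfl rfl,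
    fun g => Gm.ext' (A.e.apply_symm_apply g.y) rfl rfl rfl rfl rfl⟩
  s_k _ := rfl
  k_rev _ := rfl
  k_op := A.mor.op_gm
  k_hole := A.mor.hole_gm
  k_nx := A.mor.nx'_gm
  f_same x y := by
    refine ⟨fun H => ?_, fun H => A.mor.same_vx H⟩
    have h1 := A.inv.mor.same_vx H
    have h2 : ∀ z : Vx C h, A.inv.mor.vx (A.mor.vx z) = z :=
      fun z => Vx.ext (A.e.symm_apply_apply z.y) rfl rfl
    change Same C h (A.inv.mor.vx (A.mor.vx x)) (A.inv.mor.vx (A.mor.vx y)) at h1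
    rwa [h2, h2] at h1
  f_l x := A.mor.lab_vx l x

@[simp] theorem Cov.Aut.cx_f (A : C.Aut) (l : Lab Mo h Λ) (x : Vx C h) :
    (A.cx l).f x = A.mor.vx x := rfl

@[simp] theorem Cov.Aut.cx_k (A : C.Aut) (l : Lab Mo h Λ) (g : Gm C h) :
    (A.cx l).k g = A.mor.gm g := rfl

theorem Cov.Aut.q_k (A : C.Aut) (l : Lab Mo h Λ) (g : (fineCx C h l).Gm) :
    (C.toBase.cv l).q ((A.cx l).k g) = (C.toBase.cv l).q g :=
  Gm.ext' (A.p _) rfl rfl rfl rfl rfl

/-- a deck transformation which preserves an arc track is trivial -/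
theorem Cov.Aut.eq_one_of_tr (hC : C.Conn) (A : C.Aut) (l : Lab Mo h Λ)
    {c : (fineCx C h l).Tr} (hc : GCx.IsArc c) (H : (A.cx l).tr c = c) : ∀ y, A.e y = y := by
  obtain ⟨b, hb⟩ := GCx.exists_rep c
  have h1 := GCx.Aut.fix_of_tr (A.cx l) (C.toBase.cv l) (A.q_k l) hc H hb
  have h2 : A.e (Gm.y (C := C) (h := h) b.1) = Gm.y (C := C) (h := h) b.1 :=
    congrArg (Gm.y (C := C) (h := h)) h1
  have h3 := Cov.Conn.aut_ext hC (e := A) (e' := ⟨Equiv.refl _, fun _ => rfl, fun _ => rfl,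
    fun _ => rfl⟩) h2
  intro y
  exact congrArg (fun e : Equiv.Perm C.Y => e y) h3

/-- transitivity on the fibres -/
theorem Cov.Univ.exists_cx (hC : C.Univ) (l : Lab Mo h Λ) {g g' : (fineCx C h l).Gm}
    (H : (C.toBase.cv l).q g = (C.toBase.cv l).q g') : ∃ A : C.Aut, (A.cx l).k g = g' := by
  have h1 : C.p (Gm.y (C := C) (h := h) g) = C.p (Gm.y (C := C) (h := h) g') :=
    congrArg (Gm.y (C := Mo.base) (h := h)) H
  obtain ⟨A, hA⟩ := hC.exists_aut h1
  refine ⟨A, Gm.ext' hA ?_ ?_ ?_ ?_ ?_⟩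
  · exact congrArg (Gm.σ (C := Mo.base) (h := h)) H
  · exact congrArg (Gm.i (C := Mo.base) (h := h)) H
  · exact congrArg (Gm.j (C := Mo.base) (h := h)) H
  · exact congrArg (Gm.e (C := Mo.base) (h := h)) H
  · exact congrArg (Gm.rv (C := Mo.base) (h := h)) H

/-- finitely many orbits of tracks -/
theorem Cov.Univ.finite_orbits (hC : C.Univ) (l : Lab Mo h Λ) :
    ∃ F : Set (fineCx C h l).Tr, F.Finite ∧ ∀ c, ∃ A : C.Aut, (A.cx l).tr c ∈ F := by
  obtain ⟨F, hF, h1⟩ := (C.toBase.cv l).finite_orbits (Set.range fun A : C.Aut => A.cx l)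
    (fun g g' H => by
      obtain ⟨A, hA⟩ := hC.exists_cx l H
      exact ⟨_, ⟨A, rfl⟩, hA⟩)
  refine ⟨F, hF, fun c => ?_⟩
  obtain ⟨_, ⟨A, rfl⟩, h2⟩ := h1 c
  exact ⟨A, h2⟩

end

end Pool.CX
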