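import Pool.Agent.Work.MP_727c87_cx.C1.Comp

set_option autoImplicit false

/-! # MP_727c87, part C1: assembly -/

namespace Pool.CX

open Relation

variable {Mo : Model}

namespace PF

theorem Dle.refl' {M : W → ZMod 12 → ZMod 12} (K : ℕ) (y : PF) : Dle M K y y := by
  induction K with
  | zero => exact (rfl : y = y)
  | succ K ih => exact ⟨y, ih, Or.inl rfl⟩

theorem Dle.trans' {M : W → ZMod 12 → ZMod 12} {K K' : ℕ} {x y z : PF} (h1 : Dle M K x y)
    (h2 : Dle M K' y z) : Dle M (K + K') x z := by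
  induction K' generalizing z with
  | zero =>
    have h3 : y = z := h2
    rw [← h3]
    exact h1
  | succ K' ih =>
    obtain ⟨u, h3, h4⟩ := h2
    exact ⟨u, ih h3, h4⟩

theorem Dle.mono' {M : W → ZMod 12 → ZMod 12} {K K' : ℕ} (hK : K ≤ K') {x y : PF}
    (h1 : Dle M K x y) : Dle M K' x y := by
  obtain ⟨d, rfl⟩ := Nat.exists_eq_add_of_le hK
  exact h1.trans' (Dle.refl' d y)

theorem Arc.symm' {M : W → ZMod 12 → ZMod 12} {x y : PF} (h : Arc M x y) : Arc M y x :=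
  Relation.EqvGen.symm _ _ h

theorem Dle.arc {M : W → ZMod 12 → ZMod 12} {x y : PF} (h : Arc M x y) : Dle M 1 x y :=
  ⟨x, (rfl : x = x), Or.inr (Or.inr (Or.inr h))⟩

end PF

/-- an element of the deck group as automorphism -/
def Cov.deckAut {C : Cov Mo} (g : C.deck) : C.Aut := ⟨g.1, g.2.1, g.2.2.1, g.2.2.2⟩

section
variable {C : Cov Mo} {h : ℕ} {Λ : Type} (l : Lab Mo h Λ)

/-- arc tracks -/
def ATr (C : Cov Mo) {h : ℕ} {Λ : Type} (l : Lab Mo h Λ) : Type :=
  {c : (fineCx C h l).Tr // GCx.IsArc c}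

theorem deck_one_tr (c : (fineCx C h l).Tr) : ((Cov.deckAut (1 : C.deck)).cx l).tr c = c := by
  obtain ⟨b, rfl⟩ := GCx.exists_rep c
  exact congrArg GCx.cls (GCx.BG.ext (Gm.ext' rfl rfl rfl rfl rfl rfl))

theorem deck_mul_tr (g g' : C.deck) (c : (fineCx C h l).Tr) :
    ((Cov.deckAut (g * g')).cx l).tr c =
      ((Cov.deckAut g).cx l).tr (((Cov.deckAut g').cx l).tr c) := by
  obtain ⟨b, rfl⟩ := GCx.exists_rep c
  exact congrArg GCx.cls (GCx.BG.ext (Gm.ext' rfl rfl rfl rfl rfl rfl))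

/-- the deck group acts on the arc tracks -/
noncomputable def atrAct : MulAction C.deck (ATr C l) where
  smul g c := ⟨((Cov.deckAut g).cx l).tr c.1, GCx.Aut.isArc_tr _ c.2⟩
  one_smul c := Subtype.ext (deck_one_tr l c.1)
  mul_smul g g' c := Subtype.ext (deck_mul_tr l g g' c.1)

theorem vis_deck (A : C.Aut) (c : (fineCx C h l).Tr) (y : C.Y) :
    A.e y ∈ vis ((A.cx l).tr c) ↔ y ∈ vis c := by
  constructor
  · rintro ⟨g', h1, h2⟩
    have e1 : (A.cx l).k ((A.cx l).k.symm g') = g' := (A.cx l).k.apply_symm_apply g'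
    rw [← e1] at h1
    have h3 := (A.cx l).on_tr_iff.1 h1
    have e2 : g'.y = A.e (Gm.y (C := C) (h := h) ((A.cx l).k.symm g')) :=
      (congrArg (Gm.y (C := C) (h := h)) e1).symm
    refine ⟨(A.cx l).k.symm g', h3, ?_⟩
    rcases h2 with h2 | h2
    · left
      rw [e2] at h2
      exact A.e.injective h2
    · right
      rw [e2, ← A.r] at h2
      exact A.e.injective h2
  · rintro ⟨g', h1, h2⟩
    refine ⟨(A.cx l).k g', (A.cx l).on_tr h1, ?_⟩
    rcases h2 with h2 | h2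
    · left
      change A.e g'.y = A.e y
      rw [h2]
    · right
      change C.r (A.e g'.y) = A.e y
      rw [← A.r, h2]

theorem vis_fin_arc {c : (fineCx C h l).Tr} (hc : GCx.IsArc c) : (vis c).Finite := by
  have h1 := (C.toBase.cv l).finite_on hc
  have h2 := h1.image (Gm.y (C := C) (h := h))
  have h3 := h1.image (fun g : Gm C h => C.r g.y)
  refine (h2.union h3).subset ?_
  rintro y ⟨g, h4, h5⟩
  rcases h5 with h5 | h5
  · exact Or.inl ⟨g, h4, h5⟩
  · exact Or.inr ⟨g, h4, h5⟩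

theorem arcR_adj {y : C.Y} {u v : Vx C h} (H : ReflTransGen (ArcR C h y) u v) :
    ReflTransGen (fun u v => (fineCx C h l).Adj u v ∧ u ∈ ArcV C h y ∧ v ∈ ArcV C h y) u v := by
  induction H with
  | refl => exact ReflTransGen.refl
  | tail _ h2 ih =>
    refine ih.tail ⟨?_, h2.2⟩
    rcases h2.1 with h3 | ⟨g, -, h4, h5⟩
    · exact Or.inl h3
    · exact Or.inr ⟨g, h4, h5⟩

end

/-- **C1** from the blocks about coverings -/
theorem c1_of (LFIN : Stmt_LFIN) (LIFT : Stmt_LIFT) (EXIT : Stmt_EXIT) : Stmt_TRK := by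
  intro K
  refine ⟨K + 2, 23 * K + 340, fun s => ⟨2 * K * M0 s + 3, ?_⟩⟩
  intro Mo hMo h Λ l hh hl C hC q0 dv hp
  have hN : 2 * K * M0 s + 3 ≤ 2 * K * M0 s + 3 := le_refl _
  have hconn : (fineCx C h l).Conn := fine_conn hC.conn
  have hS : ∀ c : (fineCx C h l).Tr, GCx.HasSide c := fineCx_hasSide l hC hh
  let φ : CMor C (Mo.plane q0) := dv.mor q0 hp
  have hvis : ∀ (c : (fineCx C h l).Tr) (v : C.Y), v ∈ vis c → dv.f v ∈ vis ((φ.gmap l).tr c) := by
    rintro c v ⟨g, h1, h2⟩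
    refine ⟨φ.gm g, (φ.gmap l).on_tr h1, ?_⟩
    rcases h2 with h2 | h2
    · left
      change dv.f g.y = dv.f v
      rw [h2]
    · right
      change (Mo.plane q0).r (φ.f g.y) = φ.f v
      rw [← φ.r, h2]
  have hpf : ∀ {k : ℕ} {y y' : (Mo.plane q0).Y}, (Mo.plane q0).Dle k y y' →
      PF.Dle (Mo.pmu q0) k y y' := fun h1 => (Mo.planeDev q0).dle h1
  have harc : ∀ (y : C.Y) (a : Vx C h), a ∈ ArcV C h y →
      PF.Dle (Mo.pmu q0) (1 + K) (dv.f y) (dv.f a.y) ∧
        PF.Dle (Mo.pmu q0) (K + 1) (dv.f a.y) (dv.f y) := by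
    rintro y a ⟨z, h1, -, h3⟩
    have h4 : (Mo.plane q0).Dle K (dv.f z.y) (dv.f a.y) :=
      same_small (l := l) (x := φ.vx z) (x' := φ.vx a) LIFT hMo hN hl (φ.same_vx h3)
    have h5 : PF.Arc (Mo.pmu q0) (dv.f y) (dv.f z.y) := dv.arc h1
    exact ⟨(PF.Dle.arc h5).trans' (hpf h4), (hpf h4.symm).trans' (PF.Dle.arc h5.symm')⟩
  letI := atrAct (C := C) l
  refine ⟨{
    Tr := ATr C l
    act := atrAct l
    rev := fun c => ⟨c.1.rev, c.2.rev⟩
    le := fun c d => GCx.H c.1 ⊆ GCx.H d.1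
    H := fun c => Hc c.1
    vis := fun c => vis c.1
    rev_rev := fun c => Subtype.ext c.1.rev_rev
    le_refl := fun c => subset_rfl
    le_trans := fun c d e h1 h2 => h1.trans h2
    le_antisymm := fun c d h1 h2 =>
      Subtype.ext (GCx.H_inj hconn (hS c.1) (hS d.1) (Set.Subset.antisymm h1 h2))
    le_rev := ?_
    nested := fun c d => GCx.nested hconn (hS c.1) (hS d.1)
    H_a := fun c y => Hc_a c.1 y
    H_b := fun c y => Hc_b c.1 y
    H_rev := fun c => Hc_rev hC.conn (hS c.1)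
    H_mono := fun c d h1 y hy => h1 hy
    vis_fin := fun c => vis_fin_arc l c.2
    vis_rev := fun c => vis_rev c.1
    bd := fun c y hy => Hc_bd c.1 y hy
    small := fun c y hy y' hy' =>
      hpf (vis_small LIFT hMo hN hl (hvis c.1 y hy) (hvis c.1 y' hy'))
    miss := fun c y0 B hB h1 h2 h3 h4 => miss_aux hh hC.conn c.1 (hS c.1) hB h1 h2 h3 h4
    complete := ?_
    g_rev := fun g c => Subtype.ext (GCx.Aut.tr_rev _ c.1)
    g_le := ?_
    g_H := fun g c y => ((Cov.deckAut g).cx l).mem_tr_iff (c := c.1) (x := cor y)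
    g_vis := fun g c y => vis_deck l (Cov.deckAut g) c.1 y
    free := ?_
    noinv := ?_
    orb := ?_ }⟩
  · intro c d h1
    change GCx.H d.1.rev ⊆ GCx.H c.1.rev
    rw [GCx.H_rev hconn (hS d.1), GCx.H_rev hconn (hS c.1)]
    exact Set.compl_subset_compl.2 h1
  · intro y y' B B' hd hB hB'
    rcases GCx.separated_or_free hconn (fun c => GCx.IsArc c) (fun c hc => hc.rev)
      (fun c _ => hS c) (A := ArcV C h y) (B := ArcV C h y')
      ⟨fmid y, mid_mem (Cov.SameArc.refl C y)⟩ ⟨fmid y', mid_mem (Cov.SameArc.refl C y')⟩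
      (fun a ha a' ha' => arcR_adj l (arc_conn hh ha ha'))
      (fun a ha a' ha' => arcR_adj l (arc_conn hh ha ha')) with
      ⟨c, hc, h1, h2⟩ | ⟨a, ha, b, hb, L, hL, hcl, -⟩
    · exact ⟨⟨c.rev, hc.rev⟩, complete_aux hC.conn c (hS c) hB hB' h1 h2⟩
    · exfalso
      apply hd
      have h1 := (φ.gmap l).pth_fv hL
      have h2 : ∀ c ∈ L.map (φ.gmap l).tr, ¬ GCx.IsArc c := by
        intro c hc
        obtain ⟨c', hc', rfl⟩ := List.mem_map.1 hc
        exact fun h3 => hcl c' hc' ((φ.gmap l).isArc_tr.1 h3)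
      have h3 := hpf (plane_close EXIT LIFT LFIN hMo hN hl hh h1 h2)
      exact (((harc y a ha).1.trans' h3).trans' (harc y' b hb).2).mono' (by omega)
  · intro g c d h1 x hx
    have h2 : ((Cov.deckAut g).cx l).f (((Cov.deckAut g).cx l).f.symm x) = x :=
      Equiv.apply_symm_apply _ _
    rw [← h2] at hx ⊢
    exact ((Cov.deckAut g).cx l).mem_tr_iff.2 (h1 (((Cov.deckAut g).cx l).mem_tr_iff.1 hx))
  · intro g c h1
    have h2 : ((Cov.deckAut g).cx l).tr c.1 = c.1 := congrArg Subtype.val h1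
    have h3 := Cov.Aut.eq_one_of_tr hC.conn (Cov.deckAut g) l c.2 h2
    exact Subtype.ext (Equiv.ext h3)
  · intro g c h1
    have h2 : ((Cov.deckAut g).cx l).tr c.1 = c.1.rev := congrArg Subtype.val h1
    exact GCx.Aut.tr_ne_rev _ c.1 h2
  · obtain ⟨F, hF, h1⟩ := hC.finite_orbits l
    have h2 : {c : ATr C l | c.1 ∈ F}.Finite := hF.preimage Subtype.val_injective.injOn
    refine ⟨h2.toFinset, fun c => ?_⟩
    obtain ⟨A, hA⟩ := h1 c.1
    refine ⟨⟨A.e, A.a, A.r, A.p⟩, ?_⟩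
    rw [Set.Finite.mem_toFinset]
    exact hA

end Pool.CX
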