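import Pool.Agent.Work.MP_727c87_cx.C1.Fine

set_option autoImplicit false

/-! # MP_727c87, part C1: cocycles of the fine complex are coboundaries -/

namespace Pool.CX

open Finset

theorem z2_add_self (x : ZMod 2) : x + x = 0 := CharTwo.add_self_eq_zero x

theorem z2_aux : ∀ a b x f : ZMod 2, a + (b + x) = a + (b + (x + f)) + f := by decide

/-- discrete Stokes on a square grid -/
theorem grid_pot (h : ℕ) (hz vt : ℕ → ℕ → ZMod 2)
    (sq : ∀ i j, i < h → j < h → hz i j + vt (i + 1) j = vt i j + hz i (j + 1)) :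
    ∃ K : ℕ → ℕ → ZMod 2, K 0 0 = 0 ∧ (∀ i j, i < h → j ≤ h → K (i + 1) j = K i j + hz i j) ∧
      (∀ i j, i ≤ h → j < h → K i (j + 1) = K i j + vt i j) := by
  refine ⟨fun i j => ∑ i' ∈ range i, hz i' 0 + ∑ j' ∈ range j, vt i j', by simp, ?_, ?_⟩
  · intro i j hi
    induction j with
    | zero => intro _; simp [sum_range_succ]
    | succ j ih =>
      intro hj
      have h1 := ih (by omega)
      have h2 := sq i j hi (by omega)
      simp only at h1 ⊢
      rw [sum_range_succ (fun j' => vt (i + 1) j'), ← add_assoc, h1,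
        sum_range_succ (fun j' => vt i j')]
      calc ∑ i' ∈ range i, hz i' 0 + ∑ j' ∈ range j, vt i j' + hz i j + vt (i + 1) j
          = ∑ i' ∈ range i, hz i' 0 + ∑ j' ∈ range j, vt i j' + (hz i j + vt (i + 1) j) := by ring
        _ = _ := by rw [h2]; ring
  · intro i j _ _
    simp only
    rw [sum_range_succ (fun j' => vt i j'), add_assoc]

variable {Mo : Model} {C : Cov Mo} {h : ℕ}

/-- the germ on the side of the chamber -/
def Gm.out (y : C.Y) (σ : Bool) (j : ℕ) (hj : j < h) : Gm C h :=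
  ⟨y, σ, h - 1, j, 1, false, by omega, hj, Or.inr ⟨by omega, rfl⟩⟩

/-- Z/2-cocycles of the fine complex -/
structure Coc (C : Cov Mo) (h : ℕ) where
  f : Gm C h → ZMod 2
  rev : ∀ g, f g.rev = f g
  op : ∀ g, f g.op = f g
  tri : ∀ g (hg : ¬ g.hole), f g + f (g.nx hg) + f ((g.nx hg).nx hg) = 0

namespace Coc
variable (c : Coc C h)

open Classical in
/-- value on the edge `j → j+1` of the side -/
noncomputable def F (y : C.Y) (σ : Bool) (j : ℕ) : ZMod 2 :=
  if hj : j < h then c.f (Gm.out y σ j hj) else 0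

/-- from the point `k` of the side to the corner -/
noncomputable def S (y : C.Y) (σ : Bool) (k : ℕ) : ZMod 2 := ∑ j ∈ Ico k h, c.F y σ j

/-- value on the whole side of `y` -/
noncomputable def eps (y : C.Y) : ZMod 2 := c.S (C.r.symm y) true 0 + c.S y false 0

theorem F_acr (y : C.Y) (σ : Bool) (j : ℕ) : c.F (Gm.acr C σ y) σ j = c.F y σ j := by
  unfold F
  by_cases hj : j < h
  · rw [dif_pos hj, dif_pos hj, ← c.op (Gm.out y σ j hj)]
    congr 1
    have hi1 : (Gm.out y σ j hj).i + 1 = h := by change h - 1 + 1 = h; omega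
    obtain ⟨a1, a2, a3, a4, a5, a6⟩ := (Gm.out y σ j hj).op_e1_out rfl hi1
    exact Gm.ext' a1.symm a2.symm a3.symm a4.symm a5.symm a6.symm
  · rw [dif_neg hj, dif_neg hj]

theorem S_a (y : C.Y) (k : ℕ) : c.S (C.a y) false k = c.S y false k :=
  sum_congr rfl fun j _ => c.F_acr y false j

theorem S_b (y : C.Y) (k : ℕ) : c.S (C.b y) true k = c.S y true k :=
  sum_congr rfl fun j _ => c.F_acr y true j

theorem eps_a (y : C.Y) : c.eps (C.a y) = c.eps y := by
  unfold eps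
  rw [c.S_a]
  have h1 : C.r.symm (C.a y) = C.b (C.r.symm y) := by
    unfold Cov.b; rw [Equiv.apply_symm_apply]
  rw [h1, c.S_b]

theorem S_h (y : C.Y) (σ : Bool) : c.S y σ h = 0 := by simp [S]

theorem S_succ (y : C.Y) (σ : Bool) {k : ℕ} (hk : k < h) :
    c.S y σ k = c.f (Gm.out y σ k hk) + c.S y σ (k + 1) := by
  unfold S
  rw [sum_eq_sum_Ico_succ_bot hk]
  congr 1
  unfold F
  rw [dif_pos hk]

open Classical in
/-- horizontal edges `(i,j) → (i+1,j)` -/
noncomputable def hz (y : C.Y) (i j : ℕ) : ZMod 2 :=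
  if H : i < h ∧ j < h ∧ (C.p y).1 ∉ Mo.D then
    c.f ⟨y, false, i, j, 0, false, H.1, H.2.1, Or.inl H.2.2⟩ else c.F y true i

open Classical in
/-- vertical edges `(i,j) → (i,j+1)` -/
noncomputable def vt (y : C.Y) (i j : ℕ) : ZMod 2 :=
  if H : i < h ∧ j < h ∧ (C.p y).1 ∉ Mo.D then
    c.f ⟨y, true, j, i, 0, false, H.2.1, H.1, Or.inl H.2.2⟩ else c.F y false j

theorem vt_eq (y : C.Y) (hy : (C.p y).1 ∉ Mo.D) {i j : ℕ} (hi : i < h) (hj : j < h) :
    c.vt y (i + 1) j = c.f ⟨y, false, i, j, 1, false, hi, hj, Or.inl hy⟩ := by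
  unfold vt
  by_cases H : i + 1 < h ∧ j < h ∧ (C.p y).1 ∉ Mo.D
  · rw [dif_pos H, ← c.op ⟨y, false, i, j, 1, false, hi, hj, Or.inl hy⟩]
    congr 1
    obtain ⟨a1, a2, a3, a4, a5, a6⟩ :=
      (Gm.op_e1_in (⟨y, false, i, j, 1, false, hi, hj, Or.inl hy⟩ : Gm C h) rfl
        (by change i + 1 ≠ h; omega))
    exact Gm.ext' a1.symm a2.symm a3.symm a4.symm a5.symm a6.symm
  · rw [dif_neg H]
    have hi1 : i + 1 = h := by
      by_contra hne
      exact H ⟨by omega, hj, hy⟩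
    unfold F
    rw [dif_pos hj]
    congr 1
    exact Gm.ext' rfl rfl (by change h - 1 = i; omega) rfl rfl rfl

theorem hz_eq (y : C.Y) (hy : (C.p y).1 ∉ Mo.D) {i j : ℕ} (hi : i < h) (hj : j < h) :
    c.hz y i (j + 1) = c.f ⟨y, true, j, i, 1, false, hj, hi, Or.inl hy⟩ := by
  unfold hz
  by_cases H : i < h ∧ j + 1 < h ∧ (C.p y).1 ∉ Mo.D
  · rw [dif_pos H, ← c.op ⟨y, true, j, i, 1, false, hj, hi, Or.inl hy⟩]
    congr 1
    obtain ⟨a1, a2, a3, a4, a5, a6⟩ :=
      (Gm.op_e1_in (⟨y, true, j, i, 1, false, hj, hi, Or.inl hy⟩ : Gm C h) rfl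
        (by change j + 1 ≠ h; omega))
    exact Gm.ext' a1.symm a2.symm a3.symm a4.symm a5.symm a6.symm
  · rw [dif_neg H]
    have hj1 : j + 1 = h := by
      by_contra hne
      exact H ⟨hi, by omega, hy⟩
    unfold F
    rw [dif_pos hi]
    congr 1
    exact Gm.ext' rfl rfl (by change h - 1 = j; omega) rfl rfl rfl

theorem diag_eq (y : C.Y) (hy : (C.p y).1 ∉ Mo.D) {i j : ℕ} (hi : i < h) (hj : j < h) :
    c.f ⟨y, false, i, j, 2, false, hi, hj, Or.inl hy⟩ =
      c.f ⟨y, true, j, i, 2, false, hj, hi, Or.inl hy⟩ := by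
  obtain ⟨a1, a2, a3, a4, a5, a6⟩ :=
    (Gm.op_e2 (⟨y, false, i, j, 2, false, hi, hj, Or.inl hy⟩ : Gm C h) rfl)
  rw [← c.op ⟨y, false, i, j, 2, false, hi, hj, Or.inl hy⟩]
  exact congrArg c.f (Gm.ext' a1 a2 a3 a4 a5 a6)

theorem tri_f (y : C.Y) (hy : (C.p y).1 ∉ Mo.D) {i j : ℕ} (hi : i < h) (hj : j < h) :
    c.hz y i j + c.vt y (i + 1) j =
      c.f ⟨y, false, i, j, 2, false, hi, hj, Or.inl hy⟩ := by
  have h1 := c.tri ⟨y, false, i, j, 0, false, hi, hj, Or.inl hy⟩ hy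
  have e1 : (Gm.nx (⟨y, false, i, j, 0, false, hi, hj, Or.inl hy⟩ : Gm C h) hy) =
      ⟨y, false, i, j, 1, false, hi, hj, Or.inl hy⟩ := Gm.ext' rfl rfl rfl rfl Gm.nxe_0f rfl
  have e2 : (Gm.nx (Gm.nx (⟨y, false, i, j, 0, false, hi, hj, Or.inl hy⟩ : Gm C h) hy) hy) =
      ⟨y, false, i, j, 2, false, hi, hj, Or.inl hy⟩ := Gm.ext' rfl rfl rfl rfl (by
        change Gm.nxe (Gm.nxe 0 false) false = 2
        rw [Gm.nxe_0f, Gm.nxe_1f]) rfl
  rw [e2, e1] at h1
  rw [c.vt_eq y hy hi hj]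
  unfold hz
  rw [dif_pos ⟨hi, hj, hy⟩]
  calc _ = c.f ⟨y, false, i, j, 0, false, hi, hj, Or.inl hy⟩ +
        c.f ⟨y, false, i, j, 1, false, hi, hj, Or.inl hy⟩ +
        c.f ⟨y, false, i, j, 2, false, hi, hj, Or.inl hy⟩ +
        c.f ⟨y, false, i, j, 2, false, hi, hj, Or.inl hy⟩ := by
          rw [add_assoc _ (c.f ⟨y, false, i, j, 2, false, hi, hj, Or.inl hy⟩) _, z2_add_self, add_zero]
    _ = _ := by rw [h1, zero_add]

theorem tri_t (y : C.Y) (hy : (C.p y).1 ∉ Mo.D) {i j : ℕ} (hi : i < h) (hj : j < h) :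
    c.vt y i j + c.hz y i (j + 1) =
      c.f ⟨y, true, j, i, 2, false, hj, hi, Or.inl hy⟩ := by
  have h1 := c.tri ⟨y, true, j, i, 0, false, hj, hi, Or.inl hy⟩ hy
  have e1 : (Gm.nx (⟨y, true, j, i, 0, false, hj, hi, Or.inl hy⟩ : Gm C h) hy) =
      ⟨y, true, j, i, 1, false, hj, hi, Or.inl hy⟩ := Gm.ext' rfl rfl rfl rfl Gm.nxe_0f rfl
  have e2 : (Gm.nx (Gm.nx (⟨y, true, j, i, 0, false, hj, hi, Or.inl hy⟩ : Gm C h) hy) hy) =
      ⟨y, true, j, i, 2, false, hj, hi, Or.inl hy⟩ := Gm.ext' rfl rfl rfl rfl (by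
        change Gm.nxe (Gm.nxe 0 false) false = 2
        rw [Gm.nxe_0f, Gm.nxe_1f]) rfl
  rw [e2, e1] at h1
  rw [c.hz_eq y hy hi hj]
  unfold vt
  rw [dif_pos ⟨hi, hj, hy⟩]
  calc _ = c.f ⟨y, true, j, i, 0, false, hj, hi, Or.inl hy⟩ +
        c.f ⟨y, true, j, i, 1, false, hj, hi, Or.inl hy⟩ +
        c.f ⟨y, true, j, i, 2, false, hj, hi, Or.inl hy⟩ +
        c.f ⟨y, true, j, i, 2, false, hj, hi, Or.inl hy⟩ := by
          rw [add_assoc _ (c.f ⟨y, true, j, i, 2, false, hj, hi, Or.inl hy⟩) _, z2_add_self, add_zero]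
    _ = _ := by rw [h1, zero_add]

theorem exists_K (y : C.Y) : ∃ K : ℕ → ℕ → ZMod 2, (C.p y).1 ∉ Mo.D → (K 0 0 = 0 ∧
    (∀ i j, i < h → j ≤ h → K (i + 1) j = K i j + c.hz y i j) ∧
      (∀ i j, i ≤ h → j < h → K i (j + 1) = K i j + c.vt y i j)) := by
  by_cases hy : (C.p y).1 ∉ Mo.D
  · obtain ⟨K, hK⟩ := grid_pot h (c.hz y) (c.vt y) (by
      intro i j hi hj
      rw [c.tri_f y hy hi hj, c.tri_t y hy hi hj, c.diag_eq y hy hi hj])
    exact ⟨K, fun _ => hK⟩
  · exact ⟨fun _ _ => 0, fun hy' => absurd hy' hy⟩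

/-- potential inside the kite of a non-defect chamber -/
noncomputable def K (y : C.Y) : ℕ → ℕ → ZMod 2 := (c.exists_K y).choose

theorem K_zero (y : C.Y) (hy : (C.p y).1 ∉ Mo.D) : c.K y 0 0 = 0 :=
  ((c.exists_K y).choose_spec hy).1
theorem K_hz (y : C.Y) (hy : (C.p y).1 ∉ Mo.D) {i j : ℕ} (hi : i < h) (hj : j ≤ h) :
    c.K y (i + 1) j = c.K y i j + c.hz y i j := ((c.exists_K y).choose_spec hy).2.1 i j hi hj
theorem K_vt (y : C.Y) (hy : (C.p y).1 ∉ Mo.D) {i j : ℕ} (hi : i ≤ h) (hj : j < h) :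
    c.K y i (j + 1) = c.K y i j + c.vt y i j := ((c.exists_K y).choose_spec hy).2.2 i j hi hj

theorem hz_top (y : C.Y) {i : ℕ} (hi : i < h) : c.hz y i h = c.f (Gm.out y true i hi) := by
  unfold hz
  rw [dif_neg (fun H => absurd H.2.1 (lt_irrefl _))]
  unfold F
  rw [dif_pos hi]

theorem vt_top (y : C.Y) {j : ℕ} (hj : j < h) : c.vt y h j = c.f (Gm.out y false j hj) := by
  unfold vt
  rw [dif_neg (fun H => absurd H.1 (lt_irrefl _))]
  unfold F
  rw [dif_pos hj]

theorem K_false (y : C.Y) (hy : (C.p y).1 ∉ Mo.D) {k : ℕ} (hk : k ≤ h) :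
    c.K y h k = c.K y h h + c.S y false k := by
  induction hk using Nat.decreasingInduction with
  | self => rw [c.S_h, add_zero]
  | of_succ k hk ih =>
    rw [c.S_succ y false hk]
    have h1 := c.K_vt y hy (le_refl h) hk
    rw [c.vt_top y hk, ih] at h1
    calc c.K y h k = c.K y h k + c.f (Gm.out y false k hk) + c.f (Gm.out y false k hk) := by
          rw [add_assoc, z2_add_self, add_zero]
      _ = _ := by rw [← h1]; ring

theorem K_true (y : C.Y) (hy : (C.p y).1 ∉ Mo.D) {k : ℕ} (hk : k ≤ h) :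
    c.K y k h = c.K y h h + c.S y true k := by
  induction hk using Nat.decreasingInduction with
  | self => rw [c.S_h, add_zero]
  | of_succ k hk ih =>
    rw [c.S_succ y true hk]
    have h1 := c.K_hz y hy hk (le_refl h)
    rw [c.hz_top y hk, ih] at h1
    calc c.K y k h = c.K y k h + c.f (Gm.out y true k hk) + c.f (Gm.out y true k hk) := by
          rw [add_assoc, z2_add_self, add_zero]
      _ = _ := by rw [← h1]; ring

theorem K_ray (hh : 0 < h) (y : C.Y) (hy : (C.p y).1 ∉ Mo.D) {k : ℕ} (hk : k ≤ h) :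
    c.K y 0 k = c.K (C.r y) k 0 := by
  have hy' : (C.p (C.r y)).1 ∉ Mo.D := by rw [C.p_r_fst]; exact hy
  induction k with
  | zero => rw [c.K_zero y hy, c.K_zero _ hy']
  | succ k ih =>
    rw [c.K_vt y hy (Nat.zero_le _) (by omega), c.K_hz (C.r y) hy' (by omega) (Nat.zero_le _),
      ih (by omega)]
    congr 1
    unfold vt hz
    rw [dif_pos ⟨hh, by omega, hy⟩, dif_pos ⟨by omega, hh, hy'⟩]
    rw [← c.op ⟨y, true, k, 0, 0, false, _, _, _⟩]
    obtain ⟨a1, a2, a3, a4, a5, a6⟩ :=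
      (Gm.op_e0_zero (⟨y, true, k, 0, 0, false, by omega, hh, Or.inl hy⟩ : Gm C h) rfl rfl)
    exact congrArg c.f (Gm.ext' a1 a2 a3 a4 a5 a6)

theorem eps_eq (hh : 0 < h) (y : C.Y) (hy : (C.p y).1 ∉ Mo.D) :
    c.eps y = c.K (C.r.symm y) h h + c.K y h h := by
  have hy' : (C.p (C.r.symm y)).1 ∉ Mo.D := by rw [C.p_rsymm_fst]; exact hy
  have h1 := c.K_true (C.r.symm y) hy' (Nat.zero_le h)
  have h2 := c.K_false y hy (Nat.zero_le h)
  have h3 := c.K_ray hh (C.r.symm y) hy' (le_refl h)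
  rw [Equiv.apply_symm_apply] at h3
  unfold eps
  have e1 : c.S (C.r.symm y) true 0 = c.K (C.r.symm y) h h + c.K y h 0 := by
    rw [← h3, h1, ← add_assoc, z2_add_self, zero_add]
  have e2 : c.S y false 0 = c.K y h h + c.K y h 0 := by
    rw [h2, ← add_assoc, z2_add_self, zero_add]
  rw [e1, e2]
  calc _ = c.K (C.r.symm y) h h + c.K y h h + (c.K y h 0 + c.K y h 0) := by ring
    _ = _ := by rw [z2_add_self, add_zero]

theorem eps_sum (hh : 0 < h) (y : C.Y) (hy : (C.p y).1 ∉ Mo.D) :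
    ∑ k ∈ range 12, c.eps ((C.r ^ k) y) = 0 := by
  have h1 : ∀ k, c.eps ((C.r ^ k) y) =
      c.K (C.r.symm ((C.r ^ k) y)) h h + c.K ((C.r ^ k) y) h h := by
    intro k
    exact c.eps_eq hh _ (by rw [C.p_pow_fst]; exact hy)
  rw [sum_congr rfl (fun k _ => h1 k), sum_add_distrib]
  have h2 : ∑ k ∈ range 12, c.K (C.r.symm ((C.r ^ k) y)) h h =
      ∑ k ∈ range 12, c.K ((C.r ^ k) y) h h := by
    rw [sum_range_succ' (fun k => c.K (C.r.symm ((C.r ^ k) y)) h h) 11,
      sum_range_succ (fun k => c.K ((C.r ^ k) y) h h) 11]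
    congr 1
    · refine sum_congr rfl fun k _ => ?_
      rw [pow_succ', Equiv.Perm.mul_apply, Equiv.symm_apply_apply]
    · congr 1
      rw [pow_zero, Equiv.Perm.one_apply, Equiv.symm_apply_eq, ← Equiv.Perm.mul_apply, ← pow_succ']
      exact (C.nd y hy).symm
  rw [h2, z2_add_self]

open Classical in
/-- the potential -/
noncomputable def H (B : C.Y → ZMod 2) (x : Vx C h) : ZMod 2 :=
  B x.y + (if (C.p x.y).1 ∉ Mo.D then c.K x.y h h + c.K x.y x.i x.j else
    if x.i = h then c.S x.y false x.j else c.S x.y true x.i)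

theorem H_false (B : C.Y → ZMod 2) (x : Vx C h) (hx : x.i = h) :
    c.H B x = B x.y + c.S x.y false x.j := by
  unfold H
  congr 1
  by_cases hy : (C.p x.y).1 ∉ Mo.D
  · rw [if_pos hy, hx, c.K_false x.y hy x.val.2.1, ← add_assoc, z2_add_self, zero_add]
  · rw [if_neg hy, if_pos hx]

theorem H_true (B : C.Y → ZMod 2) (x : Vx C h) (hx : x.j = h) :
    c.H B x = B x.y + c.S x.y true x.i := by
  by_cases hi : x.i = h
  · rw [c.H_false B x hi, hx, hi, c.S_h, c.S_h]
  unfold H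
  congr 1
  by_cases hy : (C.p x.y).1 ∉ Mo.D
  · rw [if_pos hy, hx, c.K_true x.y hy x.val.1, ← add_assoc, z2_add_self, zero_add]
  · rw [if_neg hy, if_neg hi]

theorem H_nd (B : C.Y → ZMod 2) (x : Vx C h) (hy : (C.p x.y).1 ∉ Mo.D) :
    c.H B x = B x.y + (c.K x.y h h + c.K x.y x.i x.j) := by
  unfold H; rw [if_pos hy]

theorem H_same (hh : 0 < h) (B : C.Y → ZMod 2) (hBa : ∀ y, B (C.a y) = B y)
    (hBb : ∀ y, B (C.b y) = B y) (hBr : ∀ y, B (C.r y) = B y + c.eps (C.r y)) {x x' : Vx C h}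
    (hx : Same C h x x') : c.H B x = c.H B x' := by
  induction hx with
  | rel x x' hx =>
    cases hx with
    | ray y i v w =>
      by_cases hy : (C.p y).1 ∉ Mo.D
      · have hy' : (C.p (C.r y)).1 ∉ Mo.D := by rw [C.p_r_fst]; exact hy
        rw [c.H_nd B _ hy, c.H_nd B _ hy']
        simp only
        rw [hBr, c.eps_eq hh _ hy', Equiv.symm_apply_apply, c.K_ray hh y hy v.2.1]
        calc _ = B y + (c.K y h h + c.K (C.r y) i 0) +
              (c.K (C.r y) h h + c.K (C.r y) h h) := by rw [z2_add_self, add_zero]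
          _ = _ := by ring
      · have hi : i = h := by
          rcases v.2.2 with hv | hv | hv
          · exact absurd hv hy
          · omega
          · exact hv
        subst hi
        rw [c.H_true B _ rfl, c.H_false B _ rfl]
        simp only
        rw [hBr]
        unfold eps
        rw [Equiv.symm_apply_apply]
        calc _ = B y + c.S y true 0 + (c.S (C.r y) false 0 + c.S (C.r y) false 0) := by
              rw [z2_add_self, add_zero]
          _ = _ := by ring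
    | side y j v w =>
      rw [c.H_false B _ rfl, c.H_false B _ rfl]
      simp only
      rw [hBa, c.S_a]
    | side' y i v w =>
      rw [c.H_true B _ rfl, c.H_true B _ rfl]
      simp only
      rw [hBb, c.S_b]
  | refl x => rfl
  | symm x x' _ ih => exact ih.symm
  | trans x x' x'' _ _ ih1 ih2 => exact ih1.trans ih2

theorem H_edge_f (B : C.Y → ZMod 2) (g : Gm C h) (hrv : g.rv = false) :
    c.H B g.t = c.H B g.s + c.f g := by
  obtain ⟨y, σ, i, j, e, rv, hi, hj, ok⟩ := g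
  simp only at hrv
  subst hrv
  by_cases hy : (C.p y).1 ∉ Mo.D
  · have e0f : c.K y (i + 1) j = c.K y i j + c.f ⟨y, false, i, j, 0, false, hi, hj, Or.inl hy⟩ := by
      rw [c.K_hz y hy hi hj.le]
      unfold hz; rw [dif_pos ⟨hi, hj, hy⟩]
    have e1f : c.K y (i + 1) (j + 1) = c.K y (i + 1) j +
        c.f ⟨y, false, i, j, 1, false, hi, hj, Or.inl hy⟩ := by
      rw [c.K_vt y hy (by omega) hj, c.vt_eq y hy hi hj]
    have e2f : c.K y (i + 1) (j + 1) = c.K y i j +
        c.f ⟨y, false, i, j, 2, false, hi, hj, Or.inl hy⟩ := by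
      rw [e1f, e0f, ← c.tri_f y hy hi hj, c.vt_eq y hy hi hj]
      unfold hz; rw [dif_pos ⟨hi, hj, hy⟩]; ring
    have e0t : c.K y j (i + 1) = c.K y j i + c.f ⟨y, true, i, j, 0, false, hi, hj, Or.inl hy⟩ := by
      rw [c.K_vt y hy hj.le hi]
      unfold vt; rw [dif_pos ⟨hj, hi, hy⟩]
    have e1t : c.K y (j + 1) (i + 1) = c.K y j (i + 1) +
        c.f ⟨y, true, i, j, 1, false, hi, hj, Or.inl hy⟩ := by
      rw [c.K_hz y hy hj (by omega), c.hz_eq y hy hj hi]
    have e2t : c.K y (j + 1) (i + 1) = c.K y j i +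
        c.f ⟨y, true, i, j, 2, false, hi, hj, Or.inl hy⟩ := by
      rw [e1t, e0t, ← c.tri_t y hy hj hi, c.hz_eq y hy hj hi]
      unfold vt; rw [dif_pos ⟨hj, hi, hy⟩]; ring
    rw [c.H_nd B _ hy, c.H_nd B _ hy]
    rcases Gm.fin3 e with rfl | rfl | rfl <;> cases σ <;>
      simp only [Gm.s, Gm.t, Gm.tl, Gm.hd, ptc, Gm.en0, Gm.en1] <;> simp
    · rw [e0f]; ring
    · rw [e0t]; ring
    · rw [e1f]; ring
    · rw [e1t]; ring
    · rw [e2f]
      exact z2_aux _ _ _ _
    · rw [e2t]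
      exact z2_aux _ _ _ _
  · obtain ⟨hi1, rfl⟩ := ok.resolve_left hy
    have hi2 : i = h - 1 := by omega
    subst hi2
    cases σ
    · rw [c.H_false B _ (by simp [Gm.t, Gm.hd, ptc, Gm.en0, Gm.en1]; omega),
        c.H_false B _ (by simp [Gm.s, Gm.tl, ptc, Gm.en0, Gm.en1]; omega)]
      simp only [Gm.s, Gm.t, Gm.tl, Gm.hd, ptc, Gm.en0, Gm.en1]
      simp
      have h1 := c.S_succ y false hj
      rw [h1]
      change _ = B y + (c.f ⟨y, false, h - 1, j, 1, false, _, _, _⟩ + _) + _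
      calc B y + c.S y false (j + 1) = B y + c.S y false (j + 1) +
            (c.f (Gm.out y false j hj) + c.f (Gm.out y false j hj)) := by rw [z2_add_self, add_zero]
        _ = B y + (c.f (Gm.out y false j hj) + c.S y false (j + 1)) + c.f (Gm.out y false j hj) := by
            ring
    · rw [c.H_true B _ (by simp [Gm.t, Gm.hd, ptc, Gm.en0, Gm.en1]; omega),
        c.H_true B _ (by simp [Gm.s, Gm.tl, ptc, Gm.en0, Gm.en1]; omega)]
      simp only [Gm.s, Gm.t, Gm.tl, Gm.hd, ptc, Gm.en0, Gm.en1]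
      simp
      have h1 := c.S_succ y true hj
      rw [h1]
      change _ = B y + (c.f ⟨y, true, h - 1, j, 1, false, _, _, _⟩ + _) + _
      calc B y + c.S y true (j + 1) = B y + c.S y true (j + 1) +
            (c.f (Gm.out y true j hj) + c.f (Gm.out y true j hj)) := by rw [z2_add_self, add_zero]
        _ = B y + (c.f (Gm.out y true j hj) + c.S y true (j + 1)) + c.f (Gm.out y true j hj) := by
            ring

theorem H_edge (B : C.Y → ZMod 2) (g : Gm C h) : c.H B g.t = c.H B g.s + c.f g := by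
  rcases hrv : g.rv with _ | _
  · exact c.H_edge_f B g hrv
  · have h1 := c.H_edge_f B g.rev (by simp [Gm.rev, hrv])
    rw [Gm.s_rev, Gm.t_rev, c.rev] at h1
    rw [h1, add_assoc, z2_add_self, add_zero]

/-- value of the potential at the corner -/
theorem H_corner (B : C.Y → ZMod 2) (x : Vx C h) (hi : x.i = h) (hj : x.j = h) :
    c.H B x = B x.y := by
  rw [c.H_false B x hi, hj, c.S_h, add_zero]

end Coc

/-- Universal coverings: every cocycle of the fine complex has a potential. -/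
theorem Coc.exists_pot {C : Cov Mo} (hC : C.Univ) {h : ℕ} (hh : 0 < h) (c : Coc C h) :
    ∃ H : Vx C h → ZMod 2, (∀ g : Gm C h, H g.t = H g.s + c.f g) ∧
      ∀ x x', Same C h x x' → H x = H x' := by
  obtain ⟨B, hBa, hBb, hBr⟩ := hC.side_cocycle c.eps c.eps_a (fun y hy => c.eps_sum hh y hy)
  exact ⟨c.H B, c.H_edge B, fun x x' hx => c.H_same hh B hBa hBb hBr hx⟩

/-- The plane: every cocycle which is even round the defect chambers has a potential. -/
theorem Coc.exists_pot_plane (Mo : Model) (q0 : Mo.Q) {h : ℕ} (hh : 0 < h)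
    (c : Coc (Mo.plane q0) h)
    (hd : ∀ (y : (Mo.plane q0).Y) (σ : Bool) (j : ℕ) (hj : j < h),
      ((Mo.plane q0).p y).1 ∈ Mo.D → c.f (Gm.out y σ j hj) = 0) :
    ∃ H : Vx (Mo.plane q0) h → ZMod 2, (∀ g : Gm (Mo.plane q0) h, H g.t = H g.s + c.f g) ∧
      ∀ x x', Same (Mo.plane q0) h x x' → H x = H x' := by
  have hS : ∀ (y : (Mo.plane q0).Y) (σ : Bool) (k : ℕ), ((Mo.plane q0).p y).1 ∈ Mo.D →
      c.S y σ k = 0 := by
    intro y σ k hy
    unfold Coc.S
    refine sum_eq_zero fun j hj => ?_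
    unfold Coc.F
    rw [dif_pos (mem_Ico.1 hj).2]
    exact hd y σ j _ hy
  obtain ⟨B, hBa, hBb, hBr⟩ := (plane_sc Mo q0).side_cocycle (fun _ _ => trivial) c.eps c.eps_a
    (fun y hy => c.eps_sum hh y hy) (fun y _ => by
      by_cases hy : ((Mo.plane q0).p y).1 ∉ Mo.D
      · exact c.eps_sum hh y hy
      · refine sum_eq_zero fun k _ => ?_
        unfold Coc.eps
        rw [hS _ true 0 (by rw [Cov.p_rsymm_fst, Cov.p_pow_fst]; exact not_not.1 hy),
          hS _ false 0 (by rw [Cov.p_pow_fst]; exact not_not.1 hy), add_zero])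
  exact ⟨c.H B, c.H_edge B, fun x x' hx => c.H_same hh B hBa hBb hBr hx⟩

end Pool.CX
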